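import Pool.Agent.MP_c09afc_pr.Green

set_option linter.unusedSectionVars false
set_option linter.unusedSimpArgs false
set_option linter.unusedVariables false

namespace Pool.Agent.MP_c09afc_pr

open Function Finset

variable {V D : Type*} [DecidableEq V] [Fintype D] [DecidableEq D] [Nonempty D]

/-- Random walk with last-exit update, killed in `S`, stopped outside `Λ`, expectation of the
terminal value `Φ` if the walk has stopped within `n` steps. -/
noncomputable def ab (nb : V → D → V) (Λ S : Finset V) (Φ : (V → D) → ℝ) :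
    ℕ → (V → D) → V → ℝ
  | 0, T, x => if x ∈ Λ then 0 else Φ T
  | n + 1, T, x => if x ∈ Λ then
      (if x ∈ S then 0 else (∑ δ, ab nb Λ S Φ n (update T x δ) (nb x δ)) / Fintype.card D)
      else Φ T

/-- Probability of stopping within `n` steps without entering `S`. -/
noncomputable def sc (nb : V → D → V) (Λ S : Finset V) : ℕ → V → ℝ
  | 0, x => if x ∈ Λ then 0 else 1
  | n + 1, x => if x ∈ Λ then (if x ∈ S then 0 else avg nb (sc nb Λ S n) x) else 1

/-- Probability of hitting `o` within `n` steps. -/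
noncomputable def hit (nb : V → D → V) (Λ : Finset V) (o : V) : ℕ → V → ℝ
  | 0, _ => 0
  | n + 1, x => if x ∈ Λ then (if x = o then 1 else avg nb (hit nb Λ o n) x) else 0

section basic

variable (nb : V → D → V) (Λ S : Finset V)

theorem ab_out (Φ : (V → D) → ℝ) (n : ℕ) (T : V → D) {x : V} (hx : x ∉ Λ) :
    ab nb Λ S Φ n T x = Φ T := by
  cases n <;> simp [ab, hx]

theorem ab_zero (Φ : (V → D) → ℝ) (T : V → D) {x : V} (hx : x ∈ Λ) :
    ab nb Λ S Φ 0 T x = 0 := by
  simp [ab, hx]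

theorem ab_kill (Φ : (V → D) → ℝ) (n : ℕ) (T : V → D) {x : V} (hx : x ∈ Λ) (hS : x ∈ S) :
    ab nb Λ S Φ n T x = 0 := by
  cases n <;> simp [ab, hx, hS]

theorem ab_succ (Φ : (V → D) → ℝ) (n : ℕ) (T : V → D) {x : V} (hx : x ∈ Λ) (hS : x ∉ S) :
    ab nb Λ S Φ (n + 1) T x
      = (∑ δ, ab nb Λ S Φ n (update T x δ) (nb x δ)) / Fintype.card D := by
  simp [ab, hx, hS]

theorem sc_out (n : ℕ) {x : V} (hx : x ∉ Λ) : sc nb Λ S n x = 1 := by
  cases n <;> simp [sc, hx]

theorem ab_eq_U (Φ : (V → D) → ℝ) (n : ℕ) : ∀ (T : V → D) (x : V),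
    ab nb Λ ∅ Φ n T x = U nb Λ Kav Φ (fun _ _ => 0) n T x := by
  induction n with
  | zero => intro T x; simp [ab, U]
  | succ n ih =>
    intro T x
    by_cases hx : x ∈ Λ
    · rw [ab_succ nb Λ ∅ Φ n T hx (by simp), U_succ_of_mem nb Λ Kav Φ _ n T hx, zero_add]
      change _ = (∑ δ, U nb Λ Kav Φ (fun _ _ => 0) n (update T x δ) (nb x ((update T x δ) x)))
        / (Fintype.card D : ℝ)
      congr 1
      refine Finset.sum_congr rfl fun δ _ => ?_
      rw [ih, update_self]
    · rw [ab_out nb Λ ∅ Φ _ T hx, U_of_notMem nb Λ Kav Φ _ _ T hx]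

theorem ab_mono {Φ Φ' : (V → D) → ℝ} (h : ∀ T, Φ T ≤ Φ' T) (n : ℕ) : ∀ (T : V → D) (x : V),
    ab nb Λ S Φ n T x ≤ ab nb Λ S Φ' n T x := by
  induction n with
  | zero =>
    intro T x
    by_cases hx : x ∈ Λ
    · rw [ab_zero nb Λ S Φ T hx, ab_zero nb Λ S Φ' T hx]
    · rw [ab_out nb Λ S Φ _ T hx, ab_out nb Λ S Φ' _ T hx]; exact h T
  | succ n ih =>
    intro T x
    by_cases hx : x ∈ Λ
    · by_cases hS : x ∈ S
      · rw [ab_kill nb Λ S Φ _ T hx hS, ab_kill nb Λ S Φ' _ T hx hS]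
      · rw [ab_succ nb Λ S Φ n T hx hS, ab_succ nb Λ S Φ' n T hx hS]
        exact div_le_div_of_nonneg_right (Finset.sum_le_sum fun δ _ => ih _ _) (Nat.cast_nonneg _)
    · rw [ab_out nb Λ S Φ _ T hx, ab_out nb Λ S Φ' _ T hx]; exact h T

theorem ab_sum {ι : Type*} (s : Finset ι) (Φ : ι → (V → D) → ℝ) (n : ℕ) :
    ∀ (T : V → D) (x : V),
    ab nb Λ S (fun T => ∑ i ∈ s, Φ i T) n T x = ∑ i ∈ s, ab nb Λ S (Φ i) n T x := by
  induction n with
  | zero =>
    intro T x
    by_cases hx : x ∈ Λ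
    · rw [ab_zero nb Λ S _ T hx, Finset.sum_eq_zero]
      intro i _; exact ab_zero nb Λ S _ T hx
    · rw [ab_out nb Λ S _ _ T hx]
      exact Finset.sum_congr rfl fun i _ => (ab_out nb Λ S _ _ T hx).symm
  | succ n ih =>
    intro T x
    by_cases hx : x ∈ Λ
    · by_cases hS : x ∈ S
      · rw [ab_kill nb Λ S _ _ T hx hS, Finset.sum_eq_zero]
        intro i _; exact ab_kill nb Λ S _ _ T hx hS
      · rw [ab_succ nb Λ S _ n T hx hS]
        simp_rw [ih]
        rw [Finset.sum_comm, Finset.sum_div]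
        exact Finset.sum_congr rfl fun i _ => (ab_succ nb Λ S _ n T hx hS).symm
    · rw [ab_out nb Λ S _ _ T hx]
      exact Finset.sum_congr rfl fun i _ => (ab_out nb Λ S _ _ T hx).symm

theorem ab_add (Φ Φ' : (V → D) → ℝ) (n : ℕ) (T : V → D) (x : V) :
    ab nb Λ S (fun T => Φ T + Φ' T) n T x = ab nb Λ S Φ n T x + ab nb Λ S Φ' n T x := by
  have := ab_sum nb Λ S (Finset.univ : Finset Bool) (fun b => if b then Φ else Φ') n T x
  simpa using this

theorem ab_const (c : ℝ) (n : ℕ) : ∀ (T : V → D) (x : V),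
    ab nb Λ S (fun _ => c) n T x = c * sc nb Λ S n x := by
  induction n with
  | zero =>
    intro T x
    by_cases hx : x ∈ Λ
    · rw [ab_zero nb Λ S _ T hx]; simp [sc, hx]
    · rw [ab_out nb Λ S _ _ T hx, sc_out nb Λ S _ hx, mul_one]
  | succ n ih =>
    intro T x
    by_cases hx : x ∈ Λ
    · by_cases hS : x ∈ S
      · rw [ab_kill nb Λ S _ _ T hx hS]; simp [sc, hx, hS]
      · rw [ab_succ nb Λ S _ n T hx hS]
        simp_rw [ih]
        rw [← Finset.mul_sum, mul_div_assoc]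
        simp [sc, hx, hS, avg]
    · rw [ab_out nb Λ S _ _ T hx, sc_out nb Λ S _ hx, mul_one]

theorem sc_nonneg (n : ℕ) : ∀ x, 0 ≤ sc nb Λ S n x := by
  induction n with
  | zero => intro x; by_cases hx : x ∈ Λ <;> simp [sc, hx]
  | succ n ih =>
    intro x
    by_cases hx : x ∈ Λ
    · by_cases hS : x ∈ S
      · simp [sc, hx, hS]
      · simp only [sc, hx, hS, if_true, if_false]
        unfold avg
        exact div_nonneg (Finset.sum_nonneg fun δ _ => ih _) (Nat.cast_nonneg _)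
    · rw [sc_out nb Λ S _ hx]; exact zero_le_one

theorem sc_le_one (n : ℕ) : ∀ x, sc nb Λ S n x ≤ 1 := by
  induction n with
  | zero => intro x; by_cases hx : x ∈ Λ <;> simp [sc, hx]
  | succ n ih =>
    intro x
    by_cases hx : x ∈ Λ
    · by_cases hS : x ∈ S
      · simp [sc, hx, hS]
      · simp only [sc, hx, hS, if_true, if_false]
        rw [← avg_const (nb := nb) (1 : ℝ) x]
        exact avg_mono fun δ => ih _
    · rw [sc_out nb Λ S _ hx]

/-- Comparison of the avoidance probability with a function subharmonic off `S`. -/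
theorem sc_le (f : V → ℝ) (hf1 : ∀ x, f x ≤ 1) (hf0 : ∀ x, x ∉ Λ → f x = 0)
    (hf : ∀ x ∈ Λ, x ∉ S → f x ≤ avg nb f x) (n : ℕ) : ∀ x, sc nb Λ S n x ≤ 1 - f x := by
  induction n with
  | zero =>
    intro x
    by_cases hx : x ∈ Λ
    · simp only [sc, hx, if_true]; linarith [hf1 x]
    · rw [sc_out nb Λ S _ hx, hf0 x hx]; linarith
  | succ n ih =>
    intro x
    by_cases hx : x ∈ Λ
    · by_cases hS : x ∈ S
      · simp only [sc, hx, hS, if_true]; linarith [hf1 x]
      · simp only [sc, hx, hS, if_true, if_false]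
        have h1 : avg nb (sc nb Λ S n) x ≤ avg nb (fun y => 1 - f y) x := avg_mono fun δ => ih _
        rw [avg_sub, avg_const] at h1
        linarith [hf x hx hS]
    · rw [sc_out nb Λ S _ hx, hf0 x hx]; linarith

/-- Comparison of the hitting probability with a superharmonic function. -/
theorem hit_le (o : V) (f : V → ℝ) (hf0 : ∀ x, 0 ≤ f x) (hfo : 1 ≤ f o)
    (hf : ∀ x ∈ Λ, avg nb f x ≤ f x) (n : ℕ) : ∀ x, hit nb Λ o n x ≤ f x := by
  induction n with
  | zero => intro x; exact hf0 x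
  | succ n ih =>
    intro x
    by_cases hx : x ∈ Λ
    · by_cases hxo : x = o
      · simp only [hit, hx, hxo, if_true]
        rw [hxo] at hx
        simp only [hx, if_true]; exact hfo
      · simp only [hit, hx, hxo, if_true, if_false]
        exact (avg_mono fun δ => ih _).trans (hf x hx)
    · simp only [hit, hx, if_false]; exact hf0 x

/-- Splitting off the event of hitting `o`. -/
theorem ab_le_hit (o : V) (Φ : (V → D) → ℝ) (C : ℝ) (hC : ∀ T, Φ T ≤ C)
    (hC0 : 0 ≤ C) (n : ℕ) : ∀ (T : V → D) (x : V),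
    ab nb Λ ∅ Φ n T x ≤ C * hit nb Λ o n x + ab nb Λ {o} Φ n T x := by
  have hle : ∀ n, ∀ (T : V → D) (x : V), ab nb Λ ∅ Φ n T x ≤ C := by
    intro n T x
    have h1 := ab_mono nb Λ ∅ hC n T x
    rw [ab_const] at h1
    have h2 := sc_le_one nb Λ ∅ n x
    nlinarith
  induction n with
  | zero =>
    intro T x
    by_cases hx : x ∈ Λ
    · rw [ab_zero nb Λ _ _ T hx, ab_zero nb Λ _ _ T hx]; simp [hit]
    · rw [ab_out nb Λ _ _ _ T hx, ab_out nb Λ _ _ _ T hx]; simp [hit]
  | succ n ih =>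
    intro T x
    by_cases hx : x ∈ Λ
    · by_cases hxo : x = o
      · rw [ab_kill nb Λ {o} _ _ T hx (by simp [hxo])]
        simp only [hit, hx, hxo, if_true, add_zero]
        rw [hxo] at hx
        simp only [hx, if_true, mul_one]
        exact hle _ _ _
      · rw [ab_succ nb Λ ∅ _ n T hx (by simp), ab_succ nb Λ {o} _ n T hx (by simp [hxo])]
        simp only [hit, hx, hxo, if_true, if_false]
        rw [← avg_smul]
        unfold avg
        rw [← add_div, ← Finset.sum_add_distrib]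
        exact div_le_div_of_nonneg_right (Finset.sum_le_sum fun δ _ => ih _ _) (Nat.cast_nonneg _)
    · rw [ab_out nb Λ _ _ _ T hx, ab_out nb Λ _ _ _ T hx]; simp [hit, hx]

end basic

/-- `K` is the vertex set of the path of `T` from `u` to `o` inside `Λ`. -/
inductive PathSet (nb : V → D → V) (Λ : Finset V) (T : V → D) (o : V) : V → Finset V → Prop
  | nil : PathSet nb Λ T o o {o}
  | cons {u : V} {K : Finset V} (hu : u ∈ Λ) (huo : u ≠ o)
      (h : PathSet nb Λ T o (nb u (T u)) K) : PathSet nb Λ T o u (insert u K)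

section path

variable {nb : V → D → V} {Λ : Finset V} {T T' : V → D} {o u : V} {K K' : Finset V}

theorem PathSet.start_mem (h : PathSet nb Λ T o u K) : u ∈ K := by
  cases h <;> simp

theorem PathSet.end_mem (h : PathSet nb Λ T o u K) : o ∈ K := by
  induction h with
  | nil => simp
  | cons _ _ _ ih => exact Finset.mem_insert_of_mem ih

theorem PathSet.subset (ho : o ∈ Λ) (h : PathSet nb Λ T o u K) : K ⊆ Λ := by
  induction h with
  | nil => simpa using ho
  | cons hu _ _ ih => exact Finset.insert_subset hu ih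

theorem PathSet.congr (h : PathSet nb Λ T o u K) (hT : ∀ y ∈ K, y ≠ o → T' y = T y) :
    PathSet nb Λ T' o u K := by
  induction h with
  | nil => exact PathSet.nil
  | @cons u K hu huo h ih =>
    have e : T' u = T u := hT u (Finset.mem_insert_self _ _) huo
    refine PathSet.cons hu huo ?_
    rw [e]
    exact ih fun y hy hyo => hT y (Finset.mem_insert_of_mem hy) hyo

theorem PathSet.next_mem (h : PathSet nb Λ T o u K) {x : V} (hx : x ∈ K) (hxo : x ≠ o) :
    nb x (T x) ∈ K := by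
  induction h with
  | nil => exact absurd (Finset.mem_singleton.1 hx) hxo
  | @cons u K hu huo h ih =>
    rcases Finset.mem_insert.1 hx with rfl | hx
    · exact Finset.mem_insert_of_mem h.start_mem
    · exact Finset.mem_insert_of_mem (ih hx)

theorem PathSet.unique (h : PathSet nb Λ T o u K) : ∀ {K'}, PathSet nb Λ T o u K' → K = K' := by
  induction h with
  | nil =>
    intro K' h'
    cases h' with
    | nil => rfl
    | cons _ huo _ => exact absurd rfl huo
  | @cons u K hu huo h ih =>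
    intro K' h'
    cases h' with
    | nil => exact absurd rfl huo
    | cons _ _ h' => rw [ih h']

open scoped Classical in
/-- Indicator of the path event. -/
noncomputable def chi (nb : V → D → V) (Λ : Finset V) (o u : V) (K : Finset V) (T : V → D) : ℝ :=
  if PathSet nb Λ T o u K then 1 else 0

theorem chi_nonneg : 0 ≤ chi nb Λ o u K T := by
  unfold chi; split_ifs <;> norm_num

open scoped Classical in
/-- Walks avoiding `o` cannot create a path to `o`, and must avoid an existing one to keep it. -/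
theorem ab_chi (ho : o ∈ Λ) (u : V) (K : Finset V) (n : ℕ) : ∀ (T : V → D) (x : V),
    ab nb Λ {o} (chi nb Λ o u K) n T x
      ≤ (if PathSet nb Λ T o u K ∧ x ∉ K then 1 else 0) * sc nb Λ K n x := by
  have hout : ∀ n (T : V → D) (x : V), x ∉ Λ → ab nb Λ {o} (chi nb Λ o u K) n T x
      ≤ (if PathSet nb Λ T o u K ∧ x ∉ K then 1 else 0) * sc nb Λ K n x := by
    intro n T x hx
    rw [ab_out nb Λ _ _ _ T hx, sc_out nb Λ _ _ hx, mul_one]
    unfold chi
    by_cases h : PathSet nb Λ T o u K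
    · rw [if_pos h, if_pos ⟨h, fun h' => hx (h.subset ho h')⟩]
    · rw [if_neg h]
      split_ifs <;> norm_num
  have hnn : ∀ n (T : V → D) (x : V),
      0 ≤ (if PathSet nb Λ T o u K ∧ x ∉ K then (1 : ℝ) else 0) * sc nb Λ K n x := by
    intro n T x
    refine mul_nonneg ?_ (sc_nonneg _ _ _ _ _)
    split_ifs <;> norm_num
  induction n with
  | zero =>
    intro T x
    by_cases hx : x ∈ Λ
    · rw [ab_zero nb Λ _ _ T hx]; exact hnn _ _ _
    · exact hout _ _ _ hx
  | succ n ih =>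
    intro T x
    by_cases hx : x ∈ Λ
    · by_cases hxo : x = o
      · rw [ab_kill nb Λ {o} _ _ T hx (by simp [hxo])]; exact hnn _ _ _
      · rw [ab_succ nb Λ {o} _ n T hx (by simp [hxo])]
        by_cases hc : PathSet nb Λ T o u K ∧ x ∉ K
        · rw [if_pos hc, one_mul]
          have e : sc nb Λ K (n + 1) x = avg nb (sc nb Λ K n) x := by
            simp only [sc, hx, hc.2, if_true, if_false]
          rw [e]
          unfold avg
          refine div_le_div_of_nonneg_right (Finset.sum_le_sum fun δ _ => ?_) (Nat.cast_nonneg _)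
          refine (ih _ _).trans ?_
          have h1 := sc_nonneg nb Λ K n (nb x δ)
          split_ifs
          · rw [one_mul]
          · rw [zero_mul]; exact h1
        · rw [if_neg hc, zero_mul]
          have hz : ∀ δ, ab nb Λ {o} (chi nb Λ o u K) n (update T x δ) (nb x δ) ≤ 0 := by
            intro δ
            refine (ih _ _).trans ?_
            rw [if_neg, zero_mul]
            rintro ⟨hp, hn⟩
            have hxK : x ∉ K := by
              intro hxK
              apply hn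
              have := hp.next_mem hxK hxo
              rwa [update_self] at this
            apply hc
            refine ⟨hp.congr fun y hy _ => ?_, hxK⟩
            rw [update_of_ne]
            rintro rfl
            exact hxK hy
          exact div_nonpos_of_nonpos_of_nonneg (Finset.sum_nonpos fun δ _ => hz δ)
            (Nat.cast_nonneg _)
    · exact hout _ _ _ hx

end path

/-- Insert a walker at a uniformly chosen boundary edge. -/
noncomputable def Rop (nb : V → D → V) (Λ S : Finset V) (n : ℕ) (Φ : (V → D) → ℝ) :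
    (V → D) → ℝ :=
  fun T => (∑ e ∈ bdry nb Λ, ab nb Λ S Φ n T e.1) / (bdry nb Λ).card

section rop

variable {nb : V → D → V} {Λ : Finset V} {o : V}

theorem Rop_mono (S : Finset V) (n : ℕ) {Φ Φ' : (V → D) → ℝ} (h : ∀ T, Φ T ≤ Φ' T) (T : V → D) :
    Rop nb Λ S n Φ T ≤ Rop nb Λ S n Φ' T := by
  unfold Rop
  exact div_le_div_of_nonneg_right (Finset.sum_le_sum fun e _ => ab_mono nb Λ S h n _ _)
    (Nat.cast_nonneg _)

theorem Rop_iter_mono (S : Finset V) (n M : ℕ) {Φ Φ' : (V → D) → ℝ} (h : ∀ T, Φ T ≤ Φ' T) :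
    ∀ T, (Rop nb Λ S n)^[M] Φ T ≤ (Rop nb Λ S n)^[M] Φ' T := by
  induction M with
  | zero => exact h
  | succ M ih =>
    intro T
    rw [iterate_succ_apply', iterate_succ_apply']
    exact Rop_mono S n ih T

theorem Rop_sum (S : Finset V) (n : ℕ) {ι : Type*} (s : Finset ι) (Φ : ι → (V → D) → ℝ) :
    Rop nb Λ S n (fun T => ∑ i ∈ s, Φ i T) = fun T => ∑ i ∈ s, Rop nb Λ S n (Φ i) T := by
  funext T
  unfold Rop
  simp_rw [ab_sum]
  rw [Finset.sum_comm, Finset.sum_div]

theorem Rop_iter_sum (S : Finset V) (n M : ℕ) {ι : Type*} (s : Finset ι)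
    (Φ : ι → (V → D) → ℝ) :
    (Rop nb Λ S n)^[M] (fun T => ∑ i ∈ s, Φ i T)
      = fun T => ∑ i ∈ s, (Rop nb Λ S n)^[M] (Φ i) T := by
  induction M with
  | zero => rfl
  | succ M ih =>
    rw [iterate_succ_apply', ih, Rop_sum]
    funext T
    exact Finset.sum_congr rfl fun i _ => by rw [iterate_succ_apply']

theorem Rop_iter_add (S : Finset V) (n M : ℕ) (Φ Φ' : (V → D) → ℝ) (T : V → D) :
    (Rop nb Λ S n)^[M] (fun T => Φ T + Φ' T) T
      = (Rop nb Λ S n)^[M] Φ T + (Rop nb Λ S n)^[M] Φ' T := by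
  have := congrFun (Rop_iter_sum (nb := nb) (Λ := Λ) S n M (Finset.univ : Finset Bool)
    (fun b => if b then Φ else Φ')) T
  simpa using this

/-- Probability that a walker from a uniform boundary edge stops within `n` steps. -/
noncomputable def ex (nb : V → D → V) (Λ S : Finset V) (n : ℕ) : ℝ :=
  (∑ e ∈ bdry nb Λ, sc nb Λ S n e.1) / (bdry nb Λ).card

theorem Rop_const (S : Finset V) (n : ℕ) (c : ℝ) :
    Rop nb Λ S n (fun _ => c) = fun _ => c * ex nb Λ S n := by
  funext T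
  unfold Rop ex
  simp_rw [ab_const]
  rw [← Finset.mul_sum, mul_div_assoc]

theorem Rop_iter_const (S : Finset V) (n M : ℕ) (c : ℝ) :
    (Rop nb Λ S n)^[M] (fun _ => c) = fun _ => c * ex nb Λ S n ^ M := by
  induction M with
  | zero => simp
  | succ M ih =>
    rw [iterate_succ_apply', ih, Rop_const]
    funext _
    ring

theorem ex_nonneg (S : Finset V) (n : ℕ) : 0 ≤ ex nb Λ S n :=
  div_nonneg (Finset.sum_nonneg fun e _ => sc_nonneg _ _ _ _ _) (Nat.cast_nonneg _)

theorem ex_le_one (S : Finset V) (n : ℕ) : ex nb Λ S n ≤ 1 := by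
  unfold ex
  apply div_le_one_of_le₀ _ (Nat.cast_nonneg _)
  calc ∑ e ∈ bdry nb Λ, sc nb Λ S n e.1 ≤ ∑ e ∈ bdry nb Λ, (1 : ℝ) :=
        Finset.sum_le_sum fun e _ => sc_le_one _ _ _ _ _
    _ = (bdry nb Λ).card := by simp

/-- The uniform measure on acyclic configurations is (sub)invariant. -/
theorem sum_Rop_le (W : Finset (V → D)) (hW : ∀ T ∈ W, ∀ x ∈ Λ, ∀ δ, update T x δ ∈ W)
    (v : Λ) (n : ℕ) (Φ : (V → D) → ℝ) (hΦ : ∀ T, 0 ≤ Φ T) :
    ∑ T ∈ W, ac nb Λ v T * Rop nb Λ ∅ n Φ T ≤ ∑ T ∈ W, ac nb Λ v T * Φ T := by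
  have hK := good_av (D := D) Λ W hW
  have h1 : ∀ e ∈ bdry nb Λ, ∑ T ∈ W, ac nb Λ v T * ab nb Λ ∅ Φ n T e.1
      ≤ ∑ T ∈ W, ac nb Λ v T * Φ T := by
    intro e he
    have heΛ : e.1 ∈ Λ := by
      unfold bdry at he
      rw [Finset.mem_filter, Finset.mem_product] at he
      exact he.1.1
    have := sum_U_le (nb := nb) (v := ⟨e.1, heΛ⟩) (Φ := Φ) (g := fun _ _ => 0) hK hΦ
      (fun _ _ => le_rfl) n
    simp only [mul_zero, Finset.sum_const_zero, zero_add] at this
    have e1 : ∀ T ∈ W, ac nb Λ v T * ab nb Λ ∅ Φ n T e.1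
        = ac nb Λ ⟨e.1, heΛ⟩ T * U nb Λ Kav Φ (fun _ _ => 0) n T e.1 := by
      intro T _
      rw [ab_eq_U, ac_base nb Λ v ⟨e.1, heΛ⟩]
    have e2 : ∀ T ∈ W, ac nb Λ v T * Φ T = ac nb Λ ⟨e.1, heΛ⟩ T * Φ T := by
      intro T _
      rw [ac_base nb Λ v ⟨e.1, heΛ⟩]
    rw [Finset.sum_congr rfl e1, Finset.sum_congr rfl e2]
    exact this
  unfold Rop
  have h2 : ∑ T ∈ W, ac nb Λ v T * ((∑ e ∈ bdry nb Λ, ab nb Λ ∅ Φ n T e.1) / (bdry nb Λ).card)
      = (∑ e ∈ bdry nb Λ, ∑ T ∈ W, ac nb Λ v T * ab nb Λ ∅ Φ n T e.1) / (bdry nb Λ).card := by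
    rw [Finset.sum_comm, Finset.sum_div]
    refine Finset.sum_congr rfl fun T _ => ?_
    rw [← Finset.mul_sum, mul_div_assoc]
  rw [h2]
  have hnn : 0 ≤ ∑ T ∈ W, ac nb Λ v T * Φ T :=
    Finset.sum_nonneg fun T _ => mul_nonneg (ac_nonneg _ _ _ _) (hΦ T)
  rcases Nat.eq_zero_or_pos (bdry nb Λ).card with h0 | hpos
  · rw [h0]; simpa using hnn
  · have hpos' : (0 : ℝ) < (bdry nb Λ).card := by exact_mod_cast hpos
    rw [div_le_iff₀ hpos']
    calc _ ≤ ∑ e ∈ bdry nb Λ, ∑ T ∈ W, ac nb Λ v T * Φ T := Finset.sum_le_sum h1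
      _ = _ := by rw [Finset.sum_const, nsmul_eq_mul, mul_comm]

theorem Rop_nonneg (S : Finset V) (n : ℕ) {Φ : (V → D) → ℝ} (h : ∀ T, 0 ≤ Φ T) (T : V → D) :
    0 ≤ Rop nb Λ S n Φ T := by
  have := Rop_mono (nb := nb) (Λ := Λ) S n (Φ := fun _ => 0) (Φ' := Φ) h T
  rw [Rop_const, zero_mul] at this
  exact this

theorem Rop_iter_nonneg (S : Finset V) (n M : ℕ) {Φ : (V → D) → ℝ} (h : ∀ T, 0 ≤ Φ T)
    (T : V → D) : 0 ≤ (Rop nb Λ S n)^[M] Φ T := by
  have := Rop_iter_mono (nb := nb) (Λ := Λ) S n M (Φ := fun _ => 0) (Φ' := Φ) h T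
  rw [Rop_iter_const, zero_mul] at this
  exact this

theorem sum_Rop_iter_le (W : Finset (V → D)) (hW : ∀ T ∈ W, ∀ x ∈ Λ, ∀ δ, update T x δ ∈ W)
    (v : Λ) (n M : ℕ) (Φ : (V → D) → ℝ) (hΦ : ∀ T, 0 ≤ Φ T) :
    ∑ T ∈ W, ac nb Λ v T * (Rop nb Λ ∅ n)^[M] Φ T ≤ ∑ T ∈ W, ac nb Λ v T * Φ T := by
  induction M with
  | zero => exact le_rfl
  | succ M ih =>
    refine le_trans ?_ ih
    simp_rw [iterate_succ_apply']
    exact sum_Rop_le W hW v n _ (Rop_iter_nonneg ∅ n M hΦ)

theorem Rop_hit (n : ℕ) (q : ℝ)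
    (hq : (∑ e ∈ bdry nb Λ, hit nb Λ o n e.1) / (bdry nb Λ).card ≤ q)
    (Φ : (V → D) → ℝ) (h1 : ∀ T, Φ T ≤ 1) (T : V → D) :
    Rop nb Λ ∅ n Φ T ≤ q + Rop nb Λ {o} n Φ T := by
  unfold Rop
  have : (∑ e ∈ bdry nb Λ, ab nb Λ ∅ Φ n T e.1) / (bdry nb Λ).card
      ≤ (∑ e ∈ bdry nb Λ, hit nb Λ o n e.1) / (bdry nb Λ).card
        + (∑ e ∈ bdry nb Λ, ab nb Λ {o} Φ n T e.1) / (bdry nb Λ).card := by
    rw [← add_div, ← Finset.sum_add_distrib]
    refine div_le_div_of_nonneg_right (Finset.sum_le_sum fun e _ => ?_) (Nat.cast_nonneg _)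
    have := ab_le_hit nb Λ o Φ 1 h1 zero_le_one n T e.1
    rwa [one_mul] at this
  linarith

theorem Rop_iter_hit (n : ℕ) (q : ℝ) (hq0 : 0 ≤ q)
    (hq : (∑ e ∈ bdry nb Λ, hit nb Λ o n e.1) / (bdry nb Λ).card ≤ q)
    (Φ : (V → D) → ℝ) (h1 : ∀ T, Φ T ≤ 1) (M : ℕ) : ∀ T,
    (Rop nb Λ ∅ n)^[M] Φ T ≤ M * q + (Rop nb Λ {o} n)^[M] Φ T := by
  have hle : ∀ M T, (Rop nb Λ ∅ n)^[M] Φ T ≤ 1 := by
    intro M T
    have := Rop_iter_mono (nb := nb) (Λ := Λ) ∅ n M (Φ := Φ) (Φ' := fun _ => 1) h1 T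
    rw [Rop_iter_const, one_mul] at this
    exact this.trans (pow_le_one₀ (ex_nonneg _ _) (ex_le_one _ _))
  induction M with
  | zero => intro T; simp
  | succ M ih =>
    intro T
    rw [iterate_succ_apply', iterate_succ_apply']
    have h2 := Rop_hit (nb := nb) (Λ := Λ) (o := o) n q hq ((Rop nb Λ ∅ n)^[M] Φ) (hle M) T
    have h3 := Rop_mono (nb := nb) (Λ := Λ) {o} n (Φ := (Rop nb Λ ∅ n)^[M] Φ)
      (Φ' := fun T => M * q + (Rop nb Λ {o} n)^[M] Φ T) ih T
    have h4 : Rop nb Λ {o} n (fun T => M * q + (Rop nb Λ {o} n)^[M] Φ T) T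
        = M * q * ex nb Λ {o} n + Rop nb Λ {o} n ((Rop nb Λ {o} n)^[M] Φ) T := by
      have := Rop_iter_add (nb := nb) (Λ := Λ) {o} n 1 (fun _ => M * q)
        ((Rop nb Λ {o} n)^[M] Φ) T
      simp only [iterate_one] at this
      rw [this, Rop_const]
    rw [h4] at h3
    have h5 : (M : ℝ) * q * ex nb Λ {o} n ≤ M * q := by
      have := ex_le_one (nb := nb) (Λ := Λ) {o} n
      have h0 : (0 : ℝ) ≤ M * q := mul_nonneg (Nat.cast_nonneg _) hq0
      nlinarith
    push_cast
    linarith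

theorem Rop_chi (ho : o ∈ Λ) (n : ℕ) (u : V) (K : Finset V) (θ : ℝ)
    (hθ : ∀ T, PathSet nb Λ T o u K → ex nb Λ K n ≤ θ) (T : V → D) :
    Rop nb Λ {o} n (chi nb Λ o u K) T ≤ θ * chi nb Λ o u K T := by
  classical
  unfold Rop
  by_cases hp : PathSet nb Λ T o u K
  · have e : chi nb Λ o u K T = 1 := by unfold chi; rw [if_pos hp]
    rw [e, mul_one]
    refine le_trans ?_ (hθ T hp)
    unfold ex
    refine div_le_div_of_nonneg_right (Finset.sum_le_sum fun e _ => ?_) (Nat.cast_nonneg _)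
    refine (ab_chi ho u K n T e.1).trans ?_
    have := sc_nonneg nb Λ K n e.1
    split_ifs
    · rw [one_mul]
    · rw [zero_mul]; exact this
  · have e : chi nb Λ o u K T = 0 := by unfold chi; rw [if_neg hp]
    rw [e, mul_zero]
    refine div_nonpos_of_nonpos_of_nonneg (Finset.sum_nonpos fun e _ => ?_) (Nat.cast_nonneg _)
    refine (ab_chi ho u K n T e.1).trans ?_
    rw [if_neg (fun h => hp h.1), zero_mul]

theorem Rop_iter_chi (ho : o ∈ Λ) (n : ℕ) (u : V) (K : Finset V) (θ : ℝ) (hθ0 : 0 ≤ θ)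
    (hθ : ∀ T, PathSet nb Λ T o u K → ex nb Λ K n ≤ θ) (M : ℕ) : ∀ T : V → D,
    (Rop nb Λ {o} n)^[M] (chi nb Λ o u K) T ≤ θ ^ M * chi nb Λ o u K T := by
  induction M with
  | zero => intro T; simp
  | succ M ih =>
    intro T
    rw [iterate_succ_apply']
    have h1 := Rop_mono (nb := nb) (Λ := Λ) {o} n ih T
    have h2 : Rop nb Λ {o} n (fun T => θ ^ M * chi nb Λ o u K T) T
        = θ ^ M * Rop nb Λ {o} n (chi nb Λ o u K) T := by
      unfold Rop
      have : ∀ n (T : V → D) (x : V), ab nb Λ {o} (fun T => θ ^ M * chi nb Λ o u K T) n T x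
          = θ ^ M * ab nb Λ {o} (chi nb Λ o u K) n T x := by
        intro n
        induction n with
        | zero =>
          intro T x
          by_cases hx : x ∈ Λ
          · rw [ab_zero nb Λ _ _ T hx, ab_zero nb Λ _ _ T hx, mul_zero]
          · rw [ab_out nb Λ _ _ _ T hx, ab_out nb Λ _ _ _ T hx]
        | succ n ih =>
          intro T x
          by_cases hx : x ∈ Λ
          · by_cases hS : x ∈ ({o} : Finset V)
            · rw [ab_kill nb Λ _ _ _ T hx hS, ab_kill nb Λ _ _ _ T hx hS, mul_zero]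
            · rw [ab_succ nb Λ _ _ n T hx hS, ab_succ nb Λ _ _ n T hx hS]
              simp_rw [ih]
              rw [← Finset.mul_sum, mul_div_assoc]
          · rw [ab_out nb Λ _ _ _ T hx, ab_out nb Λ _ _ _ T hx]
      simp_rw [this]
      rw [← Finset.mul_sum, mul_div_assoc]
    rw [h2] at h1
    have h3 := mul_le_mul_of_nonneg_left (Rop_chi ho n u K θ hθ T) (pow_nonneg hθ0 M)
    calc _ ≤ _ := h1
      _ ≤ _ := h3
      _ = _ := by ring

end rop

end Pool.Agent.MP_c09afc_pr
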