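import Mathlib

set_option linter.unusedSectionVars false
set_option linter.unusedSimpArgs false
set_option linter.unusedVariables false

namespace Pool.Agent.MP_c09afc_pr

open Finset

/-- The real group algebra of an additive group. -/
abbrev RG (G : Type*) := AddMonoidAlgebra ℝ G

section Nm

variable {G : Type*} [AddCommGroup G]

/-- The sum of absolute values of the coefficients. -/
noncomputable def Nm (f : RG G) : ℝ := f.coeff.sum fun _ r => |r|

theorem Nm_eq {f : RG G} {s : Finset G} (h : f.coeff.support ⊆ s) :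
    Nm f = ∑ x ∈ s, |f.coeff x| := by
  unfold Nm
  exact Finsupp.sum_of_support_subset _ h _ (by simp)

theorem Nm_nonneg (f : RG G) : 0 ≤ Nm f := by
  rw [Nm_eq (Finset.Subset.refl _)]
  exact Finset.sum_nonneg fun _ _ => abs_nonneg _

theorem Nm_add_le (f g : RG G) : Nm (f + g) ≤ Nm f + Nm g := by
  classical
  rw [Nm_eq (f := f) (s := f.coeff.support ∪ g.coeff.support) Finset.subset_union_left,
    Nm_eq (f := g) (s := f.coeff.support ∪ g.coeff.support) Finset.subset_union_right,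
    Nm_eq (f := f + g) (s := f.coeff.support ∪ g.coeff.support) (by
      rw [AddMonoidAlgebra.coeff_add]; exact Finsupp.support_add), ← Finset.sum_add_distrib]
  refine Finset.sum_le_sum fun x _ => ?_
  rw [AddMonoidAlgebra.coeff_add, Finsupp.add_apply]
  exact abs_add_le _ _

theorem Nm_zero : Nm (0 : RG G) = 0 := by
  unfold Nm
  simp

theorem Nm_single (x : G) (r : ℝ) : Nm (AddMonoidAlgebra.single x r) = |r| := by
  unfold Nm
  rw [AddMonoidAlgebra.coeff_single, Finsupp.sum_single_index (by simp)]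

theorem Nm_sum_le {ι : Type*} (s : Finset ι) (f : ι → RG G) :
    Nm (∑ i ∈ s, f i) ≤ ∑ i ∈ s, Nm (f i) := by
  classical
  induction s using Finset.induction_on with
  | empty => simp [Nm_zero]
  | insert i s hi ih =>
    rw [Finset.sum_insert hi, Finset.sum_insert hi]
    exact (Nm_add_le _ _).trans (by linarith)

theorem Nm_mul_le (f g : RG G) : Nm (f * g) ≤ Nm f * Nm g := by
  rw [AddMonoidAlgebra.mul_def]
  unfold Finsupp.sum
  refine (Nm_sum_le _ _).trans ?_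
  rw [Nm_eq (f := f) (Finset.Subset.refl _), Finset.sum_mul]
  refine Finset.sum_le_sum fun x _ => ?_
  refine (Nm_sum_le _ _).trans ?_
  rw [Nm_eq (f := g) (Finset.Subset.refl _), Finset.mul_sum]
  refine Finset.sum_le_sum fun y _ => ?_
  rw [Nm_single, abs_mul]

theorem Nm_smul (r : ℝ) (f : RG G) : Nm (r • f) = |r| * Nm f := by
  rw [Nm_eq (f := r • f) (s := f.coeff.support) (by
    rw [AddMonoidAlgebra.coeff_smul]; exact Finsupp.support_smul),
    Nm_eq (f := f) (Finset.Subset.refl _), Finset.mul_sum]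
  refine Finset.sum_congr rfl fun x _ => ?_
  rw [AddMonoidAlgebra.coeff_smul_apply, smul_eq_mul, abs_mul]

theorem Nm_one : Nm (1 : RG G) = 1 := by
  rw [AddMonoidAlgebra.one_def, Nm_single, abs_one]

theorem Nm_neg (f : RG G) : Nm (-f) = Nm f := by
  rw [← neg_one_smul ℝ f, Nm_smul]
  simp

theorem Nm_pow_le (f : RG G) (n : ℕ) : Nm (f ^ n) ≤ Nm f ^ n := by
  induction n with
  | zero => simp [Nm_one]
  | succ n ih =>
    rw [pow_succ, pow_succ]
    exact (Nm_mul_le _ _).trans (mul_le_mul_of_nonneg_right ih (Nm_nonneg _))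

theorem abs_coeff_le (f : RG G) (x : G) : |f.coeff x| ≤ Nm f := by
  classical
  rw [Nm_eq (f := f) (s := insert x f.coeff.support) (Finset.subset_insert _ _)]
  exact Finset.single_le_sum (f := fun x => |f.coeff x|) (fun _ _ => abs_nonneg _)
    (Finset.mem_insert_self _ _)

theorem sum_abs_coeff_le (f : RG G) (s : Finset G) : ∑ x ∈ s, |f.coeff x| ≤ Nm f := by
  classical
  rw [Nm_eq (f := f) (s := s ∪ f.coeff.support) Finset.subset_union_right]
  exact Finset.sum_le_sum_of_subset_of_nonneg Finset.subset_union_left fun _ _ _ => abs_nonneg _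

end Nm

section binom

theorem sum_choose_sq (N : ℕ) :
    ∑ j ∈ range (N + 1), (N.choose j : ℝ) * ((N : ℝ) - 2 * (j : ℝ)) ^ 2 = (N : ℝ) * 2 ^ N := by
  have h := congrArg (Polynomial.eval (1 / 2 : ℝ)) (bernsteinPolynomial.variance ℝ N)
  rw [Polynomial.eval_finsetSum] at h
  have e : ∀ ν ∈ range (N + 1), Polynomial.eval (1 / 2 : ℝ)
      ((N • Polynomial.X - (ν : Polynomial ℝ)) ^ 2 * bernsteinPolynomial ℝ N ν)
      = (N.choose ν : ℝ) * ((N : ℝ) - 2 * ν) ^ 2 * (1 / 4 * (1 / 2) ^ N) := by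
    intro ν hν
    have hle : ν ≤ N := by
      have := mem_range.1 hν; omega
    unfold bernsteinPolynomial
    simp only [Polynomial.eval_mul, Polynomial.eval_pow, Polynomial.eval_sub, Polynomial.eval_X,
      Polynomial.eval_natCast, Polynomial.eval_one, nsmul_eq_mul]
    have h2 : (1 - 1 / 2 : ℝ) = 1 / 2 := by norm_num
    rw [h2]
    have h3 : (1 / 2 : ℝ) ^ N = (1 / 2) ^ ν * (1 / 2) ^ (N - ν) := by
      rw [← pow_add]; congr 1; omega
    rw [h3]
    ring
  rw [Finset.sum_congr rfl e, ← Finset.sum_mul] at h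
  simp only [Polynomial.eval_mul, Polynomial.eval_sub, Polynomial.eval_X,
      Polynomial.eval_natCast, Polynomial.eval_one, nsmul_eq_mul] at h
  have h4 : (1 / 4 * (1 / 2 : ℝ) ^ N) * 2 ^ N = 1 / 4 := by
    rw [mul_assoc, ← mul_pow]; norm_num
  have h5 : (∑ j ∈ range (N + 1), (N.choose j : ℝ) * ((N : ℝ) - 2 * (j : ℝ)) ^ 2) * (1 / 4)
      = (N : ℝ) * (1 / 2) * (1 - 1 / 2) * 2 ^ N := by
    rw [← h, mul_assoc _ (1 / 4 * (1 / 2 : ℝ) ^ N), h4]
  linarith

theorem sum_choose_abs (N : ℕ) :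
    ∑ j ∈ range (N + 1), (N.choose j : ℝ) * |(N : ℝ) - 2 * j| ≤ √N * 2 ^ N := by
  rcases Nat.eq_zero_or_pos N with h0 | hN
  · subst h0; simp
  have hN' : (0 : ℝ) < N := by exact_mod_cast hN
  have hs : 0 < √(N : ℝ) := Real.sqrt_pos.2 hN'
  have h1 : ∀ j ∈ range (N + 1), (N.choose j : ℝ) * |(N : ℝ) - 2 * j|
      ≤ √N / 2 * N.choose j + 1 / (2 * √N) * ((N.choose j : ℝ) * ((N : ℝ) - 2 * j) ^ 2) := by
    intro j _
    have h2 : |(N : ℝ) - 2 * j| ≤ √N / 2 + 1 / (2 * √N) * ((N : ℝ) - 2 * j) ^ 2 := by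
      set t := |(N : ℝ) - 2 * j| with ht
      have : ((N : ℝ) - 2 * j) ^ 2 = t ^ 2 := by rw [ht, sq_abs]
      rw [this]
      have h3 : √N / 2 + 1 / (2 * √N) * t ^ 2 - t = (√N - t) ^ 2 / (2 * √N) := by
        field_simp; ring
      have h4 : 0 ≤ (√N - t) ^ 2 / (2 * √(N : ℝ)) := by positivity
      linarith
    have := mul_le_mul_of_nonneg_left h2 (show (0 : ℝ) ≤ N.choose j by positivity)
    linarith
  refine (Finset.sum_le_sum h1).trans ?_
  rw [Finset.sum_add_distrib, ← Finset.mul_sum, ← Finset.mul_sum, sum_choose_sq]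
  have h2 : ∑ j ∈ range (N + 1), (N.choose j : ℝ) = 2 ^ N := by
    exact_mod_cast Nat.sum_range_choose N
  rw [h2]
  have h3 : (N : ℝ) = √N * √N := (Real.mul_self_sqrt hN'.le).symm
  apply le_of_eq
  have : 1 / (2 * √(N : ℝ)) * ((N : ℝ) * 2 ^ N) = √N / 2 * 2 ^ N := by
    nth_rewrite 2 [h3]
    field_simp
  rw [this]
  ring

variable {R : Type*} [CommRing R]

theorem sum_choose_mul (S : R) (N : ℕ) :
    ∑ j ∈ range (N + 2), ((N + 1).choose j : R) * j * S ^ j = (N + 1) * S * (1 + S) ^ N := by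
  rw [Finset.sum_range_succ']
  simp only [Nat.cast_zero, mul_zero, zero_mul, add_zero]
  rw [add_comm 1 S, add_pow, Finset.mul_sum]
  refine Finset.sum_congr rfl fun j _ => ?_
  have h := Nat.add_one_mul_choose_eq N j
  have h' : ((N + 1 : ℕ) : R) * (N.choose j : R) = ((N + 1).choose (j + 1) : R) * ((j + 1 : ℕ) : R) := by
    exact_mod_cast congrArg (Nat.cast : ℕ → R) h
  push_cast at h'
  push_cast
  rw [← h', one_pow, pow_succ]
  ring

theorem diff_expand (S : R) (N : ℕ) :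
    ∑ j ∈ range (N + 2), ((N + 1).choose j : R) * (((N + 1 : ℕ) : R) - 2 * j) * S ^ j
      = (N + 1) * ((1 - S) * (1 + S) ^ N) := by
  have h1 : ∑ j ∈ range (N + 2), ((N + 1).choose j : R) * S ^ j = (1 + S) ^ (N + 1) := by
    rw [add_comm 1 S, add_pow]
    refine Finset.sum_congr rfl fun j _ => ?_
    rw [one_pow]; ring
  calc _ = ∑ j ∈ range (N + 2), (((N + 1 : ℕ) : R) * (((N + 1).choose j : R) * S ^ j)
        - 2 * (((N + 1).choose j : R) * j * S ^ j)) := by
        refine Finset.sum_congr rfl fun j _ => ?_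
        ring
    _ = ((N + 1 : ℕ) : R) * (1 + S) ^ (N + 1) - 2 * ((N + 1) * S * (1 + S) ^ N) := by
        rw [Finset.sum_sub_distrib, ← Finset.mul_sum, ← Finset.mul_sum, h1, sum_choose_mul]
    _ = _ := by
        push_cast
        ring

end binom

section decay

variable {G : Type*} [AddCommGroup G]

theorem natCast_RG (n : ℕ) : (n : RG G) = algebraMap ℝ (RG G) (n : ℝ) := by
  rw [map_natCast]

theorem Nm_T_pow (S : RG G) (hS : Nm S ≤ 1) (k : ℕ) :
    Nm (((1 / 2 : ℝ) • (1 + S)) ^ k * (1 - S)) ≤ 2 / √((k : ℝ) + 1) := by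
  have h := diff_expand S k
  have hk : (0 : ℝ) < (k : ℝ) + 1 := by positivity
  have e1 : ((1 / 2 : ℝ) • (1 + S)) ^ k * (1 - S)
      = ((1 / 2 : ℝ) ^ k * (1 / ((k : ℝ) + 1))) •
        ∑ j ∈ range (k + 2), ((k + 1).choose j : RG G) * (((k + 1 : ℕ) : RG G) - 2 * (j : RG G)) * S ^ j := by
    rw [h]
    have h1 : ((k : RG G) + 1) = ((k : ℝ) + 1) • (1 : RG G) := by
      rw [Algebra.smul_def, mul_one, map_add, map_one, map_natCast]
    rw [h1, smul_mul_assoc, one_mul, smul_smul, smul_pow, smul_mul_assoc]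
    have : (1 / 2 : ℝ) ^ k * (1 / ((k : ℝ) + 1)) * ((k : ℝ) + 1) = (1 / 2 : ℝ) ^ k := by
      field_simp
    rw [this, mul_comm (1 - S)]
  rw [e1, Nm_smul, abs_of_nonneg (by positivity)]
  have h2 : Nm (∑ j ∈ range (k + 2), ((k + 1).choose j : RG G) * (((k + 1 : ℕ) : RG G) - 2 * (j : RG G)) * S ^ j)
      ≤ √((k : ℝ) + 1) * 2 ^ (k + 1) := by
    have h3 := sum_choose_abs (k + 1)
    push_cast at h3
    refine le_trans ?_ h3
    refine (Nm_sum_le _ _).trans (Finset.sum_le_sum fun j _ => ?_)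
    have h4 : ((k + 1).choose j : RG G) * (((k + 1 : ℕ) : RG G) - 2 * (j : RG G)) * S ^ j
        = ((((k + 1).choose j : ℝ)) * (((k : ℝ) + 1) - 2 * (j : ℝ))) • S ^ j := by
      simp only [Algebra.smul_def, map_mul, map_sub, map_add, map_one, map_natCast, map_ofNat]
      push_cast
      ring
    rw [h4, Nm_smul, abs_mul, abs_of_nonneg (show (0 : ℝ) ≤ ((k + 1).choose j : ℝ) by positivity)]
    have h5 : Nm (S ^ j) ≤ 1 := (Nm_pow_le S j).trans (pow_le_one₀ (Nm_nonneg _) hS)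
    exact mul_le_of_le_one_right (by positivity) h5
  have h3 := mul_le_mul_of_nonneg_left h2 (show (0 : ℝ) ≤ (1 / 2 : ℝ) ^ k * (1 / ((k : ℝ) + 1)) by positivity)
  refine h3.trans (le_of_eq ?_)
  have hs : √((k : ℝ) + 1) * √((k : ℝ) + 1) = (k : ℝ) + 1 := Real.mul_self_sqrt hk.le
  have hs0 : 0 < √((k : ℝ) + 1) := Real.sqrt_pos.2 hk
  have h6 : (1 / 2 : ℝ) ^ k * 2 ^ (k + 1) = 2 := by
    rw [pow_succ, ← mul_assoc, ← mul_pow]; norm_num
  rw [eq_div_iff hs0.ne']
  calc (1 / 2 : ℝ) ^ k * (1 / ((k : ℝ) + 1)) * (√((k : ℝ) + 1) * 2 ^ (k + 1)) * √((k : ℝ) + 1)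
      = ((1 / 2 : ℝ) ^ k * 2 ^ (k + 1)) * (1 / ((k : ℝ) + 1)) * (√((k : ℝ) + 1) * √((k : ℝ) + 1)) := by ring
    _ = 2 := by rw [h6, hs]; field_simp

theorem binom_inv_sum (p : ℝ) (hp : 0 < p) (hp1 : p ≤ 1) (m : ℕ) :
    ∑ k ∈ range (m + 1), (m.choose k : ℝ) * (p ^ k * (1 - p) ^ (m - k)) * (1 / ((k : ℝ) + 1))
      ≤ 1 / (((m : ℝ) + 1) * p) := by
  have hm : (0 : ℝ) < (m : ℝ) + 1 := by positivity
  have h1 : ∀ k ∈ range (m + 1), (m.choose k : ℝ) * (p ^ k * (1 - p) ^ (m - k)) * (1 / ((k : ℝ) + 1))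
      = 1 / (((m : ℝ) + 1) * p) * (p ^ (k + 1) * (1 - p) ^ (m + 1 - (k + 1)) * ((m + 1).choose (k + 1))) := by
    intro k _
    have h := Nat.add_one_mul_choose_eq m k
    have h' : ((m : ℝ) + 1) * (m.choose k : ℝ) = ((m + 1).choose (k + 1) : ℝ) * ((k : ℝ) + 1) := by
      exact_mod_cast h
    have hk : (0 : ℝ) < (k : ℝ) + 1 := by positivity
    have e : m + 1 - (k + 1) = m - k := by omega
    rw [e]
    have h2 : (m.choose k : ℝ) * (1 / ((k : ℝ) + 1)) = ((m + 1).choose (k + 1) : ℝ) * (1 / ((m : ℝ) + 1)) := by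
      field_simp
      linarith
    calc (m.choose k : ℝ) * (p ^ k * (1 - p) ^ (m - k)) * (1 / ((k : ℝ) + 1))
        = ((m.choose k : ℝ) * (1 / ((k : ℝ) + 1))) * (p ^ k * (1 - p) ^ (m - k)) := by ring
      _ = _ := by
        rw [h2, pow_succ]
        field_simp
  rw [Finset.sum_congr rfl h1, ← Finset.mul_sum]
  refine mul_le_of_le_one_right (by positivity) ?_
  have h2 := add_pow p (1 - p) (m + 1)
  rw [Finset.sum_range_succ'] at h2
  have h3 : (p + (1 - p)) ^ (m + 1) = 1 := by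
    rw [add_sub_cancel, one_pow]
  rw [h3] at h2
  have h4 : 0 ≤ p ^ 0 * (1 - p) ^ (m + 1 - 0) * ((m + 1).choose 0 : ℝ) := by
    have : 0 ≤ 1 - p := by linarith
    positivity
  linarith

theorem Nm_mix (S R : RG G) (hS : Nm S ≤ 1) (p : ℝ) (hp : 0 < p) (hp1 : p ≤ 1)
    (hR : Nm R ≤ 1 - p) (m : ℕ) :
    Nm ((p • ((1 / 2 : ℝ) • (1 + S)) + R) ^ m * (1 - S)) ≤ 2 / √(((m : ℝ) + 1) * p) := by
  have hm : (0 : ℝ) < (m : ℝ) + 1 := by positivity
  set w : ℕ → ℝ := fun k => (m.choose k : ℝ) * (p ^ k * (1 - p) ^ (m - k)) with hw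
  have hw0 : ∀ k, 0 ≤ w k := fun k => by
    have : 0 ≤ 1 - p := by linarith
    rw [hw]; positivity
  have h1 : Nm ((p • ((1 / 2 : ℝ) • (1 + S)) + R) ^ m * (1 - S))
      ≤ ∑ k ∈ range (m + 1), w k * (2 / √((k : ℝ) + 1)) := by
    rw [add_pow, Finset.sum_mul]
    refine (Nm_sum_le _ _).trans (Finset.sum_le_sum fun k _ => ?_)
    have e : (p • ((1 / 2 : ℝ) • (1 + S))) ^ k * R ^ (m - k) * (m.choose k : RG G) * (1 - S)
        = ((m.choose k : ℝ) * p ^ k) • ((((1 / 2 : ℝ) • (1 + S)) ^ k * (1 - S)) * R ^ (m - k)) := by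
      rw [smul_pow]
      simp only [Algebra.smul_def, map_mul, map_sub, map_add, map_one, map_natCast, map_ofNat,
        map_pow]
      ring
    rw [e, Nm_smul, abs_of_nonneg (by positivity), hw]
    simp only
    have h2 := Nm_mul_le (((1 / 2 : ℝ) • (1 + S)) ^ k * (1 - S)) (R ^ (m - k))
    have h3 := Nm_T_pow S hS k
    have h4 : Nm (R ^ (m - k)) ≤ (1 - p) ^ (m - k) :=
      (Nm_pow_le _ _).trans (pow_le_pow_left₀ (Nm_nonneg _) hR _)
    have h5 : Nm ((((1 / 2 : ℝ) • (1 + S)) ^ k * (1 - S)) * R ^ (m - k))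
        ≤ 2 / √((k : ℝ) + 1) * (1 - p) ^ (m - k) :=
      h2.trans (mul_le_mul h3 h4 (Nm_nonneg _) (by positivity))
    have h6 := mul_le_mul_of_nonneg_left h5 (show (0 : ℝ) ≤ (m.choose k : ℝ) * p ^ k by positivity)
    refine h6.trans (le_of_eq ?_)
    ring
  refine h1.trans ?_
  set lam : ℝ := 1 / √(((m : ℝ) + 1) * p) with hlam
  have hq : 0 < ((m : ℝ) + 1) * p := by positivity
  have hlam0 : 0 < lam := by positivity
  have hlam2 : lam * lam = 1 / (((m : ℝ) + 1) * p) := by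
    rw [hlam, div_mul_div_comm, Real.mul_self_sqrt hq.le, one_mul]
  have h2 : ∀ k ∈ range (m + 1), w k * (2 / √((k : ℝ) + 1))
      ≤ lam * w k + 1 / lam * (w k * (1 / ((k : ℝ) + 1))) := by
    intro k _
    have hk : (0 : ℝ) < (k : ℝ) + 1 := by positivity
    have hs : 0 < √((k : ℝ) + 1) := Real.sqrt_pos.2 hk
    set t : ℝ := 1 / √((k : ℝ) + 1) with ht
    have ht2 : t * t = 1 / ((k : ℝ) + 1) := by
      rw [ht, div_mul_div_comm, Real.mul_self_sqrt hk.le, one_mul]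
    have e : 2 / √((k : ℝ) + 1) = 2 * t := by rw [ht]; ring
    rw [e, ← ht2]
    have h3 : 2 * t ≤ lam + 1 / lam * (t * t) := by
      have h4 : lam + 1 / lam * (t * t) - 2 * t = (lam - t) ^ 2 / lam := by
        field_simp; ring
      have h5 : 0 ≤ (lam - t) ^ 2 / lam := by positivity
      linarith
    have := mul_le_mul_of_nonneg_left h3 (hw0 k)
    linarith
  refine (Finset.sum_le_sum h2).trans ?_
  rw [Finset.sum_add_distrib, ← Finset.mul_sum, ← Finset.mul_sum]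
  have h3 : ∑ k ∈ range (m + 1), w k = 1 := by
    have h4 := add_pow p (1 - p) m
    rw [add_sub_cancel, one_pow] at h4
    rw [h4]
    refine Finset.sum_congr rfl fun k _ => ?_
    rw [hw]; ring
  have h4 := binom_inv_sum p hp hp1 m
  have h5 : ∑ k ∈ range (m + 1), w k * (1 / ((k : ℝ) + 1)) ≤ lam * lam := by
    rw [hlam2]; exact h4
  rw [h3]
  have h6 : 1 / lam * ∑ k ∈ range (m + 1), w k * (1 / ((k : ℝ) + 1)) ≤ 1 / lam * (lam * lam) :=
    mul_le_mul_of_nonneg_left h5 (by positivity)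
  have h7 : 1 / lam * (lam * lam) = lam := by field_simp
  have h8 : 2 / √(((m : ℝ) + 1) * p) = 2 * lam := by rw [hlam]; ring
  rw [h8]
  linarith

end decay

end Pool.Agent.MP_c09afc_pr
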