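import Pool.Agent.MP_c09afc_pr.Lattice2

set_option linter.unusedSectionVars false
set_option linter.unusedSimpArgs false
set_option linter.unusedVariables false

namespace Pool.Agent.MP_c09afc_pr

open Function Finset

section general

variable {V D : Type*} [DecidableEq V]

/-- Configurations equal to `δ₀` off `Λ`. -/
noncomputable def Om [Fintype D] (Λ : Finset V) (δ₀ : D) : Finset (V → D) := by
  classical
  exact (Finset.univ : Finset (Λ → D)).image (fun g x => if h : x ∈ Λ then g ⟨x, h⟩ else δ₀)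

theorem mem_Om [Fintype D] {Λ : Finset V} {δ₀ : D} {T : V → D} :
    T ∈ Om Λ δ₀ ↔ ∀ x, x ∉ Λ → T x = δ₀ := by
  classical
  unfold Om
  rw [Finset.mem_image]
  constructor
  · rintro ⟨g, _, rfl⟩ x hx
    simp [hx]
  · intro h
    refine ⟨fun x => T x, Finset.mem_univ _, ?_⟩
    funext x
    by_cases hx : x ∈ Λ
    · simp [hx]
    · simp [hx, h x hx]

theorem Om_update [Fintype D] {Λ Λ' : Finset V} (hΛ : Λ' ⊆ Λ) {δ₀ : D} :
    ∀ T ∈ Om Λ δ₀, ∀ x ∈ Λ', ∀ δ, update T x δ ∈ Om Λ δ₀ := by
  intro T hT x hx δ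
  rw [mem_Om] at hT ⊢
  intro y hy
  rw [update_of_ne]
  · exact hT y hy
  · rintro rfl
    exact hy (hΛ hx)

/-- Erasing the core vertex leaves an acyclic configuration. -/
theorem ac_erase_of_wt (nb : V → D → V) (Λ : Finset V) (a : Λ) (T : V → D) (x : V)
    (v : (Λ.erase x : Finset V)) : wt nb Λ a T x ≤ ac nb (Λ.erase x) v T := by
  classical
  unfold wt
  split_ifs with h
  · obtain ⟨hx, hcore⟩ := h
    have key : ∀ n, ∀ u (hu : u ∈ Λ.erase x), (Fm nb Λ a T)^[n] (some ⟨u, Finset.mem_of_mem_erase hu⟩)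
        = some ⟨x, hx⟩ → ∃ m, (Fm nb (Λ.erase x) v T)^[m] (some ⟨u, hu⟩) = none := by
      intro n
      induction n with
      | zero =>
        intro u hu h
        simp only [iterate_zero, id_eq, Option.some.injEq, Subtype.mk.injEq] at h
        exact absurd h (Finset.ne_of_mem_erase hu)
      | succ n ih =>
        intro u hu h
        rw [iterate_succ_apply] at h
        by_cases hn : nb u (T u) ∈ Λ.erase x
        · have e1 : Fm nb Λ a T (some ⟨u, Finset.mem_of_mem_erase hu⟩)
              = some ⟨nb u (T u), Finset.mem_of_mem_erase hn⟩ := by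
            simp only [Fm, dif_pos (Finset.mem_of_mem_erase hn)]
          rw [e1] at h
          obtain ⟨m, hm⟩ := ih _ hn h
          refine ⟨m + 1, ?_⟩
          rw [iterate_succ_apply]
          have e2 : Fm nb (Λ.erase x) v T (some ⟨u, hu⟩) = some ⟨nb u (T u), hn⟩ := by
            simp only [Fm, dif_pos hn]
          rw [e2]
          exact hm
        · refine ⟨1, ?_⟩
          simp only [iterate_one, Fm, dif_neg hn]
    have hacy : (none : Option (Λ.erase x : Finset V)) ∈ Core (Fm nb (Λ.erase x) v T) := by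
      intro u
      cases u with
      | none => exact ⟨0, rfl⟩
      | some u =>
        obtain ⟨n, hn⟩ := hcore (some ⟨u, Finset.mem_of_mem_erase u.2⟩)
        exact key n u u.2 hn
    unfold ac
    rw [if_pos hacy]
  · exact ac_nonneg _ _ _ _

theorem wt_of_ac_erase (nb : V → D → V) (Λ : Finset V) (x : Λ) (T : V → D)
    (v : (Λ.erase x : Finset V)) : ac nb (Λ.erase x) v T ≤ wt nb Λ x T x := by
  classical
  unfold ac
  split_ifs with h
  · have key : ∀ n, ∀ u (hu : u ∈ Λ.erase x), (Fm nb (Λ.erase x) v T)^[n] (some ⟨u, hu⟩) = none →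
        ∃ m, (Fm nb Λ x T)^[m] (some ⟨u, Finset.mem_of_mem_erase hu⟩) = some x := by
      intro n
      induction n with
      | zero => intro u hu h; simp at h
      | succ n ih =>
        intro u hu h
        rw [iterate_succ_apply] at h
        by_cases hn : nb u (T u) ∈ Λ.erase (x : V)
        · have e1 : Fm nb Λ x T (some ⟨u, Finset.mem_of_mem_erase hu⟩)
              = some ⟨nb u (T u), Finset.mem_of_mem_erase hn⟩ := by
            simp only [Fm, dif_pos (Finset.mem_of_mem_erase hn)]
          have e2 : Fm nb (Λ.erase x) v T (some ⟨u, hu⟩) = some ⟨nb u (T u), hn⟩ := by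
            simp only [Fm, dif_pos hn]
          rw [e2] at h
          obtain ⟨m, hm⟩ := ih _ hn h
          refine ⟨m + 1, ?_⟩
          rw [iterate_succ_apply, e1]
          exact hm
        · by_cases hΛ : nb u (T u) ∈ Λ
          · have hx : nb u (T u) = x := by
              by_contra hne
              exact hn (Finset.mem_erase.2 ⟨hne, hΛ⟩)
            refine ⟨1, ?_⟩
            simp only [iterate_one, Fm, dif_pos hΛ, Option.some.injEq]
            exact Subtype.ext hx
          · refine ⟨2, ?_⟩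
            rw [iterate_succ_apply, iterate_one]
            simp only [Fm, dif_neg hΛ]
    have hcore : (some x : Option Λ) ∈ Core (Fm nb Λ x T) := by
      intro u
      cases u with
      | none => exact ⟨1, rfl⟩
      | some u =>
        by_cases hu : u = x
        · subst hu; exact ⟨0, rfl⟩
        · have hu' : (u : V) ∈ Λ.erase (x : V) :=
            Finset.mem_erase.2 ⟨fun e => hu (Subtype.ext e), u.2⟩
          obtain ⟨n, hn⟩ := h (some ⟨u, hu'⟩)
          exact key n u hu' hn
    unfold wt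
    rw [if_pos ⟨x.2, hcore⟩]
  · exact wt_nonneg _ _ _ _ _

/-- One step of the rotor walk. -/
def stp (nb : V → D → V) (τ : V → Equiv.Perm D) (s : V × (V → D)) : V × (V → D) :=
  (nb s.1 (τ s.1 (s.2 s.1)), update s.2 s.1 (τ s.1 (s.2 s.1)))

theorem lead_forward {nb : V → D → V} {Λ : Finset V} {T : V → D} {x u : V} {K : Finset V}
    (hx : x ∈ Λ) (hne : ∀ δ, nb x δ ≠ x) (δ : D) (h : PathSet nb Λ T x u K) :
    ∃ K', PathSet nb Λ (update T x δ) (nb x δ) u K' := by
  induction h with
  | nil =>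
    exact ⟨insert x {nb x δ}, PathSet.cons hx (hne δ).symm
      (by rw [update_self]; exact PathSet.nil)⟩
  | @cons u K hu hux h ih =>
    by_cases hun : u = nb x δ
    · rw [hun]; exact ⟨_, PathSet.nil⟩
    · obtain ⟨K', hK'⟩ := ih
      exact ⟨insert u K', PathSet.cons hu hun (by rw [update_of_ne hux]; exact hK')⟩

/-- Visited vertices lead to the current position. -/
theorem visited_lead (nb : V → D → V) (hne : ∀ x δ, nb x δ ≠ x) (τ : V → Equiv.Perm D)
    (Λ : Finset V) (s : V × (V → D)) (t : ℕ) : ∀ i ≤ t,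
    (∀ j < t, ((stp nb τ)^[j] s).1 ∈ Λ) →
    ∃ K, PathSet nb Λ ((stp nb τ)^[t] s).2 ((stp nb τ)^[t] s).1 ((stp nb τ)^[i] s).1 K := by
  induction t with
  | zero =>
    intro i hi _
    obtain rfl : i = 0 := by omega
    exact ⟨_, PathSet.nil⟩
  | succ t ih =>
    intro i hi hΛ
    rcases Nat.lt_or_ge i (t + 1) with hlt | hge
    · obtain ⟨K, hK⟩ := ih i (by omega) (fun j hj => hΛ j (by omega))
      rw [iterate_succ_apply' _ t]
      exact lead_forward (hΛ t (by omega)) (hne _) _ hK
    · obtain rfl : i = t + 1 := by omega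
      exact ⟨_, PathSet.nil⟩

theorem U_rot_ge (nb : V → D → V) (τ : V → Equiv.Perm D) (Λ : Finset V)
    (Φ : (V → D) → ℝ) (hΦ : ∀ T, 0 ≤ Φ T)
    (g : (V → D) → V → ℝ) (hg : ∀ T y, 0 ≤ g T y) (t : ℕ) : ∀ (N : ℕ) (s : V × (V → D)), t ≤ N →
    (∀ j ≤ t, ((stp nb τ)^[j] s).1 ∈ Λ) →
    g ((stp nb τ)^[t] s).2 ((stp nb τ)^[t] s).1 ≤ U nb Λ (Krot τ) Φ g (N + 1) s.2 s.1 := by
  have hK : Good Λ (∅ : Finset (V → D)) (Krot τ) := by
    refine ⟨fun x g g' h T => h _, fun x T => rfl, fun x _ g => by simp, ?_⟩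
    intro x φ g h T
    show φ _ * g _ = φ T * g _
    rw [h]
  induction t with
  | zero =>
    intro N s _ h
    have h0 := h 0 le_rfl
    simp only [iterate_zero, id_eq] at h0 ⊢
    rw [U_succ_of_mem nb Λ _ Φ g N _ h0]
    have : 0 ≤ Krot τ s.1 (fun T' => U nb Λ (Krot τ) Φ g N T' (nb s.1 (T' s.1))) s.2 := by
      unfold Krot
      exact U_nonneg hK hΦ hg _ _ _
    linarith
  | succ t ih =>
    intro N s htN h
    have h0 := h 0 (by omega)
    simp only [iterate_zero, id_eq] at h0
    obtain ⟨N, rfl⟩ : ∃ N', N = N' + 1 := ⟨N - 1, by omega⟩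
    rw [U_succ_of_mem nb Λ _ Φ g (N + 1) _ h0, iterate_succ_apply]
    have h1 := ih N (stp nb τ s) (by omega) (fun j hj => by
      have := h (j + 1) (by omega)
      rwa [iterate_succ_apply] at this)
    have h2 : Krot τ s.1 (fun T' => U nb Λ (Krot τ) Φ g (N + 1) T' (nb s.1 (T' s.1))) s.2
        = U nb Λ (Krot τ) Φ g (N + 1) (stp nb τ s).2 (stp nb τ s).1 := by
      unfold Krot stp
      simp
    rw [h2]
    have := hg s.2 s.1
    linarith

/-- Last step of a path. -/
theorem path_last {nb : V → D → V} {Λ : Finset V} {T : V → D} {x u : V} {K : Finset V}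
    (h : PathSet nb Λ T x u K) (hux : u ≠ x) :
    ∃ z ∈ Λ.erase x, nb z (T z) = x ∧ ∃ K', PathSet nb (Λ.erase x) T z u K' := by
  induction h with
  | nil => exact absurd rfl hux
  | @cons u K hu hux' h ih =>
    by_cases hn : nb u (T u) = x
    · exact ⟨u, Finset.mem_erase.2 ⟨hux', hu⟩, hn, _, PathSet.nil⟩
    · obtain ⟨z, hz, hzx, K', hK'⟩ := ih hn
      refine ⟨z, hz, hzx, _, PathSet.cons (Finset.mem_erase.2 ⟨hux', hu⟩) ?_ hK'⟩
      rintro rfl
      exact hn hzx

end general

end Pool.Agent.MP_c09afc_pr
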