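import Mathlib

namespace Pool.Agent.MP_c09afc_pr

open Function Finset

open scoped Classical in
/-- The points reached from every point under iteration of `F`. -/
def Core {W : Type*} (F : W → W) : Set W := {x | ∀ u, ∃ n, F^[n] u = x}

theorem core_image {W : Type*} (F : W → W) {x : W} (hx : x ∈ Core F) : F x ∈ Core F := by
  intro u
  obtain ⟨n, hn⟩ := hx u
  exact ⟨n + 1, by rw [iterate_succ_apply', hn]⟩

theorem core_inj {W : Type*} (F : W → W) {x y : W} (hx : x ∈ Core F) (hy : y ∈ Core F)
    (h : F x = F y) : x = y := by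
  classical
  have hx' := hx (F x)
  have hy' := hy (F x)
  set n := Nat.find hx' with hn
  set m := Nat.find hy' with hm
  have en : F^[n] (F x) = x := Nat.find_spec hx'
  have em : F^[m] (F x) = y := Nat.find_spec hy'
  have pn : F^[n + 1] (F x) = F x := by rw [iterate_succ_apply', en]
  have pm : F^[m + 1] (F x) = F x := by rw [iterate_succ_apply', em, ← h]
  rcases lt_trichotomy n m with hlt | heq | hgt
  · exfalso
    have hm2 : F^[m - (n + 1)] (F x) = y := by
      have : m = (m - (n + 1)) + (n + 1) := by omega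
      rw [this, iterate_add_apply, pn] at em
      exact em
    exact Nat.find_min hy' (m := m - (n + 1)) (by omega) hm2
  · rw [← en, ← em, heq]
  · exfalso
    have hn2 : F^[n - (m + 1)] (F x) = x := by
      have : n = (n - (m + 1)) + (m + 1) := by omega
      rw [this, iterate_add_apply, pm] at en
      exact en
    exact Nat.find_min hx' (m := n - (m + 1)) (by omega) hn2

theorem core_surj {W : Type*} (F : W → W) {x : W} (hx : x ∈ Core F) :
    ∃ y ∈ Core F, F y = x := by
  obtain ⟨n, hn⟩ := hx (F x)
  refine ⟨F^[n] x, ?_, ?_⟩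
  · intro u
    obtain ⟨m, hm⟩ := hx u
    exact ⟨n + m, by rw [iterate_add_apply, hm]⟩
  · rw [← iterate_succ_apply' F n x, iterate_succ_apply F n x, hn]

theorem core_of_congr {W : Type*} {F G : W → W} {x : W} (h : ∀ y, y ≠ x → F y = G y)
    (hx : x ∈ Core F) : x ∈ Core G := by
  classical
  intro u
  have hu := hx u
  set n := Nat.find hu with hn
  have en : F^[n] u = x := Nat.find_spec hu
  have key : ∀ m, m ≤ n → G^[m] u = F^[m] u := by
    intro m
    induction m with
    | zero => intro _; rfl
    | succ m ih =>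
      intro hm
      rw [iterate_succ_apply', iterate_succ_apply', ih (by omega)]
      refine (h _ ?_).symm
      exact Nat.find_min hu (by omega)
  exact ⟨n, by rw [key n le_rfl, en]⟩

theorem core_congr {W : Type*} {F G : W → W} {x : W} (h : ∀ y, y ≠ x → F y = G y) :
    x ∈ Core F ↔ x ∈ Core G :=
  ⟨core_of_congr h, core_of_congr fun y hy => (h y hy).symm⟩

open scoped Classical in
theorem core_sum {W : Type*} [Fintype W] (F : W → W) (Ψ : W → ℝ) :
    ∑ x, (if x ∈ Core F then Ψ (F x) else 0) = ∑ x, (if x ∈ Core F then Ψ x else 0) := by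
  rw [← Finset.sum_filter, ← Finset.sum_filter]
  refine Finset.sum_bij (fun x _ => F x) ?_ ?_ ?_ ?_
  · intro x hx
    simp only [Finset.mem_filter, Finset.mem_univ, true_and] at hx ⊢
    exact core_image F hx
  · intro x hx y hy hxy
    simp only [Finset.mem_filter, Finset.mem_univ, true_and] at hx hy
    exact core_inj F hx hy hxy
  · intro y hy
    simp only [Finset.mem_filter, Finset.mem_univ, true_and] at hy
    obtain ⟨x, hx, rfl⟩ := core_surj F hy
    exact ⟨x, by simpa using hx, rfl⟩
  · intro x _
    rfl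

variable {V D : Type*} [DecidableEq V]

/-- The functional graph of a configuration in a finite set of vertices; `none` stands for the
outside, which is sent to `v`. -/
def Fm (nb : V → D → V) (Λ : Finset V) (v : Λ) (T : V → D) : Option Λ → Option Λ
  | none => some v
  | some x => if h : nb x (T x) ∈ Λ then some ⟨nb x (T x), h⟩ else none

open scoped Classical in
/-- Indicator that, in the configuration `T` with the rotor at `x` erased, everything in `Λ` leads
to `x` or out of `Λ`, and `v` leads to `x`. -/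
noncomputable def wt (nb : V → D → V) (Λ : Finset V) (v : Λ) (T : V → D) (x : V) : ℝ :=
  if ∃ h : x ∈ Λ, (some ⟨x, h⟩ : Option Λ) ∈ Core (Fm nb Λ v T) then 1 else 0

open scoped Classical in
/-- Indicator that `T` has no cycle in `Λ`. -/
noncomputable def ac (nb : V → D → V) (Λ : Finset V) (v : Λ) (T : V → D) : ℝ :=
  if (none : Option Λ) ∈ Core (Fm nb Λ v T) then 1 else 0

theorem wt_nonneg (nb : V → D → V) (Λ : Finset V) (v : Λ) (T : V → D) (x : V) :
    0 ≤ wt nb Λ v T x := by
  unfold wt; split_ifs <;> norm_num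

theorem wt_le_one (nb : V → D → V) (Λ : Finset V) (v : Λ) (T : V → D) (x : V) :
    wt nb Λ v T x ≤ 1 := by
  unfold wt; split_ifs <;> norm_num

theorem ac_nonneg (nb : V → D → V) (Λ : Finset V) (v : Λ) (T : V → D) :
    0 ≤ ac nb Λ v T := by
  unfold ac; split_ifs <;> norm_num

theorem ac_le_one (nb : V → D → V) (Λ : Finset V) (v : Λ) (T : V → D) :
    ac nb Λ v T ≤ 1 := by
  unfold ac; split_ifs <;> norm_num

/-- Flow identity. -/
theorem flow (nb : V → D → V) (Λ : Finset V) (v : Λ) (T : V → D) (Ψ : V → ℝ) (c : ℝ)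
    (hΨ : ∀ y, y ∉ Λ → Ψ y = c) :
    ∑ x ∈ Λ, wt nb Λ v T x * Ψ (nb x (T x)) + ac nb Λ v T * Ψ v
      = ∑ x ∈ Λ, wt nb Λ v T x * Ψ x + ac nb Λ v T * c := by
  classical
  have h := core_sum (Fm nb Λ v T) (fun o => match o with
    | none => c
    | some x => Ψ x)
  rw [Fintype.sum_option, Fintype.sum_option] at h
  have e1 : ∑ x ∈ Λ, wt nb Λ v T x * Ψ (nb x (T x))
      = ∑ i : Λ, (if (some i : Option Λ) ∈ Core (Fm nb Λ v T) then
          (match Fm nb Λ v T (some i) with
            | none => c
            | some x => Ψ x) else 0) := by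
    rw [← Finset.sum_coe_sort]
    refine Finset.sum_congr rfl fun x _ => ?_
    have hw : wt nb Λ v T x = if (some x : Option Λ) ∈ Core (Fm nb Λ v T) then 1 else 0 := by
      unfold wt
      by_cases hx : (some x : Option Λ) ∈ Core (Fm nb Λ v T)
      · rw [if_pos hx, if_pos ⟨x.2, hx⟩]
      · rw [if_neg hx, if_neg]
        rintro ⟨_, h'⟩
        exact hx h'
    rw [hw]
    by_cases hx : (some x : Option Λ) ∈ Core (Fm nb Λ v T)
    · rw [if_pos hx, if_pos hx, one_mul]
      by_cases hn : nb x (T x) ∈ Λ
      · simp only [Fm, dif_pos hn]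
      · simp only [Fm, dif_neg hn]
        exact hΨ _ hn
    · rw [if_neg hx, if_neg hx, zero_mul]
  have e2 : ∑ x ∈ Λ, wt nb Λ v T x * Ψ x
      = ∑ i : Λ, (if (some i : Option Λ) ∈ Core (Fm nb Λ v T) then Ψ i else 0) := by
    rw [← Finset.sum_coe_sort]
    refine Finset.sum_congr rfl fun x _ => ?_
    unfold wt
    by_cases hx : (some x : Option Λ) ∈ Core (Fm nb Λ v T)
    · rw [if_pos hx, if_pos ⟨x.2, hx⟩, one_mul]
    · rw [if_neg hx, if_neg, zero_mul]
      rintro ⟨_, h'⟩
      exact hx h'
  rw [e1, e2]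
  unfold ac
  have e3 : Fm nb Λ v T none = some v := rfl
  rw [e3] at h
  simp only at h
  by_cases hc : (none : Option Λ) ∈ Core (Fm nb Λ v T)
  · rw [if_pos hc, if_pos hc] at h
    rw [if_pos hc]
    linarith
  · rw [if_neg hc, if_neg hc] at h
    rw [if_neg hc]
    linarith

theorem wt_update (nb : V → D → V) (Λ : Finset V) (v : Λ) (T : V → D) (x : V) (δ : D) :
    wt nb Λ v (update T x δ) x = wt nb Λ v T x := by
  classical
  unfold wt
  have : (∃ h : x ∈ Λ, (some ⟨x, h⟩ : Option Λ) ∈ Core (Fm nb Λ v (update T x δ))) ↔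
      (∃ h : x ∈ Λ, (some ⟨x, h⟩ : Option Λ) ∈ Core (Fm nb Λ v T)) := by
    refine exists_congr fun h => core_congr ?_
    intro y hy
    cases y with
    | none => rfl
    | some y =>
      have hyx : (y : V) ≠ x := by
        intro e
        apply hy
        congr 1
        exact Subtype.ext e
      simp only [Fm, update_of_ne hyx]
  simp only [this]

theorem wt_of_notMem (nb : V → D → V) (Λ : Finset V) (v : Λ) (T : V → D) {x : V} (hx : x ∉ Λ) :
    wt nb Λ v T x = 0 := by
  unfold wt
  rw [if_neg]
  rintro ⟨h, _⟩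
  exact hx h

/-- Acyclicity does not depend on the base vertex. -/
theorem ac_base (nb : V → D → V) (Λ : Finset V) (v w : Λ) (T : V → D) :
    ac nb Λ v T = ac nb Λ w T := by
  unfold ac
  have : (none : Option Λ) ∈ Core (Fm nb Λ v T) ↔ (none : Option Λ) ∈ Core (Fm nb Λ w T) := by
    refine core_congr ?_
    intro y hy
    cases y with
    | none => exact absurd rfl hy
    | some y => rfl
  by_cases h : (none : Option Λ) ∈ Core (Fm nb Λ v T)
  · rw [if_pos h, if_pos (this.1 h)]
  · rw [if_neg h, if_neg (fun h' => h (this.2 h'))]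

end Pool.Agent.MP_c09afc_pr
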