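import Pool.Agent.MP_c09afc_pr.Rec

set_option linter.unusedSectionVars false

namespace Pool.Agent.MP_c09afc_pr

open Function Finset

variable {V D : Type*} [DecidableEq V] [Fintype D]

/-- Average over neighbours. -/
noncomputable def avg (nb : V → D → V) (f : V → ℝ) (x : V) : ℝ :=
  (∑ δ, f (nb x δ)) / Fintype.card D

/-- Number of states located at `y`. -/
noncomputable def cnt (nb : V → D → V) (Λ : Finset V) (W : Finset (V → D)) (v : Λ) (y : V) : ℝ :=
  ∑ T ∈ W, wt nb Λ v T y

/-- Number of acyclic configurations. -/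
noncomputable def tot (nb : V → D → V) (Λ : Finset V) (W : Finset (V → D)) (v : Λ) : ℝ :=
  ∑ T ∈ W, ac nb Λ v T

theorem tot_base (nb : V → D → V) (Λ : Finset V) (W : Finset (V → D)) (v w : Λ) :
    tot nb Λ W v = tot nb Λ W w := by
  unfold tot
  exact Finset.sum_congr rfl fun T _ => ac_base nb Λ v w T

theorem tot_nonneg (nb : V → D → V) (Λ : Finset V) (W : Finset (V → D)) (v : Λ) :
    0 ≤ tot nb Λ W v := Finset.sum_nonneg fun T _ => ac_nonneg nb Λ v T

theorem cnt_nonneg (nb : V → D → V) (Λ : Finset V) (W : Finset (V → D)) (v : Λ) (y : V) :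
    0 ≤ cnt nb Λ W v y := Finset.sum_nonneg fun T _ => wt_nonneg nb Λ v T y

theorem cnt_of_notMem (nb : V → D → V) (Λ : Finset V) (W : Finset (V → D)) (v : Λ) {y : V}
    (hy : y ∉ Λ) : cnt nb Λ W v y = 0 :=
  Finset.sum_eq_zero fun T _ => wt_of_notMem nb Λ v T hy

theorem card_ne [Nonempty D] : (Fintype.card D : ℝ) ≠ 0 := by
  exact_mod_cast Fintype.card_ne_zero

theorem card_pos' [Nonempty D] : (0 : ℝ) < Fintype.card D := by
  exact_mod_cast Fintype.card_pos

theorem avg_congr {nb : V → D → V} {f g : V → ℝ} {x : V} (h : ∀ δ, f (nb x δ) = g (nb x δ)) :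
    avg nb f x = avg nb g x := by
  unfold avg
  rw [Finset.sum_congr rfl fun δ _ => h δ]

theorem avg_mono {nb : V → D → V} {f g : V → ℝ} {x : V} (h : ∀ δ, f (nb x δ) ≤ g (nb x δ)) :
    avg nb f x ≤ avg nb g x := by
  unfold avg
  exact div_le_div_of_nonneg_right (Finset.sum_le_sum fun δ _ => h δ) (Nat.cast_nonneg _)

theorem avg_const [Nonempty D] {nb : V → D → V} (c : ℝ) (x : V) :
    avg nb (fun _ => c) x = c := by
  unfold avg
  rw [Finset.sum_const, Finset.card_univ, nsmul_eq_mul]
  have := card_ne (D := D)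
  field_simp

theorem avg_smul {nb : V → D → V} (c : ℝ) (f : V → ℝ) (x : V) :
    avg nb (fun y => c * f y) x = c * avg nb f x := by
  unfold avg
  rw [← Finset.mul_sum, mul_div_assoc]

theorem avg_sub {nb : V → D → V} (f g : V → ℝ) (x : V) :
    avg nb (fun y => f y - g y) x = avg nb f x - avg nb g x := by
  unfold avg
  rw [Finset.sum_sub_distrib, sub_div]

theorem avg_sum {nb : V → D → V} {ι : Type*} (s : Finset ι) (f : ι → V → ℝ) (x : V) :
    avg nb (fun y => ∑ i ∈ s, f i y) x = ∑ i ∈ s, avg nb (f i) x := by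
  unfold avg
  rw [Finset.sum_comm, Finset.sum_div]

/-- Balance equation for the number of states. -/
theorem cnt_balance [Nonempty D] (nb : V → D → V) (opp : D → D)
    (hopp : ∀ x δ, nb (nb x δ) (opp δ) = x) (hopp2 : ∀ δ, opp (opp δ) = δ)
    (Λ : Finset V) (W : Finset (V → D))
    (hW : ∀ T ∈ W, ∀ x ∈ Λ, ∀ δ, update T x δ ∈ W) (v : Λ) {y : V} (hy : y ∈ Λ) :
    cnt nb Λ W v y = (if y = v then tot nb Λ W v else 0) + avg nb (cnt nb Λ W v) y := by
  classical
  have h1 : ∀ T ∈ W, wt nb Λ v T y = ∑ x ∈ Λ, wt nb Λ v T x * (if nb x (T x) = y then 1 else 0)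
      + ac nb Λ v T * (if y = v then 1 else 0) := by
    intro T _
    have := flow nb Λ v T (fun z => if z = y then 1 else 0) 0 (by
      intro z hz
      rw [if_neg]
      rintro rfl
      exact hz hy)
    simp only [mul_zero, add_zero] at this
    rw [Finset.sum_eq_single y (f := fun x => wt nb Λ v T x * (if x = y then 1 else 0))] at this
    · simp only [if_true, mul_one] at this
      rw [← this]
      congr 2
      by_cases h : (v : V) = y
      · rw [if_pos h, if_pos h.symm]
      · rw [if_neg h, if_neg (fun h' => h h'.symm)]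
    · intro x _ hx
      rw [if_neg hx, mul_zero]
    · intro h
      exact absurd hy h
  have h2 : cnt nb Λ W v y = ∑ x ∈ Λ, ∑ T ∈ W, wt nb Λ v T x * (if nb x (T x) = y then 1 else 0)
      + (if y = v then tot nb Λ W v else 0) := by
    unfold cnt
    rw [Finset.sum_congr rfl h1, Finset.sum_add_distrib, Finset.sum_comm, ← Finset.sum_mul]
    congr 1
    unfold tot
    split_ifs <;> simp
  have h3 : ∀ x ∈ Λ, ∑ T ∈ W, wt nb Λ v T x * (if nb x (T x) = y then 1 else 0)
      = (∑ δ, cnt nb Λ W v x * (if nb x δ = y then 1 else 0)) / Fintype.card D := by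
    intro x hx
    have := sum_resample W x (fun T hT δ => hW T hT x hx δ)
      (fun T => wt nb Λ v T x * (if nb x (T x) = y then 1 else 0))
    rw [eq_div_iff card_ne]
    simp only [wt_update, update_self] at this
    rw [Finset.sum_mul]
    have e : ∀ T ∈ W, wt nb Λ v T x * (if nb x (T x) = y then 1 else 0) * Fintype.card D
        = ∑ _δ : D, wt nb Λ v T x * (if nb x (T x) = y then 1 else 0) := by
      intro T _
      rw [Finset.sum_const, Finset.card_univ, nsmul_eq_mul, mul_comm]
    rw [Finset.sum_congr rfl e, ← this, Finset.sum_comm]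
    refine Finset.sum_congr rfl fun δ _ => ?_
    unfold cnt
    rw [Finset.sum_mul]
  have h4 : ∑ x ∈ Λ, ∑ T ∈ W, wt nb Λ v T x * (if nb x (T x) = y then 1 else 0)
      = avg nb (cnt nb Λ W v) y := by
    rw [Finset.sum_congr rfl h3, ← Finset.sum_div, Finset.sum_comm]
    unfold avg
    congr 1
    have h5 : ∀ δ : D, ∑ x ∈ Λ, cnt nb Λ W v x * (if nb x δ = y then 1 else 0)
        = cnt nb Λ W v (nb y (opp δ)) := by
      intro δ
      by_cases hz : nb y (opp δ) ∈ Λ
      · rw [Finset.sum_eq_single (nb y (opp δ))]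
        · rw [if_pos, mul_one]
          have := hopp y (opp δ)
          rwa [hopp2] at this
        · intro x _ hx
          rw [if_neg, mul_zero]
          intro h
          apply hx
          rw [← h, hopp]
        · intro h
          exact absurd hz h
      · rw [cnt_of_notMem nb Λ W v hz]
        refine Finset.sum_eq_zero fun x hx => ?_
        rw [if_neg, mul_zero]
        intro h
        apply hz
        rw [← h, hopp]
        exact hx
    rw [Finset.sum_congr rfl fun δ _ => h5 δ]
    exact Finset.sum_bij' (fun δ _ => opp δ) (fun δ _ => opp δ) (by simp) (by simp)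
      (by simp [hopp2]) (by simp [hopp2]) (by simp)
  rw [h2, h4, add_comm]

/-- Maximum principle. -/
theorem le_potential [Nonempty D] (nb : V → D → V) (Λ : Finset V) (v : V) (hv : v ∈ Λ)
    (n w : V → ℝ) (A κ : ℝ) (hA : 0 ≤ A) (hκ : 0 < κ)
    (hn0 : ∀ y, y ∉ Λ → n y = 0)
    (hn : ∀ y ∈ Λ, n y = (if y = v then A else 0) + avg nb n y)
    (hw0 : ∀ y, 0 ≤ w y) (hw1 : ∀ y, avg nb w y < w y) (hw2 : κ ≤ w v - avg nb w v) :
    ∀ y, n y ≤ A / κ * w y := by
  classical
  have key : ∀ ε > 0, ∀ y, n y ≤ (A / κ + ε) * w y := by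
    intro ε hε
    set B := A / κ + ε with hB
    have hB0 : 0 < B := by positivity
    by_contra hcon
    push Not at hcon
    obtain ⟨y0, hy0⟩ := hcon
    have hy0Λ : y0 ∈ Λ := by
      by_contra h
      rw [hn0 y0 h] at hy0
      have := mul_nonneg hB0.le (hw0 y0)
      linarith
    obtain ⟨z, hz, hmax⟩ := Finset.exists_max_image Λ (fun y => n y - B * w y) ⟨v, hv⟩
    have hzpos : 0 < n z - B * w z := by
      have := hmax y0 hy0Λ
      linarith
    have hle : avg nb (fun y => n y - B * w y) z ≤ n z - B * w z := by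
      rw [← avg_const (nb := nb) (n z - B * w z) z]
      refine avg_mono fun δ => ?_
      by_cases h : nb z δ ∈ Λ
      · exact hmax _ h
      · rw [hn0 _ h]
        have := mul_nonneg hB0.le (hw0 (nb z δ))
        linarith
    rw [avg_sub, avg_smul] at hle
    have h1 := hn z hz
    have h2 : (if z = v then A else 0) < B * (w z - avg nb w z) := by
      by_cases h : z = v
      · rw [if_pos h, h]
        calc A = A / κ * κ := by field_simp
          _ < B * κ := by
              apply mul_lt_mul_of_pos_right _ hκ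
              rw [hB]; linarith
          _ ≤ B * (w v - avg nb w v) := mul_le_mul_of_nonneg_left hw2 hB0.le
      · rw [if_neg h]
        have := hw1 z
        have : 0 < w z - avg nb w z := by linarith
        positivity
    rw [h1] at hle
    nlinarith
  intro y
  have hlim : Filter.Tendsto (fun ε : ℝ => (A / κ + ε) * w y) (nhdsWithin 0 (Set.Ioi 0))
      (nhds ((A / κ + 0) * w y)) := by
    apply Filter.Tendsto.mul_const
    apply Filter.Tendsto.const_add
    exact nhdsWithin_le_nhds
  rw [add_zero] at hlim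
  refine ge_of_tendsto hlim ?_
  filter_upwards [self_mem_nhdsWithin] with ε hε
  exact key ε hε y

/-- Boundary edges. -/
def bdry [DecidableEq D] (nb : V → D → V) (Λ : Finset V) : Finset (V × D) :=
  (Λ ×ˢ (Finset.univ : Finset D)).filter fun e => nb e.1 e.2 ∉ Λ

/-- Flux identity. -/
theorem flux [Nonempty D] [DecidableEq D] (nb : V → D → V) (opp : D → D)
    (hopp : ∀ x δ, nb (nb x δ) (opp δ) = x) (hopp2 : ∀ δ, opp (opp δ) = δ)
    (Λ : Finset V) (f : V → ℝ) (hf : ∀ y, y ∉ Λ → f y = 0) :
    ∑ e ∈ bdry nb Λ, f e.1 = Fintype.card D * ∑ x ∈ Λ, (f x - avg nb f x) := by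
  classical
  have h1 : (Fintype.card D : ℝ) * ∑ x ∈ Λ, (f x - avg nb f x)
      = ∑ e ∈ Λ ×ˢ (Finset.univ : Finset D), (f e.1 - f (nb e.1 e.2)) := by
    rw [Finset.sum_product, Finset.mul_sum]
    refine Finset.sum_congr rfl fun x _ => ?_
    rw [Finset.sum_sub_distrib]
    have e1 : ∑ δ : D, f (x, δ).1 = Fintype.card D * f x := by
      simp only [Finset.sum_const, Finset.card_univ, nsmul_eq_mul]
    have e2 : ∑ δ : D, f (nb (x, δ).1 (x, δ).2) = Fintype.card D * avg nb f x := by
      unfold avg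
      rw [mul_div_cancel₀ _ card_ne]
    rw [e1, e2, mul_sub]
  have h2 : ∑ e ∈ Λ ×ˢ (Finset.univ : Finset D), f (nb e.1 e.2)
      = ∑ e ∈ (Λ ×ˢ (Finset.univ : Finset D)).filter (fun e => nb e.1 e.2 ∈ Λ), f e.1 := by
    rw [← Finset.sum_filter_add_sum_filter_not (Λ ×ˢ (Finset.univ : Finset D))
      (fun e => nb e.1 e.2 ∈ Λ) (fun e => f (nb e.1 e.2))]
    have hz : ∑ e ∈ (Λ ×ˢ (Finset.univ : Finset D)).filter (fun e => ¬ nb e.1 e.2 ∈ Λ),
        f (nb e.1 e.2) = 0 := by
      refine Finset.sum_eq_zero fun e he => ?_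
      rw [Finset.mem_filter] at he
      exact hf _ he.2
    rw [hz, add_zero]
    refine Finset.sum_bij' (fun e _ => (nb e.1 e.2, opp e.2)) (fun e _ => (nb e.1 e.2, opp e.2))
      ?_ ?_ ?_ ?_ ?_
    · intro e he
      simp only [Finset.mem_filter, Finset.mem_product, Finset.mem_univ, and_true] at he ⊢
      exact ⟨he.2, by rw [hopp]; exact he.1⟩
    · intro e he
      simp only [Finset.mem_filter, Finset.mem_product, Finset.mem_univ, and_true] at he ⊢
      exact ⟨he.2, by rw [hopp]; exact he.1⟩
    · intro e _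
      simp only [hopp, hopp2]
    · intro e _
      simp only [hopp, hopp2]
    · intro e _
      rfl
  rw [h1, Finset.sum_sub_distrib, h2]
  have h3 := Finset.sum_filter_add_sum_filter_not (Λ ×ˢ (Finset.univ : Finset D))
    (fun e => nb e.1 e.2 ∈ Λ) (fun e => f e.1)
  unfold bdry
  linarith

end Pool.Agent.MP_c09afc_pr
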