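import Pool.Agent.MP_c09afc_pr.Lattice

set_option linter.unusedSectionVars false
set_option linter.unusedSimpArgs false
set_option linter.unusedVariables false

namespace Pool.Agent.MP_c09afc_pr

open Function Finset

/-- Sup norm. -/
def nrm {d : ℕ} (x : Fin d → ℤ) : ℕ := Finset.univ.sup fun i => (x i).natAbs

theorem nrm_le_iff {d : ℕ} {x : Fin d → ℤ} {n : ℕ} : nrm x ≤ n ↔ ∀ i, (x i).natAbs ≤ n := by
  unfold nrm
  rw [Finset.sup_le_iff]
  simp

theorem natAbs_le_nrm {d : ℕ} (x : Fin d → ℤ) (i : Fin d) : (x i).natAbs ≤ nrm x :=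
  nrm_le_iff.1 le_rfl i

theorem nrm_add_le {d : ℕ} (x y : Fin d → ℤ) : nrm (x + y) ≤ nrm x + nrm y := by
  rw [nrm_le_iff]
  intro i
  have h1 := natAbs_le_nrm x i
  have h2 := natAbs_le_nrm y i
  have : ((x + y) i).natAbs ≤ (x i).natAbs + (y i).natAbs := Int.natAbs_add_le _ _
  omega

theorem nrm_neg {d : ℕ} (x : Fin d → ℤ) : nrm (-x) = nrm x := by
  unfold nrm
  congr 1
  funext i
  simp

theorem nrm_sub_comm {d : ℕ} (x y : Fin d → ℤ) : nrm (x - y) = nrm (y - x) := by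
  rw [← nrm_neg (x - y), neg_sub]

theorem nbr_sub {d : ℕ} (x v : Fin d → ℤ) (δ : Dir d) : nbr x δ - v = nbr (x - v) δ := by
  unfold nbr
  funext i
  by_cases h : i = δ.1
  · subst h
    simp only [Pi.sub_apply, update_self]
    ring
  · simp only [Pi.sub_apply, update_of_ne h]

theorem nrm_nbr_le {d : ℕ} (x : Fin d → ℤ) (δ : Dir d) : nrm (nbr x δ) ≤ nrm x + 1 := by
  rw [nrm_le_iff]
  intro i
  unfold nbr
  by_cases h : i = δ.1
  · subst h
    rw [update_self]
    have := natAbs_le_nrm x δ.1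
    split_ifs <;> omega
  · rw [update_of_ne h]
    have := natAbs_le_nrm x i
    omega

theorem nrm_le_nbr {d : ℕ} (x : Fin d → ℤ) (δ : Dir d) : nrm x ≤ nrm (nbr x δ) + 1 := by
  have := nrm_nbr_le (nbr x δ) (opp δ)
  rwa [nbr_opp] at this

theorem nrm_sq_le {d : ℕ} (x : Fin d → ℤ) : (nrm x : ℤ) ^ 2 ≤ sq x := by
  rcases Nat.eq_zero_or_pos (nrm x) with h | h
  · rw [h]; simpa using sq_nonneg' x
  · obtain ⟨i, _, hi⟩ := Finset.exists_mem_eq_sup' (s := Finset.univ) (f := fun i => (x i).natAbs) (by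
      by_contra hne
      rw [Finset.not_nonempty_iff_eq_empty] at hne
      unfold nrm at h
      rw [hne] at h
      simp at h)
    have e : nrm x = (x i).natAbs := by
      unfold nrm
      rw [← hi, Finset.sup'_eq_sup]
    rw [e, Int.natCast_natAbs, sq_abs]
    exact sq_le_of_coord x i

theorem pot_le {d : ℕ} (x : Fin d → ℤ) : pot x ≤ 2 / √((nrm x : ℝ) + 1) := by
  unfold pot
  have h0 : (0 : ℝ) ≤ sq x := by exact_mod_cast sq_nonneg' x
  have h1 : ((nrm x : ℝ)) ^ 2 ≤ sq x := by exact_mod_cast nrm_sq_le x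
  have hn : (0 : ℝ) ≤ nrm x := Nat.cast_nonneg _
  have ha : 0 < √√((sq x : ℝ) + 99) := by positivity
  have hb : 0 < √((nrm x : ℝ) + 1) := by positivity
  rw [inv_le_comm₀ ha (by positivity), inv_div]
  refine le_of_pow_le_pow_left₀ (n := 4) (by norm_num) ha.le ?_
  rw [root4_pow (by positivity), div_pow]
  have e : √((nrm x : ℝ) + 1) ^ 4 = ((nrm x : ℝ) + 1) ^ 2 := by
    calc √((nrm x : ℝ) + 1) ^ 4 = (√((nrm x : ℝ) + 1) ^ 2) ^ 2 := by ring
      _ = _ := by rw [Real.sq_sqrt (by positivity)]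
  rw [e]
  nlinarith [sq_nonneg ((nrm x : ℝ) - 1)]

theorem inv_sqrt_le (k : ℕ) : 1 / √((k : ℝ) + 1) ≤ 2 * (√((k : ℝ) + 1) - √(k : ℝ)) := by
  have hk : (0 : ℝ) ≤ k := Nat.cast_nonneg k
  have ha : 0 < √((k : ℝ) + 1) := by positivity
  have hb : 0 ≤ √(k : ℝ) := Real.sqrt_nonneg _
  have ea : √((k : ℝ) + 1) ^ 2 = (k : ℝ) + 1 := Real.sq_sqrt (by positivity)
  have eb : √(k : ℝ) ^ 2 = k := Real.sq_sqrt hk
  rw [div_le_iff₀ ha]
  nlinarith [sq_nonneg (√((k : ℝ) + 1) - √(k : ℝ))]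

theorem sum_inv_sqrt_le (n : ℕ) :
    ∑ k ∈ Finset.range n, 1 / √((k : ℝ) + 1) ≤ 2 * √(n : ℝ) := by
  induction n with
  | zero => simp
  | succ n ih =>
    rw [Finset.sum_range_succ]
    have := inv_sqrt_le n
    push_cast
    linarith

theorem sum_dist_le (r j : ℕ) (g : ℕ → ℝ) (hg : Antitone g) (hg0 : ∀ k, 0 ≤ g k) :
    ∑ i ∈ Finset.range (r + 1), g ((j : ℤ) - i).natAbs ≤ 2 * ∑ k ∈ Finset.range (r + 1), g k := by
  set m := min j r with hm
  have hsplit : Finset.range (r + 1) = Finset.range (m + 1) ∪ Finset.Ico (m + 1) (r + 1) := by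
    ext i
    simp only [Finset.mem_range, Finset.mem_union, Finset.mem_Ico]
    omega
  have hdisj : Disjoint (Finset.range (m + 1)) (Finset.Ico (m + 1) (r + 1)) := by
    rw [Finset.disjoint_left]
    intro i hi hi'
    simp only [Finset.mem_range, Finset.mem_Ico] at hi hi'
    omega
  have h1 : ∑ i ∈ Finset.range (m + 1), g ((j : ℤ) - i).natAbs
      ≤ ∑ k ∈ Finset.range (r + 1), g k := by
    calc ∑ i ∈ Finset.range (m + 1), g ((j : ℤ) - i).natAbs
        ≤ ∑ i ∈ Finset.range (m + 1), g (m + 1 - 1 - i) := by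
          refine Finset.sum_le_sum fun i hi => hg ?_
          rw [Finset.mem_range] at hi
          omega
      _ = ∑ k ∈ Finset.range (m + 1), g k := Finset.sum_range_reflect g (m + 1)
      _ ≤ ∑ k ∈ Finset.range (r + 1), g k := by
          refine Finset.sum_le_sum_of_subset_of_nonneg ?_ fun k _ _ => hg0 k
          intro k hk
          simp only [Finset.mem_range] at hk ⊢
          omega
  have h2 : ∑ i ∈ Finset.Ico (m + 1) (r + 1), g ((j : ℤ) - i).natAbs
      ≤ ∑ k ∈ Finset.range (r + 1), g k := by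
    calc ∑ i ∈ Finset.Ico (m + 1) (r + 1), g ((j : ℤ) - i).natAbs
        ≤ ∑ i ∈ Finset.Ico (m + 1) (r + 1), g (i - (m + 1)) := by
          refine Finset.sum_le_sum fun i hi => hg ?_
          rw [Finset.mem_Ico] at hi
          omega
      _ = ∑ k ∈ Finset.range (r + 1 - (m + 1)), g k := by
          rw [Finset.sum_Ico_eq_sum_range]
          refine Finset.sum_congr rfl fun k _ => ?_
          congr 1
          omega
      _ ≤ ∑ k ∈ Finset.range (r + 1), g k := by
          refine Finset.sum_le_sum_of_subset_of_nonneg ?_ fun k _ _ => hg0 k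
          intro k hk
          simp only [Finset.mem_range] at hk ⊢
          omega
  rw [hsplit, Finset.sum_union hdisj, ← hsplit]
  linarith

/-- Potential of a set with one point on each sphere around `o`. -/
theorem sum_pot_le {d : ℕ} (o x : Fin d → ℤ) (r : ℕ) (y : ℕ → Fin d → ℤ)
    (hy : ∀ i ≤ r, nrm (y i - o) = i) :
    ∑ i ∈ Finset.range (r + 1), pot (x - y i) ≤ 8 * √((r : ℝ) + 1) := by
  have hanti : Antitone (fun k : ℕ => 2 / √((k : ℝ) + 1)) := by
    intro a b hab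
    apply div_le_div_of_nonneg_left (by norm_num) (by positivity)
    apply Real.sqrt_le_sqrt
    have : (a : ℝ) ≤ b := by exact_mod_cast hab
    linarith
  calc ∑ i ∈ Finset.range (r + 1), pot (x - y i)
      ≤ ∑ i ∈ Finset.range (r + 1), (fun k : ℕ => 2 / √((k : ℝ) + 1))
          ((nrm (x - o) : ℤ) - i).natAbs := by
        refine Finset.sum_le_sum fun i hi => ?_
        rw [Finset.mem_range] at hi
        refine (pot_le _).trans (hanti ?_)
        have h1 := hy i (by omega)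
        have h2 : nrm (x - o) ≤ nrm (x - y i) + nrm (y i - o) := by
          have := nrm_add_le (x - y i) (y i - o)
          rwa [sub_add_sub_cancel] at this
        have h3 : nrm (y i - o) ≤ nrm (x - y i) + nrm (x - o) := by
          have := nrm_add_le (y i - x) (x - o)
          rw [sub_add_sub_cancel, nrm_sub_comm (y i) x] at this
          exact this
        omega
    _ ≤ 2 * ∑ k ∈ Finset.range (r + 1), (fun k : ℕ => 2 / √((k : ℝ) + 1)) k :=
        sum_dist_le r _ _ hanti fun k => by positivity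
    _ = 4 * ∑ k ∈ Finset.range (r + 1), 1 / √((k : ℝ) + 1) := by
        simp only
        rw [Finset.mul_sum, Finset.mul_sum]
        refine Finset.sum_congr rfl fun k _ => ?_
        ring
    _ ≤ 4 * (2 * √((r + 1 : ℕ) : ℝ)) :=
        mul_le_mul_of_nonneg_left (sum_inv_sqrt_le (r + 1)) (by norm_num)
    _ = 8 * √((r : ℝ) + 1) := by push_cast; ring

/-- The constant `κ`. -/
noncomputable def kap (d : ℕ) : ℝ := pot (0 : Fin d → ℤ) - avg nbr pot (0 : Fin d → ℤ)

theorem kap_pos {d : ℕ} (hd : 3 ≤ d) : 0 < kap d := sub_pos.2 (avg_pot_lt hd 0)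

theorem avg_pot_sub {d : ℕ} (v y : Fin d → ℤ) :
    avg nbr (fun y => pot (y - v)) y = avg nbr pot (y - v) := by
  unfold avg
  simp_rw [nbr_sub]

instance dir_nonempty {d : ℕ} [NeZero d] : Nonempty (Dir d) := ⟨(0, true)⟩

theorem cnt_le {d : ℕ} [NeZero d] (hd : 3 ≤ d) (Λ : Finset (Fin d → ℤ))
    (W : Finset ((Fin d → ℤ) → Dir d))
    (hW : ∀ T ∈ W, ∀ x ∈ Λ, ∀ δ, update T x δ ∈ W) (v : Λ) (y : Fin d → ℤ) :
    cnt nbr Λ W v y ≤ tot nbr Λ W v / kap d * pot (y - (v : Fin d → ℤ)) := by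
  refine le_potential nbr Λ v v.2 (cnt nbr Λ W v) (fun y => pot (y - (v : Fin d → ℤ)))
    (tot nbr Λ W v) (kap d)
    (tot_nonneg _ _ _ _) (kap_pos hd) (fun y hy => cnt_of_notMem _ _ _ _ hy) ?_
    (fun y => (pot_pos _).le) ?_ ?_ y
  · intro y hy
    exact cnt_balance nbr opp nbr_opp opp_opp Λ W hW v hy
  · intro y
    rw [avg_pot_sub]
    exact avg_pot_lt hd _
  · rw [avg_pot_sub, sub_self]
    exact le_rfl

section

variable {d : ℕ} {Λ : Finset (Fin d → ℤ)} {T : (Fin d → ℤ) → Dir d} {o u : Fin d → ℤ}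
  {K : Finset (Fin d → ℤ)}

/-- Sub-paths: the path passes through a vertex at each intermediate distance. -/
theorem PathSet.inter (h : PathSet nbr Λ T o u K) : ∀ r ≤ nrm (u - o),
    ∃ y ∈ K, nrm (y - o) = r ∧ ∃ K' ⊆ K, PathSet nbr Λ T o y K' := by
  induction h with
  | nil =>
    intro r hr
    rw [sub_self] at hr
    have h0 : nrm (0 : Fin d → ℤ) = 0 := by
      have := (nrm_le_iff (x := (0 : Fin d → ℤ)) (n := 0)).2 (by simp)
      omega
    refine ⟨o, by simp, ?_, {o}, le_rfl, PathSet.nil⟩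
    rw [sub_self]; omega
  | @cons u K hu huo h ih =>
    intro r hr
    by_cases hr' : r = nrm (u - o)
    · exact ⟨u, Finset.mem_insert_self _ _, hr'.symm, insert u K, le_rfl, PathSet.cons hu huo h⟩
    · have h1 : r ≤ nrm (nbr u (T u) - o) := by
        have := nrm_le_nbr (u - o) (T u)
        rw [← nbr_sub] at this
        omega
      obtain ⟨y, hy, hyr, K', hK', hp⟩ := ih r h1
      exact ⟨y, Finset.mem_insert_of_mem hy, hyr, K',
        hK'.trans (Finset.subset_insert _ _), hp⟩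

theorem theta_bound [NeZero d] (hd : 3 ≤ d) (W : Finset ((Fin d → ℤ) → Dir d))
    (hW : ∀ T ∈ W, ∀ x ∈ Λ, ∀ δ, update T x δ ∈ W) (v : Λ) (hpos : 0 < tot nbr Λ W v)
    (ho : o ∈ Λ) (r : ℕ) (hr : r ≤ nrm (u - o)) (h : PathSet nbr Λ T o u K) (n : ℕ) :
    ex nbr Λ K n ≤ 1 - (2 * d * (kap d / 8) * √((r : ℝ) + 1)) / (bdry nbr Λ).card := by
  classical
  have hy : ∀ i, ∃ y : Fin d → ℤ, i ≤ r → (y ∈ K ∧ nrm (y - o) = i) := by
    intro i
    by_cases hi : i ≤ r
    · obtain ⟨y, hy, hyr, _⟩ := h.inter i (hi.trans hr)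
      exact ⟨y, fun _ => ⟨hy, hyr⟩⟩
    · exact ⟨0, fun h => absurd h hi⟩
  choose y hy using hy
  have hKΛ := h.subset ho
  have hyΛ : ∀ i ≤ r, y i ∈ Λ := fun i hi => hKΛ (hy i hi).1
  set H : ℝ := 8 * √((r : ℝ) + 1) / kap d with hH
  have hκ := kap_pos hd
  have hHpos : 0 < H := by positivity
  -- the comparison function
  set f : (Fin d → ℤ) → ℝ := fun x =>
    (∑ i ∈ (Finset.range (r + 1)).attach, cnt nbr Λ W ⟨y i, hyΛ i (by
      have := Finset.mem_range.1 i.2; omega)⟩ x) * (H * tot nbr Λ W v)⁻¹ with hf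
  have hden : 0 < H * tot nbr Λ W v := by positivity
  have hf1 : ∀ x, f x ≤ 1 := by
    intro x
    have h1 : ∑ i ∈ (Finset.range (r + 1)).attach, cnt nbr Λ W ⟨y i, hyΛ i (by
        have := Finset.mem_range.1 i.2; omega)⟩ x
        ≤ ∑ i ∈ (Finset.range (r + 1)).attach, tot nbr Λ W v / kap d * pot (x - y i) := by
      refine Finset.sum_le_sum fun i _ => ?_
      have := cnt_le hd Λ W hW ⟨y i, hyΛ i (by
        have := Finset.mem_range.1 i.2; omega)⟩ x
      rwa [tot_base nbr Λ W _ v] at this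
    rw [Finset.sum_attach (Finset.range (r + 1)) (fun i => tot nbr Λ W v / kap d * pot (x - y i)),
      ← Finset.mul_sum] at h1
    have h2 := sum_pot_le o x r y (fun i hi => (hy i hi).2)
    have h3 : tot nbr Λ W v / kap d * ∑ i ∈ Finset.range (r + 1), pot (x - y i)
        ≤ tot nbr Λ W v / kap d * (8 * √((r : ℝ) + 1)) :=
      mul_le_mul_of_nonneg_left h2 (by positivity)
    have h4 : tot nbr Λ W v / kap d * (8 * √((r : ℝ) + 1)) = H * tot nbr Λ W v := by
      rw [hH]; field_simp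
    rw [hf]
    simp only
    rw [← div_eq_mul_inv, div_le_one hden]
    linarith
  have hf0 : ∀ x, x ∉ Λ → f x = 0 := by
    intro x hx
    rw [hf]
    simp only
    rw [Finset.sum_eq_zero, zero_mul]
    intro i _
    exact cnt_of_notMem _ _ _ _ hx
  have hbal : ∀ x ∈ Λ, f x - avg nbr f x
      = (∑ i ∈ (Finset.range (r + 1)).attach, if x = y i then (1 : ℝ) else 0) * H⁻¹ := by
    intro x hx
    have e1 : avg nbr f x = (∑ i ∈ (Finset.range (r + 1)).attach,
        avg nbr (cnt nbr Λ W ⟨y i, hyΛ i (by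
          have := Finset.mem_range.1 i.2; omega)⟩) x) * (H * tot nbr Λ W v)⁻¹ := by
      have := avg_smul (nb := nbr) (H * tot nbr Λ W v)⁻¹ (fun x =>
        ∑ i ∈ (Finset.range (r + 1)).attach, cnt nbr Λ W ⟨y i, hyΛ i (by
          have := Finset.mem_range.1 i.2; omega)⟩ x) x
      rw [avg_sum] at this
      rw [mul_comm, ← this]
      unfold avg
      congr 1
      refine Finset.sum_congr rfl fun δ _ => ?_
      rw [hf]
      simp only
      rw [mul_comm]
    rw [e1]
    rw [hf]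
    simp only
    rw [← sub_mul, ← Finset.sum_sub_distrib]
    have e2 : ∀ i ∈ (Finset.range (r + 1)).attach, cnt nbr Λ W ⟨y i, hyΛ i (by
          have := Finset.mem_range.1 i.2; omega)⟩ x - avg nbr (cnt nbr Λ W ⟨y i, hyΛ i (by
          have := Finset.mem_range.1 i.2; omega)⟩) x
        = (if x = y i then (1 : ℝ) else 0) * tot nbr Λ W v := by
      intro i _
      rw [cnt_balance nbr opp nbr_opp opp_opp Λ W hW ⟨y i, hyΛ i (by
          have := Finset.mem_range.1 i.2; omega)⟩ hx, tot_base nbr Λ W _ v]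
      simp only
      split_ifs <;> ring
    rw [Finset.sum_congr rfl e2, ← Finset.sum_mul, mul_inv]
    field_simp
  have hharm : ∀ x ∈ Λ, x ∉ K → f x ≤ avg nbr f x := by
    intro x hx hxK
    have := hbal x hx
    rw [Finset.sum_eq_zero, zero_mul] at this
    · linarith
    · intro i _
      rw [if_neg]
      rintro rfl
      exact hxK (hy i (by have := Finset.mem_range.1 i.2; omega)).1
  have hsc := sc_le nbr Λ K f hf1 hf0 hharm n
  have hflux := flux nbr opp nbr_opp opp_opp Λ f hf0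
  have hsum : ∑ x ∈ Λ, (f x - avg nbr f x) = (r + 1) * H⁻¹ := by
    rw [Finset.sum_congr rfl hbal, ← Finset.sum_mul, Finset.sum_comm]
    congr 1
    have : ∀ i ∈ (Finset.range (r + 1)).attach, ∑ x ∈ Λ, (if x = y i then (1 : ℝ) else 0) = 1 := by
      intro i _
      rw [Finset.sum_ite_eq' Λ (y i) (fun _ => (1 : ℝ)),
        if_pos (hyΛ i (by have := Finset.mem_range.1 i.2; omega))]
    rw [Finset.sum_congr rfl this]
    simp
  rw [hsum, card_dir] at hflux
  rcases Nat.eq_zero_or_pos (bdry nbr Λ).card with h0 | hcard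
  · rw [h0]
    have := ex_le_one (nb := nbr) (Λ := Λ) K n
    simpa using this
  have hcard' : (0 : ℝ) < (bdry nbr Λ).card := by exact_mod_cast hcard
  unfold ex
  have h5 : ∑ e ∈ bdry nbr Λ, sc nbr Λ K n e.1 ≤ ∑ e ∈ bdry nbr Λ, (1 - f e.1) :=
    Finset.sum_le_sum fun e _ => hsc e.1
  rw [Finset.sum_sub_distrib, hflux] at h5
  rw [div_le_iff₀ hcard']
  have e6 : (1 - (2 * d * (kap d / 8) * √((r : ℝ) + 1)) / (bdry nbr Λ).card)
      * (bdry nbr Λ).card = (bdry nbr Λ).card - 2 * d * (kap d / 8) * √((r : ℝ) + 1) := by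
    field_simp
  rw [e6]
  have e7 : (2 : ℝ) * d * ((r + 1) * H⁻¹) = 2 * d * (kap d / 8) * √((r : ℝ) + 1) := by
    rw [hH, inv_div]
    have hs : √((r : ℝ) + 1) ^ 2 = (r : ℝ) + 1 := Real.sq_sqrt (by positivity)
    have hs0 : √((r : ℝ) + 1) ≠ 0 := by positivity
    field_simp
    linarith
  rw [e7] at h5
  simpa using h5

theorem hit_bound [NeZero d] (W : Finset ((Fin d → ℤ) → Dir d))
    (hW : ∀ T ∈ W, ∀ x ∈ Λ, ∀ δ, update T x δ ∈ W) (v : Λ) (hpos : 0 < tot nbr Λ W v)
    (ho : o ∈ Λ) (n : ℕ) :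
    (∑ e ∈ bdry nbr Λ, hit nbr Λ o n e.1) / (bdry nbr Λ).card ≤ 2 * d / (bdry nbr Λ).card := by
  classical
  refine div_le_div_of_nonneg_right ?_ (Nat.cast_nonneg _)
  set t := tot nbr Λ W v with ht
  set f : (Fin d → ℤ) → ℝ := fun x => t⁻¹ * cnt nbr Λ W ⟨o, ho⟩ x with hf
  have hbal : ∀ x ∈ Λ, f x - avg nbr f x = if x = o then 1 else 0 := by
    intro x hx
    rw [hf]
    rw [avg_smul]
    simp only
    rw [cnt_balance nbr opp nbr_opp opp_opp Λ W hW ⟨o, ho⟩ hx, tot_base nbr Λ W _ v, ← ht]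
    have : t ≠ 0 := hpos.ne'
    simp only
    split_ifs
    · field_simp; ring
    · ring
  have hf0 : ∀ x, 0 ≤ f x := fun x => mul_nonneg (inv_nonneg.2 hpos.le) (cnt_nonneg _ _ _ _ _)
  have havg0 : 0 ≤ avg nbr f o := by
    unfold avg
    exact div_nonneg (Finset.sum_nonneg fun δ _ => hf0 _) (Nat.cast_nonneg _)
  have hfo : 1 ≤ f o := by
    have := hbal o ho
    rw [if_pos rfl] at this
    linarith
  have hsup : ∀ x ∈ Λ, avg nbr f x ≤ f x := by
    intro x hx
    have := hbal x hx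
    have h2 : (0 : ℝ) ≤ if x = o then 1 else 0 := by split_ifs <;> norm_num
    linarith
  have h1 : ∑ e ∈ bdry nbr Λ, hit nbr Λ o n e.1 ≤ ∑ e ∈ bdry nbr Λ, f e.1 :=
    Finset.sum_le_sum fun e _ => hit_le nbr Λ o f hf0 hfo hsup n e.1
  have hz : ∀ y, y ∉ Λ → f y = 0 := by
    intro y hy
    rw [hf]
    simp only
    rw [cnt_of_notMem _ _ _ _ hy, mul_zero]
  rw [flux nbr opp nbr_opp opp_opp Λ f hz, Finset.sum_congr rfl hbal,
    Finset.sum_ite_eq' Λ o (fun _ => (1 : ℝ)), if_pos ho, mul_one, card_dir] at h1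
  exact h1

/-- Quantitative one-endedness in finite volume. -/
theorem one_ended_lattice [NeZero d] (hd : 3 ≤ d) (W : Finset ((Fin d → ℤ) → Dir d))
    (hW : ∀ T ∈ W, ∀ x ∈ Λ, ∀ δ, update T x δ ∈ W) (v : Λ) (hpos : 0 < tot nbr Λ W v)
    (hb : (bdry nbr Λ).Nonempty) (ho : o ∈ Λ) (S : Finset (Fin d → ℤ)) (r M : ℕ)
    (hS : ∀ u ∈ S, r ≤ nrm (u - o)) :
    ∑ T ∈ W, ac nbr Λ v T * far nbr Λ o S T
      ≤ tot nbr Λ W v * (M * (2 * d / (bdry nbr Λ).card)
        + S.card * Real.exp (-(M * ((2 * d * (kap d / 8) * √((r : ℝ) + 1))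
          / (bdry nbr Λ).card)))) := by
  have hmain := one_ended nbr Λ W hW v hpos hb o ho S M (2 * d / (bdry nbr Λ).card)
    (Real.exp (-((2 * d * (kap d / 8) * √((r : ℝ) + 1)) / (bdry nbr Λ).card)))
    (by positivity) (Real.exp_pos _).le (fun n => hit_bound W hW v hpos ho n) ?_
  · rw [← Real.exp_nat_mul] at hmain
    rw [mul_neg] at hmain
    exact hmain
  · intro n u hu K T hp
    refine (theta_bound hd W hW v hpos ho r (hS u hu) hp n).trans ?_
    have := Real.add_one_le_exp (-((2 * d * (kap d / 8) * √((r : ℝ) + 1)) / (bdry nbr Λ).card))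
    linarith

end

end Pool.Agent.MP_c09afc_pr
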