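import Pool.Agent.MP_c09afc_pr.Alg
import Pool.Agent.MP_c09afc_pr.Lattice2

set_option linter.unusedSectionVars false
set_option linter.unusedSimpArgs false
set_option linter.unusedVariables false

namespace Pool.Agent.MP_c09afc_pr

open Finset Function Filter Topology

variable {d : ℕ}

theorem nbr_eq_add (x : Fin d → ℤ) (δ : Dir d) : nbr x δ = x + nbr 0 δ := by
  funext i
  unfold nbr
  by_cases h : i = δ.1
  · subst h; simp
  · simp [update_of_ne h]

theorem neg_nbr_zero (δ : Dir d) : -(nbr (0 : Fin d → ℤ) δ) = nbr 0 (opp δ) := by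
  have h := nbr_opp (0 : Fin d → ℤ) δ
  rw [nbr_eq_add] at h
  exact neg_eq_of_add_eq_zero_right h

/-- The lazy averaging element. -/
noncomputable def Lop (d : ℕ) : RG (Fin d → ℤ) :=
  (1 / (4 * (d : ℝ))) • ((2 * (d : ℝ)) • (1 : RG (Fin d → ℤ)) +
    ∑ δ : Dir d, AddMonoidAlgebra.single (nbr 0 δ) (1 : ℝ))

/-- The unit shift. -/
noncomputable def Sop (d : ℕ) [NeZero d] : RG (Fin d → ℤ) :=
  AddMonoidAlgebra.single (nbr 0 ((0, true) : Dir d)) (1 : ℝ)

theorem Nm_Lop (hd : 0 < d) : Nm (Lop d) ≤ 1 := by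
  have hd0 : (0 : ℝ) < d := by exact_mod_cast hd
  unfold Lop
  rw [Nm_smul, abs_of_nonneg (by positivity)]
  have h1 : Nm ((2 * (d : ℝ)) • (1 : RG (Fin d → ℤ)) +
    ∑ δ : Dir d, AddMonoidAlgebra.single (nbr 0 δ) (1 : ℝ)) ≤ 2 * d + 2 * d := by
    refine (Nm_add_le _ _).trans ?_
    rw [Nm_smul, Nm_one, abs_of_nonneg (by positivity), mul_one]
    have h2 := Nm_sum_le (Finset.univ : Finset (Dir d))
      (fun δ => AddMonoidAlgebra.single (nbr (0 : Fin d → ℤ) δ) (1 : ℝ))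
    simp only [Nm_single, abs_one, Finset.sum_const, Finset.card_univ, nsmul_eq_mul, mul_one,
      card_dir] at h2
    linarith
  calc 1 / (4 * (d : ℝ)) * _ ≤ 1 / (4 * (d : ℝ)) * (2 * d + 2 * d) :=
        mul_le_mul_of_nonneg_left h1 (by positivity)
    _ = 1 := by field_simp; norm_num

theorem Lop_split [NeZero d] : ∃ R : RG (Fin d → ℤ), Nm R ≤ 1 - 1 / (2 * (d : ℝ)) ∧
    Lop d = (1 / (2 * (d : ℝ))) • ((1 / 2 : ℝ) • (1 + Sop d)) + R := by
  classical
  have hd0 : (0 : ℝ) < d := by exact_mod_cast Nat.pos_of_ne_zero (NeZero.ne d)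
  have hd1 : (1 : ℝ) ≤ d := by exact_mod_cast Nat.one_le_iff_ne_zero.2 (NeZero.ne d)
  refine ⟨(1 / (4 * (d : ℝ))) • ((2 * (d : ℝ) - 1) • (1 : RG (Fin d → ℤ)) +
    ∑ δ ∈ (Finset.univ : Finset (Dir d)).erase (0, true),
      AddMonoidAlgebra.single (nbr 0 δ) (1 : ℝ)), ?_, ?_⟩
  · rw [Nm_smul, abs_of_nonneg (by positivity)]
    have h1 : Nm ((2 * (d : ℝ) - 1) • (1 : RG (Fin d → ℤ)) +
      ∑ δ ∈ (Finset.univ : Finset (Dir d)).erase (0, true),
      AddMonoidAlgebra.single (nbr 0 δ) (1 : ℝ)) ≤ (2 * d - 1) + (2 * d - 1) := by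
      refine (Nm_add_le _ _).trans ?_
      rw [Nm_smul, Nm_one, abs_of_nonneg (by linarith), mul_one]
      have h2 := Nm_sum_le ((Finset.univ : Finset (Dir d)).erase (0, true))
        (fun δ => AddMonoidAlgebra.single (nbr (0 : Fin d → ℤ) δ) (1 : ℝ))
      simp only [Nm_single, abs_one, Finset.sum_const, nsmul_eq_mul, mul_one] at h2
      rw [Finset.card_erase_of_mem (Finset.mem_univ _), Finset.card_univ, Nat.cast_sub (by
        simp [Dir]
        have := NeZero.ne d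
        omega), card_dir] at h2
      push_cast at h2
      linarith
    calc 1 / (4 * (d : ℝ)) * _ ≤ 1 / (4 * (d : ℝ)) * ((2 * d - 1) + (2 * d - 1)) :=
          mul_le_mul_of_nonneg_left h1 (by positivity)
      _ = 1 - 1 / (2 * (d : ℝ)) := by field_simp; ring
  · unfold Lop Sop
    rw [← Finset.add_sum_erase _ _ (Finset.mem_univ ((0, true) : Dir d))]
    simp only [smul_add, smul_smul, sub_smul, smul_sub, one_smul]
    have e1 : (1 : ℝ) / (2 * d) * (1 / 2) = 1 / (4 * d) := by field_simp; norm_num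
    rw [e1]
    abel

/-- The iterates of the source. -/
noncomputable def gop (d : ℕ) [NeZero d] (n : ℕ) : RG (Fin d → ℤ) := Lop d ^ n * (1 - Sop d) ^ 4

theorem Nm_gop [NeZero d] (n : ℕ) :
    Nm (gop d n) ≤ 1024 * (d : ℝ) ^ 2 * (1 / ((n : ℝ) + 1) ^ 2) := by
  have hd0 : (0 : ℝ) < d := by exact_mod_cast Nat.pos_of_ne_zero (NeZero.ne d)
  have hd1 : (1 : ℝ) ≤ d := by exact_mod_cast Nat.one_le_iff_ne_zero.2 (NeZero.ne d)
  obtain ⟨R, hR, hL⟩ := Lop_split (d := d)
  set m := n / 4 with hm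
  have hS : Nm (Sop d) ≤ 1 := by unfold Sop; rw [Nm_single, abs_one]
  have hp : (0 : ℝ) < 1 / (2 * (d : ℝ)) := by positivity
  have hp1 : 1 / (2 * (d : ℝ)) ≤ 1 := by
    rw [div_le_one (by positivity)]; linarith
  have h1 := Nm_mix (Sop d) R hS (1 / (2 * (d : ℝ))) hp hp1 hR m
  rw [← hL] at h1
  have hn : n = 4 * m + n % 4 := by omega
  have e : gop d n = Lop d ^ (n % 4) * (Lop d ^ m * (1 - Sop d)) ^ 4 := by
    unfold gop
    conv_lhs => rw [hn]
    rw [mul_pow, ← pow_mul, ← mul_assoc, ← pow_add]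
    congr 2
    omega
  have h2 : Nm (gop d n) ≤ (2 / √(((m : ℝ) + 1) * (1 / (2 * (d : ℝ))))) ^ 4 := by
    rw [e]
    refine (Nm_mul_le _ _).trans ?_
    have h3 : Nm (Lop d ^ (n % 4)) ≤ 1 :=
      (Nm_pow_le _ _).trans (pow_le_one₀ (Nm_nonneg _) (Nm_Lop (Nat.pos_of_ne_zero (NeZero.ne d))))
    have h4 : Nm ((Lop d ^ m * (1 - Sop d)) ^ 4)
        ≤ (2 / √(((m : ℝ) + 1) * (1 / (2 * (d : ℝ))))) ^ 4 :=
      (Nm_pow_le _ _).trans (pow_le_pow_left₀ (Nm_nonneg _) h1 4)
    calc _ ≤ 1 * (2 / √(((m : ℝ) + 1) * (1 / (2 * (d : ℝ))))) ^ 4 :=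
          mul_le_mul h3 h4 (Nm_nonneg _) zero_le_one
      _ = _ := one_mul _
  refine h2.trans ?_
  have hq : 0 ≤ ((m : ℝ) + 1) * (1 / (2 * (d : ℝ))) := by positivity
  have e2 : (2 / √(((m : ℝ) + 1) * (1 / (2 * (d : ℝ))))) ^ 4 = 64 * d ^ 2 * (1 / ((m : ℝ) + 1) ^ 2) := by
    rw [div_pow]
    have : √(((m : ℝ) + 1) * (1 / (2 * (d : ℝ)))) ^ 4 = (((m : ℝ) + 1) * (1 / (2 * (d : ℝ)))) ^ 2 := by
      rw [show 4 = 2 * 2 by norm_num, pow_mul, Real.sq_sqrt hq]
    rw [this]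
    field_simp
    norm_num
  rw [e2]
  have h3 : 1 / ((m : ℝ) + 1) ^ 2 ≤ 16 * (1 / ((n : ℝ) + 1) ^ 2) := by
    have h4 : (n : ℝ) + 1 ≤ 4 * ((m : ℝ) + 1) := by
      have : n + 1 ≤ 4 * (m + 1) := by omega
      exact_mod_cast this
    rw [mul_one_div, div_le_div_iff₀ (by positivity) (by positivity)]
    have h5 : ((n : ℝ) + 1) ^ 2 ≤ (4 * ((m : ℝ) + 1)) ^ 2 := pow_le_pow_left₀ (by positivity) h4 2
    nlinarith
  have h4 := mul_le_mul_of_nonneg_left h3 (show (0 : ℝ) ≤ 64 * d ^ 2 by positivity)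
  refine h4.trans (le_of_eq (by ring))

theorem summable_Nm_gop [NeZero d] : Summable fun n => Nm (gop d n) := by
  refine Summable.of_nonneg_of_le (fun n => Nm_nonneg _) (fun n => Nm_gop n) ?_
  apply Summable.mul_left
  have h := (Real.summable_one_div_nat_pow (p := 2)).2 (by norm_num)
  have h2 := (summable_nat_add_iff 1).2 h
  refine h2.congr fun n => ?_
  push_cast
  rfl

theorem summable_gop [NeZero d] (x : Fin d → ℤ) : Summable fun n => (gop d n).coeff x :=
  Summable.of_abs (Summable.of_nonneg_of_le (fun _ => abs_nonneg _)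
    (fun n => abs_coeff_le _ x) summable_Nm_gop)

theorem summable_abs_gop [NeZero d] (x : Fin d → ℤ) : Summable fun n => |(gop d n).coeff x| :=
  (Summable.of_nonneg_of_le (fun _ => abs_nonneg _)
    (fun n => abs_coeff_le _ x) summable_Nm_gop)

/-- The function with integer Laplacian. -/
noncomputable def hfun (d : ℕ) [NeZero d] (x : Fin d → ℤ) : ℝ :=
  (1 / (4 * (d : ℝ))) * ∑' n, (gop d n).coeff x

theorem summable_hfun [NeZero d] : Summable fun x => |hfun d x| := by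
  have hd0 : (0 : ℝ) < d := by exact_mod_cast Nat.pos_of_ne_zero (NeZero.ne d)
  refine summable_of_sum_le (c := (1 / (4 * (d : ℝ))) * ∑' n, Nm (gop d n))
    (fun x => abs_nonneg _) fun s => ?_
  have h1 : ∀ x ∈ s, |hfun d x| ≤ (1 / (4 * (d : ℝ))) * ∑' n, |(gop d n).coeff x| := by
    intro x _
    unfold hfun
    rw [abs_mul, abs_of_nonneg (show (0 : ℝ) ≤ 1 / (4 * (d : ℝ)) by positivity)]
    refine mul_le_mul_of_nonneg_left ?_ (by positivity)
    have := norm_tsum_le_tsum_norm (f := fun n => (gop d n).coeff x)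
      (by simpa only [Real.norm_eq_abs] using summable_abs_gop x)
    simpa only [Real.norm_eq_abs] using this
  refine (Finset.sum_le_sum h1).trans ?_
  rw [← Finset.mul_sum]
  refine mul_le_mul_of_nonneg_left ?_ (by positivity)
  rw [← Summable.tsum_finsetSum (fun x _ => summable_abs_gop x)]
  refine Summable.tsum_le_tsum (fun n => sum_abs_coeff_le _ s) ?_ summable_Nm_gop
  exact summable_sum fun x _ => summable_abs_gop x

theorem sum_dir_opp {M : Type*} [AddCommMonoid M] (f : Dir d → M) :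
    ∑ δ : Dir d, f (opp δ) = ∑ δ : Dir d, f δ := by
  have : Function.Involutive (opp : Dir d → Dir d) := opp_opp
  exact Equiv.sum_comp (this.toPerm) f

theorem coeff_Lop_mul [NeZero d] (f : RG (Fin d → ℤ)) (x : Fin d → ℤ) :
    (Lop d * f).coeff x = 1 / (4 * (d : ℝ)) * (2 * (d : ℝ) * f.coeff x
      + ∑ δ : Dir d, f.coeff (nbr x δ)) := by
  unfold Lop
  rw [smul_mul_assoc, add_mul, smul_mul_assoc, one_mul, Finset.sum_mul]
  rw [AddMonoidAlgebra.coeff_smul_apply, AddMonoidAlgebra.coeff_add, Finsupp.add_apply,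
    AddMonoidAlgebra.coeff_smul_apply, AddMonoidAlgebra.coeff_sum, Finsupp.finsetSum_apply]
  simp only [smul_eq_mul, AddMonoidAlgebra.coeff_single_mul_apply, one_mul]
  rw [← sum_dir_opp (fun δ => f.coeff (nbr x δ))]
  congr 2
  refine Finset.sum_congr rfl fun δ _ => ?_
  rw [neg_nbr_zero, nbr_eq_add x, add_comm]

theorem hfun_lap [NeZero d] (x : Fin d → ℤ) :
    2 * (d : ℝ) * hfun d x - ∑ δ : Dir d, hfun d (nbr x δ) = ((1 - Sop d) ^ 4).coeff x := by
  have hd0 : (0 : ℝ) < d := by exact_mod_cast Nat.pos_of_ne_zero (NeZero.ne d)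
  unfold hfun
  rw [← Finset.mul_sum, ← Summable.tsum_finsetSum (fun δ _ => summable_gop (nbr x δ))]
  have h1 : ∀ n, ∑ δ : Dir d, (gop d n).coeff (nbr x δ)
      = 4 * d * (gop d (n + 1)).coeff x - 2 * d * (gop d n).coeff x := by
    intro n
    have h := coeff_Lop_mul (gop d n) x
    have e : Lop d * gop d n = gop d (n + 1) := by
      unfold gop; rw [pow_succ]; ring
    rw [e] at h
    rw [h]
    field_simp
    ring
  rw [tsum_congr h1]
  have hs := summable_gop (d := d) x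
  have hs1 : Summable fun n => (gop d (n + 1)).coeff x := (summable_nat_add_iff 1).2 hs
  rw [Summable.tsum_sub (hs1.mul_left _) (hs.mul_left _), tsum_mul_left, tsum_mul_left,
    hs.tsum_eq_zero_add]
  have e : gop d 0 = (1 - Sop d) ^ 4 := by unfold gop; rw [pow_zero, one_mul]
  rw [e]
  field_simp
  ring

theorem source_int [NeZero d] (x : Fin d → ℤ) : ∃ k : ℤ, ((1 - Sop d) ^ 4).coeff x = (k : ℝ) := by
  let P : AddMonoidAlgebra ℤ (Fin d → ℤ) :=
    (1 - AddMonoidAlgebra.single (nbr 0 ((0, true) : Dir d)) (1 : ℤ)) ^ 4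
  refine ⟨P.coeff x, ?_⟩
  have h : AddMonoidAlgebra.mapRingHom (Fin d → ℤ) (Int.castRingHom ℝ) P = (1 - Sop d) ^ 4 := by
    simp [P, Sop]
  rw [← h, AddMonoidAlgebra.coeff_mapRingHom]
  rfl

/-- The real root with `z + 1/z = 6`. -/
noncomputable def zz : ℝ := 3 + 2 * √2

theorem zz_ne : zz ≠ 0 := by unfold zz; positivity

theorem zz_add_inv : zz + zz⁻¹ = 6 := by
  have h2 : √(2 : ℝ) * √2 = 2 := Real.mul_self_sqrt (by norm_num)
  have h : zz⁻¹ = 3 - 2 * √2 := by
    rw [inv_eq_one_div, div_eq_iff zz_ne]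
    unfold zz
    nlinarith
  rw [h]
  unfold zz
  ring

/-- A real character killing the Laplacian. -/
noncomputable def chr (i0 i1 : Fin d) : Multiplicative (Fin d → ℤ) →* ℝ where
  toFun x := zz ^ (Multiplicative.toAdd x i0) * (-1) ^ (Multiplicative.toAdd x i1)
  map_one' := by simp
  map_mul' x y := by
    rw [toAdd_mul, Pi.add_apply, Pi.add_apply, zpow_add₀ zz_ne, zpow_add₀ (by norm_num)]
    ring

theorem sum_chr (i0 i1 : Fin d) (h01 : i0 ≠ i1) :
    ∑ δ : Dir d, chr i0 i1 (Multiplicative.ofAdd (nbr 0 δ)) = 2 * d := by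
  classical
  rw [Fintype.sum_prod_type]
  have h1 : ∀ i : Fin d, ∑ b : Bool, chr i0 i1 (Multiplicative.ofAdd (nbr 0 (i, b)))
      = 2 + (if i = i0 then 4 else 0) + (if i = i1 then -4 else 0) := by
    intro i
    rw [Fintype.sum_bool]
    simp only [chr, MonoidHom.coe_mk, OneHom.coe_mk, toAdd_ofAdd, nbr, if_true,
      Bool.false_eq_true, if_false]
    by_cases hi0 : i = i0
    · subst hi0
      simp only [update_self, update_of_ne h01.symm, if_true, if_neg h01, Pi.zero_apply, zero_add,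
        zpow_one, zpow_zero, mul_one, add_zero, zpow_neg]
      rw [zz_add_inv]; norm_num
    · by_cases hi1 : i = i1
      · subst hi1
        simp only [update_self, update_of_ne h01, if_true, if_neg hi0, Pi.zero_apply, zero_add,
          zpow_one, zpow_zero, mul_one, add_zero, zpow_neg, one_mul]
        norm_num
      · simp only [update_of_ne (Ne.symm hi0), update_of_ne (Ne.symm hi1), if_neg hi0, if_neg hi1,
          Pi.zero_apply, zpow_zero]
        norm_num
  rw [Finset.sum_congr rfl fun i _ => h1 i, Finset.sum_add_distrib, Finset.sum_add_distrib]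
  simp [mul_comm]

/-- A function whose Laplacian is given by an element not killed by the character has infinite
support. -/
theorem infinite_support_of_lap [NeZero d] (i0 i1 : Fin d) (h01 : i0 ≠ i1) (u : (Fin d → ℤ) → ℝ)
    (Q : RG (Fin d → ℤ))
    (hQ : ∀ x, 2 * (d : ℝ) * u x - ∑ δ : Dir d, u (nbr x δ) = Q.coeff x)
    (hne : AddMonoidAlgebra.lift ℝ ℝ (Fin d → ℤ) (chr i0 i1) Q ≠ 0) :
    (Function.support u).Infinite := by
  classical
  intro hfin
  have hd0 : (0 : ℝ) < d := by exact_mod_cast Nat.pos_of_ne_zero (NeZero.ne d)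
  let H : RG (Fin d → ℤ) := AddMonoidAlgebra.ofCoeff (Finsupp.ofSupportFinite u hfin)
  have hH : ∀ x, H.coeff x = u x := fun x => rfl
  have key : (4 * (d : ℝ)) • (H - Lop d * H) = Q := by
    ext x
    rw [AddMonoidAlgebra.coeff_smul_apply, AddMonoidAlgebra.coeff_sub, Finsupp.sub_apply,
      coeff_Lop_mul, ← hQ x]
    simp only [hH, smul_eq_mul]
    field_simp
    ring
  have h2 := congrArg (AddMonoidAlgebra.lift ℝ ℝ (Fin d → ℤ) (chr i0 i1)) key
  rw [map_smul, map_sub, map_mul] at h2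
  have h3 : AddMonoidAlgebra.lift ℝ ℝ (Fin d → ℤ) (chr i0 i1) (Lop d) = 1 := by
    unfold Lop
    rw [map_smul, map_add, map_smul, map_one, map_sum]
    simp only [AddMonoidAlgebra.lift_single, one_smul]
    rw [sum_chr i0 i1 h01]
    simp only [smul_eq_mul]
    field_simp
    norm_num
  rw [h3, one_mul, sub_self, smul_zero] at h2
  exact hne h2.symm

theorem add_nbr (x v : Fin d → ℤ) (δ : Dir d) : nbr x δ + v = nbr (x + v) δ := by
  rw [nbr_eq_add x, nbr_eq_add (x + v)]; abel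

theorem neg_nbr (x : Fin d → ℤ) (δ : Dir d) : -nbr x δ = nbr (-x) (opp δ) := by
  rw [nbr_eq_add x, nbr_eq_add (-x), ← neg_nbr_zero]; abel

/-- The antisymmetrised source. -/
noncomputable def Qop (d : ℕ) [NeZero d] : RG (Fin d → ℤ) :=
  (1 - Sop d) ^ 4 - AddMonoidAlgebra.domCongr ℝ ℝ (AddEquiv.neg (Fin d → ℤ)) ((1 - Sop d) ^ 4)

theorem coeff_Qop [NeZero d] (x : Fin d → ℤ) :
    (Qop d).coeff x = ((1 - Sop d) ^ 4).coeff x - ((1 - Sop d) ^ 4).coeff (-x) := by
  unfold Qop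
  rw [AddMonoidAlgebra.coeff_sub, Finsupp.sub_apply, AddMonoidAlgebra.coeff_domCongr]
  rfl

theorem lift_Qop [NeZero d] (hd : 2 ≤ d) :
    ∃ i0 i1 : Fin d, i0 ≠ i1 ∧ AddMonoidAlgebra.lift ℝ ℝ (Fin d → ℤ) (chr i0 i1) (Qop d) ≠ 0 := by
  let i0 : Fin d := 0
  let i1 : Fin d := ⟨1, by omega⟩
  have h01 : i0 ≠ i1 := by
    intro h
    have := congrArg Fin.val h
    simp [i0, i1] at this
  refine ⟨i0, i1, h01, ?_⟩
  have e0 : update (0 : Fin d → ℤ) (0 : Fin d) ((0 : Fin d → ℤ) 0 + 1) i0 = 1 := by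
    simp [i0]
  have e1 : update (0 : Fin d → ℤ) (0 : Fin d) ((0 : Fin d → ℤ) 0 + 1) i1 = 0 := by
    rw [update_of_ne h01.symm]; rfl
  have h4 : AddMonoidAlgebra.lift ℝ ℝ (Fin d → ℤ) (chr i0 i1) (Sop d) = zz := by
    unfold Sop
    rw [AddMonoidAlgebra.lift_single, one_smul]
    simp only [chr, MonoidHom.coe_mk, OneHom.coe_mk, toAdd_ofAdd, nbr, if_true]
    rw [e0, e1, zpow_one, zpow_zero, mul_one]
  have h5 : AddMonoidAlgebra.lift ℝ ℝ (Fin d → ℤ) (chr i0 i1)
      (AddMonoidAlgebra.domCongr ℝ ℝ (AddEquiv.neg (Fin d → ℤ)) (Sop d)) = zz⁻¹ := by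
    unfold Sop
    rw [AddMonoidAlgebra.domCongr_single, AddMonoidAlgebra.lift_single, one_smul]
    simp only [chr, MonoidHom.coe_mk, OneHom.coe_mk, toAdd_ofAdd, nbr, if_true,
      AddEquiv.neg_apply, Pi.neg_apply]
    rw [e0, e1]
    simp
  unfold Qop
  simp only [map_sub, map_pow, map_one, h4, h5]
  have hz1 : 1 < zz := by
    unfold zz
    have : 0 < √(2 : ℝ) := by positivity
    linarith
  have hz0 : 0 < zz := by linarith
  have h6 : (1 - zz) ^ 4 - (1 - zz⁻¹) ^ 4 = (zz - 1) ^ 4 * (1 - (zz⁻¹) ^ 4) := by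
    field_simp
    ring
  rw [h6]
  have h7 : zz⁻¹ < 1 := inv_lt_one_of_one_lt₀ hz1
  have h8 : (zz⁻¹) ^ 4 < 1 := pow_lt_one₀ (by positivity) h7 (by norm_num)
  have h9 : 0 < (zz - 1) ^ 4 := by
    have : 0 < zz - 1 := by linarith
    positivity
  have h10 : 0 < (zz - 1) ^ 4 * (1 - (zz⁻¹) ^ 4) := mul_pos h9 (by linarith)
  exact h10.ne'

/-- For every vertex `a` there is a summable function, harmonic modulo one, vanishing at `a`, and
taking arbitrarily small nonzero values. -/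
theorem exists_h (hd : 2 ≤ d) (a : Fin d → ℤ) : ∃ h : (Fin d → ℤ) → ℝ,
    Summable (fun x => |h x|) ∧
    (∀ x, ∃ k : ℤ, 2 * (d : ℝ) * h x - ∑ δ : Dir d, h (nbr x δ) = (k : ℝ)) ∧ h a = 0 ∧
    ∀ ε : ℝ, 0 < ε → ∃ x, 0 < |h x| ∧ |h x| < ε := by
  classical
  have : NeZero d := ⟨by omega⟩
  have hsum := summable_hfun (d := d)
  set u : (Fin d → ℤ) → ℝ := fun x => hfun d x - hfun d (-x) with hu
  have husum : Summable fun x => |u x| := by
    have e2 : Summable fun x => |hfun d (-x)| := hsum.comp_injective neg_injective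
    exact Summable.of_nonneg_of_le (fun _ => abs_nonneg _) (fun x => abs_sub _ _) (hsum.add e2)
  have hlap : ∀ x, 2 * (d : ℝ) * u x - ∑ δ : Dir d, u (nbr x δ) = (Qop d).coeff x := by
    intro x
    rw [coeff_Qop, ← hfun_lap x, ← hfun_lap (-x), ← sum_dir_opp (fun δ => hfun d (nbr (-x) δ))]
    simp only [hu]
    rw [Finset.sum_sub_distrib]
    have e1 : ∑ δ : Dir d, hfun d (-nbr x δ) = ∑ δ : Dir d, hfun d (nbr (-x) (opp δ)) :=
      Finset.sum_congr rfl fun δ _ => by rw [neg_nbr]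
    rw [e1]
    ring
  obtain ⟨i0, i1, h01, hne⟩ := lift_Qop (d := d) hd
  have hinf := infinite_support_of_lap i0 i1 h01 u (Qop d) hlap hne
  refine ⟨fun x => u (x - a), ?_, ?_, ?_, ?_⟩
  · exact husum.comp_injective (sub_left_injective (b := a))
  · intro x
    have h1 := hlap (x - a)
    obtain ⟨k1, hk1⟩ := source_int (x - a)
    obtain ⟨k2, hk2⟩ := source_int (-(x - a))
    refine ⟨k1 - k2, ?_⟩
    push_cast
    rw [← hk1, ← hk2, ← coeff_Qop, ← h1]
    have e1 : ∑ δ : Dir d, u (nbr x δ - a) = ∑ δ : Dir d, u (nbr (x - a) δ) :=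
      Finset.sum_congr rfl fun δ _ => by rw [nbr_sub]
    rw [e1]
  · simp [hu]
  · intro ε hε
    have h1 := husum.tendsto_cofinite_zero
    have h2 := h1.eventually (gt_mem_nhds hε)
    rw [Filter.eventually_cofinite] at h2
    obtain ⟨x, hx1, hx2⟩ := (hinf.sdiff h2).nonempty
    refine ⟨x + a, ?_, ?_⟩
    · simp only [add_sub_cancel_right]
      exact abs_pos.2 hx1
    · simp only [add_sub_cancel_right]
      by_contra hcon
      exact hx2 hcon

end Pool.Agent.MP_c09afc_pr
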