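import Pool.Agent.MP_c09afc_pr.Limit2

set_option linter.unusedSectionVars false
set_option linter.unusedSimpArgs false
set_option linter.unusedVariables false

namespace Pool.Agent.MP_c09afc_pr

open Function Finset Filter Topology MeasureTheory

variable {d : ℕ}

open scoped Classical in
/-- The final rotor configuration: the eventual value of each rotor, if there is one. -/
noncomputable def finalCfg (τ : (Fin d → ℤ) → Equiv.Perm (Dir d)) (a : Fin d → ℤ) (ρ : Cfg d) :
    Cfg d :=
  fun x => if h : ∃ δ, ∀ᶠ t in atTop, cfg τ a t ρ x = δ then h.choose else ρ x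

theorem finalCfg_eq (τ : (Fin d → ℤ) → Equiv.Perm (Dir d)) (a : Fin d → ℤ) (ρ : Cfg d)
    (x : Fin d → ℤ) (δ : Dir d) (h : ∀ᶠ t in atTop, cfg τ a t ρ x = δ) :
    finalCfg τ a ρ x = δ := by
  have hex : ∃ δ, ∀ᶠ t in atTop, cfg τ a t ρ x = δ := ⟨δ, h⟩
  unfold finalCfg
  rw [dif_pos hex]
  obtain ⟨t, h1, h2⟩ := (hex.choose_spec.and h).exists
  rw [← h1, h2]

theorem measurableSet_eventually_cfg (τ : (Fin d → ℤ) → Equiv.Perm (Dir d)) (a : Fin d → ℤ)
    (x : Fin d → ℤ) (δ : Dir d) :
    MeasurableSet {ρ : Cfg d | ∀ᶠ t in atTop, cfg τ a t ρ x = δ} := by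
  have : {ρ : Cfg d | ∀ᶠ t in atTop, cfg τ a t ρ x = δ}
      = ⋃ N : ℕ, ⋂ t : ℕ, {ρ : Cfg d | N ≤ t → cfg τ a t ρ x = δ} := by
    ext ρ
    simp only [Set.mem_ofPred_eq, Set.mem_iUnion, Set.mem_iInter, eventually_atTop]
  rw [this]
  refine MeasurableSet.iUnion fun N => MeasurableSet.iInter fun t => ?_
  by_cases h : N ≤ t
  · have e : {ρ : Cfg d | N ≤ t → cfg τ a t ρ x = δ} = (fun ρ => cfg τ a t ρ x) ⁻¹' {δ} := by
      ext ρ; simp [h]
    rw [e]
    have hc : Continuous fun ρ : Cfg d => cfg τ a t ρ x :=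
      (continuous_apply x).comp (continuous_cfg τ a t)
    exact hc.measurable (measurableSet_singleton δ)
  · have e : {ρ : Cfg d | N ≤ t → cfg τ a t ρ x = δ} = Set.univ := by
      ext ρ; simp [h]
    rw [e]
    exact MeasurableSet.univ

theorem measurable_finalCfg (τ : (Fin d → ℤ) → Equiv.Perm (Dir d)) (a : Fin d → ℤ) :
    Measurable (finalCfg τ a) := by
  rw [measurable_pi_iff]
  intro x
  refine measurable_to_countable' fun δ => ?_
  have : (fun ρ : Cfg d => finalCfg τ a ρ x) ⁻¹' {δ}
      = {ρ : Cfg d | ∀ᶠ t in atTop, cfg τ a t ρ x = δ} ∪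
        ((⋃ δ', {ρ : Cfg d | ∀ᶠ t in atTop, cfg τ a t ρ x = δ'})ᶜ ∩ {ρ : Cfg d | ρ x = δ}) := by
    ext ρ
    simp only [Set.mem_preimage, Set.mem_singleton_iff, Set.mem_union, Set.mem_ofPred_eq,
      Set.mem_inter_iff, Set.mem_compl_iff, Set.mem_iUnion]
    constructor
    · intro h
      by_cases hex : ∃ δ', ∀ᶠ t in atTop, cfg τ a t ρ x = δ'
      · left
        obtain ⟨δ', hδ'⟩ := hex
        have := finalCfg_eq τ a ρ x δ' hδ'
        rw [this] at h
        rwa [← h]
      · right
        refine ⟨hex, ?_⟩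
        unfold finalCfg at h
        rwa [dif_neg hex] at h
    · rintro (h | ⟨hex, h⟩)
      · exact finalCfg_eq τ a ρ x δ h
      · unfold finalCfg
        rw [dif_neg hex, h]
  rw [this]
  refine (measurableSet_eventually_cfg τ a x δ).union (MeasurableSet.inter ?_ ?_)
  · exact (MeasurableSet.iUnion fun δ' => measurableSet_eventually_cfg τ a x δ').compl
  · have h1 : Measurable fun ρ : Cfg d => ρ x := measurable_pi_apply x
    exact h1 (measurableSet_singleton δ)

/-- Infinite-step stationarity. -/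
structure ISS (τ : (Fin d → ℤ) → Equiv.Perm (Dir d)) (a : Fin d → ℤ) (μ : Measure (Cfg d)) :
    Prop where
  prob : IsProbabilityMeasure μ
  transient : ∀ᵐ ρ ∂μ, ∀ x, {t : ℕ | pos τ a t ρ = x}.Finite
  stationary : μ.map (finalCfg τ a) = μ

section

variable [NeZero d] (τ : (Fin d → ℤ) → Equiv.Perm (Dir d)) {u : Ultrafilter ℕ}
  {μ : Measure (Cfg d)} [IsProbabilityMeasure μ] (hu : (u : Filter ℕ) ≤ atTop)
  (hlim : ∀ f : Cfg d → ℝ, Continuous f → Tendsto (fun n => En d n f) u (𝓝 (∫ ρ, f ρ ∂μ)))

include hu hlim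

theorem mu_vis (hd : 3 ≤ d) (a x : Fin d → ℤ) (N : ℕ) :
    ∫ ρ, visI τ a x N ρ ∂μ ≤ pot (x - a) / kap d := by
  refine le_of_tendsto (hlim _ (continuous_visI τ a x N)) ?_
  have : ∀ᶠ n in atTop, En d n (visI τ a x N) ≤ pot (x - a) / kap d := by
    filter_upwards [eventually_ge_atTop (nrm a + N)] with n hn
    exact En_visI τ hd a x n N hn
  exact hu this

theorem mu_local (hd : 3 ≤ d) (a : Fin d → ℤ) (F : Finset (Fin d → ℤ)) (ε : ℝ) (hε : 0 < ε) :
    ∃ r : ℕ, ∀ f : Cfg d → ℝ, Continuous f →
      (∀ T T' : Cfg d, (∀ x ∈ F, T x = T' x) → f T = f T') →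
      (∀ T, 0 ≤ f T) → (∀ T, f T ≤ 1) → ∀ m,
      |∫ ρ, f ρ ∂μ - ∫ ρ, f (cfg τ a m ρ) ∂μ| ≤ ∫ ρ, stayI τ a r m ρ ∂μ + ε := by
  obtain ⟨r, hr⟩ := En_local τ hd a F ε hε
  refine ⟨r, fun f hfc hf hf0 hf1 m => ?_⟩
  have h1 := hlim f hfc
  have h2 := hlim (fun ρ => f (cfg τ a m ρ)) (hfc.comp (continuous_cfg τ a m))
  have h3 := (hlim _ (continuous_stayI τ a r m)).add_const ε
  exact le_of_tendsto_of_tendsto (h1.sub h2).abs h3 (hu (hr f hf hf0 hf1 m))

theorem mu_transient (hd : 3 ≤ d) (a : Fin d → ℤ) :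
    ∀ᵐ ρ ∂μ, ∀ x, {t : ℕ | pos τ a t ρ = x}.Finite := by
  rw [ae_all_iff]
  intro x
  have hmeas : ∀ t, MeasurableSet {ρ : Cfg d | pos τ a t ρ = x} := fun t =>
    (continuous_pos τ a t).measurable (measurableSet_singleton x)
  have hsum : ∑' t, μ {ρ : Cfg d | pos τ a t ρ = x} ≠ ⊤ := by
    have hle : ∑' t, μ {ρ : Cfg d | pos τ a t ρ = x}
        ≤ ENNReal.ofReal (pot (x - a) / kap d) := by
      refine ENNReal.tsum_le_of_sum_range_le fun N => ?_
      have h1 : ∑ t ∈ Finset.range N, μ {ρ : Cfg d | pos τ a t ρ = x}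
          ≤ ∑ t ∈ Finset.range (N + 1), μ {ρ : Cfg d | pos τ a t ρ = x} := by
        refine Finset.sum_le_sum_of_subset ?_
        exact Finset.range_mono (by omega)
      refine h1.trans ?_
      have h2 : ∫ ρ, visI τ a x N ρ ∂μ
          = (∑ t ∈ Finset.range (N + 1), μ {ρ : Cfg d | pos τ a t ρ = x}).toReal := by
        unfold visI
        rw [integral_finsetSum, ENNReal.toReal_sum (fun t _ => measure_ne_top _ _),
          Finset.sum_range]
        · refine Finset.sum_congr rfl fun t _ => ?_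
          have : (fun ρ : Cfg d => if pos τ a t ρ = x then (1 : ℝ) else 0)
              = Set.indicator {ρ : Cfg d | pos τ a t ρ = x} 1 := by
            funext ρ
            simp [Set.indicator_apply]
          rw [this, integral_indicator_one (hmeas t)]
          rfl
        · intro t _
          have : (fun ρ : Cfg d => if pos τ a t ρ = x then (1 : ℝ) else 0)
              = Set.indicator {ρ : Cfg d | pos τ a t ρ = x} 1 := by
            funext ρ
            simp [Set.indicator_apply]
          rw [this]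
          exact (integrable_const (1 : ℝ)).indicator (hmeas t)
      have h3 := mu_vis τ hu hlim hd a x N
      rw [h2] at h3
      rw [ENNReal.le_ofReal_iff_toReal_le _ _]
      · exact h3
      · exact ENNReal.sum_ne_top.2 fun t _ => measure_ne_top _ _
      · exact div_nonneg (pot_pos _).le (kap_pos hd).le
    exact ne_top_of_le_ne_top ENNReal.ofReal_ne_top hle
  exact ae_finite_setOfPred_mem hsum

theorem mu_iss (hd : 3 ≤ d) (a : Fin d → ℤ) : ISS τ a μ := by
  classical
  have htr := mu_transient τ hu hlim hd a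
  refine ⟨inferInstance, htr, ?_⟩
  -- rotors stabilise
  have hstab : ∀ᵐ ρ ∂μ, ∀ x, ∀ᶠ t in atTop, cfg τ a t ρ x = finalCfg τ a ρ x := by
    filter_upwards [htr] with ρ hρ x
    obtain ⟨B, hB⟩ := (hρ x).bddAbove
    have hconst : ∀ t, B + 1 ≤ t → cfg τ a t ρ x = cfg τ a (B + 1) ρ x := by
      intro t ht
      induction t, ht using Nat.le_induction with
      | base => rfl
      | succ t ht ih =>
        rw [← ih]
        unfold cfg
        rw [iterate_succ_apply']
        unfold stp
        simp only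
        rw [update_of_ne]
        intro h
        have := hB (show t ∈ {t : ℕ | pos τ a t ρ = x} from h.symm)
        omega
    have hev : ∀ᶠ t in atTop, cfg τ a t ρ x = cfg τ a (B + 1) ρ x := by
      filter_upwards [eventually_ge_atTop (B + 1)] with t ht
      exact hconst t ht
    have := finalCfg_eq τ a ρ x _ hev
    rw [this]
    exact hev
  -- the walk leaves every box
  have hstay : ∀ r, Tendsto (fun m => ∫ ρ, stayI τ a r m ρ ∂μ) atTop (𝓝 0) := by
    intro r
    have hint : ∫ _ρ : Cfg d, (0 : ℝ) ∂μ = 0 := by simp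
    rw [← hint]
    refine tendsto_integral_of_dominated_convergence (fun _ => 1)
      (fun m => (continuous_stayI τ a r m).aestronglyMeasurable) (integrable_const _)
      (fun m => ae_of_all _ fun ρ => ?_) ?_
    · unfold stayI
      split_ifs <;> simp
    · filter_upwards [htr] with ρ hρ
      have hfin : {t : ℕ | pos τ a t ρ ∈ box d r}.Finite := by
        have : {t : ℕ | pos τ a t ρ ∈ box d r}
            = ⋃ x ∈ (box d r : Set (Fin d → ℤ)), {t : ℕ | pos τ a t ρ = x} := by
          ext t
          simp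
        rw [this]
        exact (Finset.finite_toSet _).biUnion fun x _ => hρ x
      obtain ⟨B, hB⟩ := hfin.bddAbove
      refine tendsto_const_nhds.congr' ?_
      filter_upwards [eventually_ge_atTop (B + 1)] with m hm
      unfold stayI
      rw [if_neg]
      intro h
      have h1 := h ⟨B + 1, by omega⟩
      have := hB (show B + 1 ∈ {t : ℕ | pos τ a t ρ ∈ box d r} from h1)
      omega
  -- equality on local functions
  have hloc : ∀ (F : Finset (Fin d → ℤ)) (f : Cfg d → ℝ), Continuous f →
      (∀ T T' : Cfg d, (∀ x ∈ F, T x = T' x) → f T = f T') →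
      (∀ T, 0 ≤ f T) → (∀ T, f T ≤ 1) →
      ∫ ρ, f ρ ∂μ = ∫ ρ, f (finalCfg τ a ρ) ∂μ := by
    intro F f hfc hf hf0 hf1
    have hlim2 : Tendsto (fun m => ∫ ρ, f (cfg τ a m ρ) ∂μ) atTop
        (𝓝 (∫ ρ, f (finalCfg τ a ρ) ∂μ)) := by
      refine tendsto_integral_of_dominated_convergence (fun _ => 1)
        (fun m => (hfc.comp (continuous_cfg τ a m)).aestronglyMeasurable) (integrable_const _)
        (fun m => ae_of_all _ fun ρ => ?_) ?_
      · rw [Real.norm_eq_abs, abs_of_nonneg (hf0 _)]
        exact hf1 _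
      · filter_upwards [hstab] with ρ hρ
        refine tendsto_const_nhds.congr' ?_
        have : ∀ᶠ t in atTop, ∀ x ∈ F, cfg τ a t ρ x = finalCfg τ a ρ x := by
          rw [Filter.eventually_all_finset]
          exact fun x _ => hρ x
        filter_upwards [this] with t ht
        exact (hf _ _ ht).symm
    have habs : |∫ ρ, f ρ ∂μ - ∫ ρ, f (finalCfg τ a ρ) ∂μ| ≤ 0 := by
      refine le_of_forall_pos_le_add fun ε hε => ?_
      obtain ⟨r, hr⟩ := mu_local τ hu hlim hd a F ε hε
      have h1 := fun m => hr f hfc hf hf0 hf1 m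
      exact le_of_tendsto_of_tendsto' ((tendsto_const_nhds.sub hlim2).abs)
        ((hstay r).add_const ε) h1
    have := abs_nonpos_iff.1 habs
    linarith
  -- conclude on cylinders
  have hmeas := measurable_finalCfg τ a
  haveI : IsProbabilityMeasure (μ.map (finalCfg τ a)) :=
    Measure.isProbabilityMeasure_map hmeas.aemeasurable
  refine ext_of_generate_finite (measurableCylinders fun _ : Fin d → ℤ => Dir d)
    generateFrom_measurableCylinders.symm isPiSystem_measurableCylinders ?_ (by simp)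
  intro s hs
  obtain ⟨F, S, hS, rfl⟩ := (mem_measurableCylinders s).1 hs
  have hcyl : MeasurableSet (cylinder (α := fun _ : Fin d → ℤ => Dir d) F S) :=
    MeasurableSet.cylinder (α := fun _ : Fin d → ℤ => Dir d) F hS
  rw [Measure.map_apply hmeas hcyl]
  set f : Cfg d → ℝ := fun ρ => if F.restrict ρ ∈ S then 1 else 0 with hf
  have hfc : Continuous f := by
    have h1 : Continuous fun ρ : Cfg d => F.restrict ρ :=
      continuous_pi fun x => continuous_apply _
    exact (continuous_of_discreteTopology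
      (f := fun y : (∀ x : F, Dir d) => if y ∈ S then (1 : ℝ) else 0)).comp h1
  have key := hloc F f hfc (by
    intro T T' h
    rw [hf]
    have : F.restrict T = F.restrict T' := by
      funext x
      exact h x x.2
    simp only [this]) (fun T => by rw [hf]; simp only; split_ifs <;> norm_num)
    (fun T => by rw [hf]; simp only; split_ifs <;> norm_num)
  have e1 : ∫ ρ, f ρ ∂μ = (μ (cylinder F S)).toReal := by
    have : f = Set.indicator (cylinder F S) 1 := by
      funext ρ
      rw [hf]
      simp only [Set.indicator_apply, mem_cylinder, Pi.one_apply]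
    rw [this, integral_indicator_one hcyl]
    rfl
  have e2 : ∫ ρ, f (finalCfg τ a ρ) ∂μ = (μ (finalCfg τ a ⁻¹' cylinder F S)).toReal := by
    have : (fun ρ => f (finalCfg τ a ρ)) = Set.indicator (finalCfg τ a ⁻¹' cylinder F S) 1 := by
      funext ρ
      rw [hf]
      simp only [Set.indicator_apply, Set.mem_preimage, mem_cylinder, Pi.one_apply]
    rw [this, integral_indicator_one (hmeas hcyl)]
    rfl
  rw [e1, e2] at key
  have := (ENNReal.toReal_eq_toReal_iff' (measure_ne_top _ _) (measure_ne_top _ _)).1 key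
  exact this.symm

end

/-- There is a measure which is infinite-step stationary for all mechanisms and all starting
vertices. -/
theorem exists_iss (hd : 3 ≤ d) : ∃ μ : Measure (Cfg d), ∀ (τ : (Fin d → ℤ) → Equiv.Perm (Dir d))
    (a : Fin d → ℤ), ISS τ a μ := by
  haveI : NeZero d := ⟨by omega⟩
  obtain ⟨u, μ, hμ, hu, hlim⟩ := exists_limit d
  haveI := hμ
  exact ⟨μ, fun τ a => mu_iss τ hu hlim hd a⟩

end Pool.Agent.MP_c09afc_pr
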