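import Pool.Agent.MP_c09afc_pr.HFun
import Pool.Agent.MP_c09afc_pr.Limit3

set_option linter.unusedSectionVars false
set_option linter.unusedSimpArgs false
set_option linter.unusedVariables false

namespace Pool.Agent.MP_c09afc_pr

open Finset Function Filter Topology MeasureTheory

section cyc

variable {α : Type*} [Fintype α] [DecidableEq α]

theorem sum_cycle (σ : Equiv.Perm α) (hσ : ∀ a b, σ.SameCycle a b) (a0 : α) (f : α → ℝ) :
    ∑ j ∈ range (Fintype.card α), f ((σ ^ (j + 1)) a0) = ∑ a, f a := by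
  have hc : σ.IsCycleOn ((Finset.univ : Finset α) : Set α) := by
    refine ⟨?_, fun a _ b _ => hσ a b⟩
    rw [Finset.coe_univ]
    exact Set.bijOn_univ.2 σ.bijective
  rw [← Finset.sum_image (f := f) (g := fun j => (σ ^ (j + 1)) a0) (s := range (Fintype.card α))]
  · congr 1
    apply Finset.eq_univ_of_forall
    intro b
    obtain ⟨n, hn, hnb⟩ := hc.exists_pow_eq (Finset.mem_univ (σ a0)) (Finset.mem_univ b)
    rw [Finset.mem_image]
    refine ⟨n, by simpa using hn, ?_⟩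
    rw [pow_succ, Equiv.Perm.mul_apply]
    exact hnb
  · intro i hi j hj hij
    simp only [Finset.coe_range, Set.mem_Iio] at hi hj
    have h := (hc.pow_apply_eq_pow_apply (Finset.mem_univ a0)).1 hij
    rw [Finset.card_univ] at h
    have h2 : i ≡ j [MOD Fintype.card α] := Nat.ModEq.add_right_cancel' 1 h
    exact Nat.ModEq.eq_of_lt_of_lt h2 hi hj

theorem exists_phi (σ : Equiv.Perm α) (hσ : ∀ a b, σ.SameCycle a b) (g : α → ℝ)
    (hg : ∃ k : ℤ, ∑ a, g a = (k : ℝ)) :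
    ∃ φ : α → ℝ, (∀ a, ∃ k : ℤ, φ (σ a) - φ a - g (σ a) = (k : ℝ)) ∧
      ∀ a, |φ a| ≤ ∑ b, |g b| := by
  classical
  rcases isEmpty_or_nonempty α with hα | ⟨⟨a0⟩⟩
  · exact ⟨fun _ => 0, fun a => (hα.false a).elim, fun a => (hα.false a).elim⟩
  have hc : σ.IsCycleOn ((Finset.univ : Finset α) : Set α) := by
    refine ⟨?_, fun a _ b _ => hσ a b⟩
    rw [Finset.coe_univ]
    exact Set.bijOn_univ.2 σ.bijective
  have hex : ∀ a, ∃ n < Fintype.card α, (σ ^ n) a0 = a := fun a => by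
    have := hc.exists_pow_eq (Finset.mem_univ a0) (Finset.mem_univ a)
    rwa [Finset.card_univ] at this
  choose n hn hna using hex
  refine ⟨fun a => ∑ j ∈ range (n a), g ((σ ^ (j + 1)) a0), ?_, ?_⟩
  · intro a
    have h1 : (σ ^ (n (σ a))) a0 = (σ ^ (n a + 1)) a0 := by
      rw [hna, pow_succ', Equiv.Perm.mul_apply, hna]
    have h2 := (hc.pow_apply_eq_pow_apply (Finset.mem_univ a0)).1 h1
    rw [Finset.card_univ] at h2
    by_cases hlt : n a + 1 < Fintype.card α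
    · have h3 := Nat.ModEq.eq_of_lt_of_lt h2 (hn _) hlt
      refine ⟨0, ?_⟩
      simp only
      rw [h3, Finset.sum_range_succ]
      have : (σ ^ (n a + 1)) a0 = σ a := by rw [← h1, hna]
      rw [this]
      simp
    · have hN : n a + 1 = Fintype.card α := by have := hn a; omega
      have h3 : n (σ a) = 0 := by
        have h4 : n (σ a) ≡ 0 [MOD Fintype.card α] := by
          rw [hN] at h2
          exact h2.trans (by simp [Nat.ModEq])
        exact Nat.ModEq.eq_of_lt_of_lt h4 (hn _) (by omega)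
      obtain ⟨k, hk⟩ := hg
      refine ⟨-k, ?_⟩
      have h5 := sum_cycle σ hσ a0 g
      rw [← hN, Finset.sum_range_succ] at h5
      have : (σ ^ (n a + 1)) a0 = σ a := by rw [← h1, hna]
      rw [this] at h5
      simp only
      rw [h3]
      simp only [Finset.range_zero, Finset.sum_empty]
      rw [Int.cast_neg, ← hk]
      linarith
  · intro a
    refine (Finset.abs_sum_le_sum_abs _ _).trans ?_
    rw [← sum_cycle σ hσ a0 (fun b => |g b|)]
    exact Finset.sum_le_sum_of_subset_of_nonneg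
      (Finset.range_mono (hn a).le) fun _ _ _ => abs_nonneg _

end cyc

variable {d : ℕ}

theorem nbr_injective (δ : Dir d) : Function.Injective fun x : Fin d → ℤ => nbr x δ := by
  intro x y h
  have := congrArg (fun z => nbr z (opp δ)) h
  simpa only [nbr_opp] using this

theorem nbr_dir_injective (x : Fin d → ℤ) : Function.Injective fun δ : Dir d => nbr x δ := by
  intro δ δ' h
  obtain ⟨i, b⟩ := δ
  obtain ⟨j, c⟩ := δ'
  simp only at h
  have hi := congrFun h i
  have hj := congrFun h j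
  unfold nbr at hi hj
  simp only [update_self] at hi hj
  by_cases hij : i = j
  · subst hij
    rw [update_self] at hi
    cases b <;> cases c <;> simp_all
  · rw [update_of_ne hij] at hi
    split_ifs at hi <;> omega

/-- The existence of the conserved potential. -/
theorem exists_F (τ : (Fin d → ℤ) → Equiv.Perm (Dir d)) (hτ : ∀ x δ δ', (τ x).SameCycle δ δ')
    (h : (Fin d → ℤ) → ℝ) (hsum : Summable fun x => |h x|)
    (hlap : ∀ x, ∃ k : ℤ, 2 * (d : ℝ) * h x - ∑ δ : Dir d, h (nbr x δ) = (k : ℝ)) :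
    ∃ F : Cfg d → ℝ, Continuous F ∧ ∀ y ρ, ∃ k : ℤ,
      h (stp nbr τ (y, ρ)).1 + F (stp nbr τ (y, ρ)).2 = h y + F ρ + k := by
  classical
  have hphi : ∀ x, ∃ φ : Dir d → ℝ,
      (∀ δ, ∃ k : ℤ, φ (τ x δ) - φ δ - (h x - h (nbr x (τ x δ))) = (k : ℝ)) ∧
      ∀ δ, |φ δ| ≤ ∑ δ' : Dir d, |h x - h (nbr x δ')| := by
    intro x
    refine exists_phi (τ x) (hτ x) (fun δ => h x - h (nbr x δ)) ?_
    obtain ⟨k, hk⟩ := hlap x
    refine ⟨k, ?_⟩
    rw [Finset.sum_sub_distrib, ← hk, Finset.sum_const, Finset.card_univ, nsmul_eq_mul, card_dir]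
  choose φ hφ1 hφ2 using hphi
  have hb : Summable fun x => ∑ δ' : Dir d, |h x - h (nbr x δ')| := by
    refine summable_sum fun δ _ => ?_
    have e2 : Summable fun x => |h (nbr x δ)| := hsum.comp_injective (nbr_injective δ)
    exact Summable.of_nonneg_of_le (fun _ => abs_nonneg _) (fun x => abs_sub _ _) (hsum.add e2)
  have hsumF : ∀ ρ : Cfg d, Summable fun x => φ x (ρ x) := fun ρ =>
    Summable.of_abs (Summable.of_nonneg_of_le (fun _ => abs_nonneg _) (fun x => hφ2 x _) hb)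
  refine ⟨fun ρ => ∑' x, φ x (ρ x), ?_, ?_⟩
  · refine continuous_tsum (fun x => ?_) hb (fun x ρ => ?_)
    · exact (continuous_of_discreteTopology (f := φ x)).comp (continuous_apply x)
    · rw [Real.norm_eq_abs]
      exact hφ2 x _
  · intro y ρ
    obtain ⟨k, hk⟩ := hφ1 y (ρ y)
    refine ⟨k, ?_⟩
    have e : (∑' x, φ x ((stp nbr τ (y, ρ)).2 x)) - ∑' x, φ x (ρ x)
        = φ y (τ y (ρ y)) - φ y (ρ y) := by
      rw [← Summable.tsum_sub (hsumF _) (hsumF _), tsum_eq_single y]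
      · simp [stp]
      · intro x hx
        simp [stp, update_of_ne hx]
    have e1 : (stp nbr τ (y, ρ)).1 = nbr y (τ y (ρ y)) := rfl
    rw [e1]
    linarith

theorem pos_cfg_stp (τ : (Fin d → ℤ) → Equiv.Perm (Dir d)) (a : Fin d → ℤ) (ρ : Cfg d) (t : ℕ) :
    (pos τ a (t + 1) ρ, cfg τ a (t + 1) ρ) = stp nbr τ (pos τ a t ρ, cfg τ a t ρ) := by
  unfold pos cfg
  rw [iterate_succ_apply']

theorem conserved (τ : (Fin d → ℤ) → Equiv.Perm (Dir d)) (h : (Fin d → ℤ) → ℝ) (F : Cfg d → ℝ)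
    (hF : ∀ y ρ, ∃ k : ℤ, h (stp nbr τ (y, ρ)).1 + F (stp nbr τ (y, ρ)).2 = h y + F ρ + k)
    (a : Fin d → ℤ) (ρ : Cfg d) (t : ℕ) :
    ∃ k : ℤ, h (pos τ a t ρ) + F (cfg τ a t ρ) = h a + F ρ + k := by
  induction t with
  | zero => exact ⟨0, by simp [pos, cfg]⟩
  | succ t ih =>
    obtain ⟨k, hk⟩ := ih
    obtain ⟨k', hk'⟩ := hF (pos τ a t ρ) (cfg τ a t ρ)
    rw [← pos_cfg_stp] at hk'
    refine ⟨k + k', ?_⟩
    rw [hk', hk]
    push_cast
    ring

theorem tendsto_pos (τ : (Fin d → ℤ) → Equiv.Perm (Dir d)) (a : Fin d → ℤ) (ρ : Cfg d)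
    (hρ : ∀ x, {t : ℕ | pos τ a t ρ = x}.Finite) :
    Tendsto (fun t => pos τ a t ρ) atTop cofinite := by
  rw [← Nat.cofinite_eq_atTop]
  intro s hs
  rw [Filter.mem_cofinite] at hs
  rw [Filter.mem_map, Filter.mem_cofinite]
  have : ((fun t => pos τ a t ρ) ⁻¹' s)ᶜ = ⋃ x ∈ sᶜ, {t : ℕ | pos τ a t ρ = x} := by
    ext t
    simp
  rw [this]
  exact hs.biUnion fun x _ => hρ x

theorem eventually_cfg (τ : (Fin d → ℤ) → Equiv.Perm (Dir d)) (a : Fin d → ℤ) (ρ : Cfg d)
    (hρ : ∀ x, {t : ℕ | pos τ a t ρ = x}.Finite) (x : Fin d → ℤ) :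
    ∀ᶠ t in atTop, cfg τ a t ρ x = finalCfg τ a ρ x := by
  obtain ⟨B, hB⟩ := (hρ x).bddAbove
  have hconst : ∀ t, B + 1 ≤ t → cfg τ a t ρ x = cfg τ a (B + 1) ρ x := by
    intro t ht
    induction t, ht using Nat.le_induction with
    | base => rfl
    | succ t ht ih =>
      rw [← ih]
      unfold cfg
      rw [iterate_succ_apply']
      unfold stp
      simp only
      rw [update_of_ne]
      intro h
      have := hB (show t ∈ {t : ℕ | pos τ a t ρ = x} from h.symm)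
      omega
  have hev : ∀ᶠ t in atTop, cfg τ a t ρ x = cfg τ a (B + 1) ρ x := by
    filter_upwards [eventually_ge_atTop (B + 1)] with t ht
    exact hconst t ht
  have := finalCfg_eq τ a ρ x _ hev
  rw [this]
  exact hev

theorem tendsto_cfg (τ : (Fin d → ℤ) → Equiv.Perm (Dir d)) (a : Fin d → ℤ) (ρ : Cfg d)
    (hρ : ∀ x, {t : ℕ | pos τ a t ρ = x}.Finite) :
    Tendsto (fun t => cfg τ a t ρ) atTop (𝓝 (finalCfg τ a ρ)) := by
  rw [tendsto_pi_nhds]
  intro x
  refine tendsto_const_nhds.congr' ?_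
  filter_upwards [eventually_cfg τ a ρ hρ x] with t ht
  exact ht.symm

/-- The invariant on the circle. -/
theorem inv_limit (τ : (Fin d → ℤ) → Equiv.Perm (Dir d)) (h : (Fin d → ℤ) → ℝ) (F : Cfg d → ℝ)
    (hsum : Summable fun x => |h x|) (hFc : Continuous F)
    (hF : ∀ y ρ, ∃ k : ℤ, h (stp nbr τ (y, ρ)).1 + F (stp nbr τ (y, ρ)).2 = h y + F ρ + k)
    (a : Fin d → ℤ) (ρ : Cfg d) (hρ : ∀ x, {t : ℕ | pos τ a t ρ = x}.Finite) :
    ((F (finalCfg τ a ρ) : ℝ) : AddCircle (1 : ℝ)) = ((h a + F ρ : ℝ) : AddCircle (1 : ℝ)) := by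
  have h1 : Tendsto (fun t => h (pos τ a t ρ) + F (cfg τ a t ρ)) atTop
      (𝓝 (0 + F (finalCfg τ a ρ))) := by
    refine Tendsto.add ?_ ?_
    · have h2 : Tendsto h cofinite (𝓝 0) := (tendsto_zero_iff_abs_tendsto_zero _).2
        hsum.tendsto_cofinite_zero
      exact h2.comp (tendsto_pos τ a ρ hρ)
    · exact (hFc.tendsto _).comp (tendsto_cfg τ a ρ hρ)
  rw [zero_add] at h1
  have h2 : Tendsto (fun t => ((h (pos τ a t ρ) + F (cfg τ a t ρ) : ℝ) : AddCircle (1 : ℝ))) atTop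
      (𝓝 ((F (finalCfg τ a ρ) : ℝ) : AddCircle (1 : ℝ))) :=
    ((AddCircle.continuous_mk' (1 : ℝ)).tendsto _).comp h1
  have h3 : ∀ t, ((h (pos τ a t ρ) + F (cfg τ a t ρ) : ℝ) : AddCircle (1 : ℝ))
      = ((h a + F ρ : ℝ) : AddCircle (1 : ℝ)) := by
    intro t
    obtain ⟨k, hk⟩ := conserved τ h F hF a ρ t
    rw [hk, AddCircle.coe_add]
    have : ((k : ℝ) : AddCircle (1 : ℝ)) = 0 := by
      rw [AddCircle.coe_eq_zero_iff]
      exact ⟨k, by simp⟩
    rw [this, add_zero]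
  exact tendsto_nhds_unique h2 (tendsto_const_nhds.congr fun t => (h3 t).symm)

end Pool.Agent.MP_c09afc_pr
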