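import Pool.Agent.MP_c09afc_pr.OneEnd

set_option linter.unusedSectionVars false
set_option linter.unusedSimpArgs false
set_option linter.unusedVariables false

namespace Pool.Agent.MP_c09afc_pr

open Function Finset

/-- Directions of the lattice: `(i, true)` is `+e_i`, `(i, false)` is `-e_i`. -/
abbrev Dir (d : ℕ) := Fin d × Bool

/-- The neighbour of `x` in direction `δ`. -/
def nbr {d : ℕ} (x : Fin d → ℤ) (δ : Dir d) : Fin d → ℤ :=
  update x δ.1 (x δ.1 + if δ.2 then 1 else -1)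

/-- Opposite direction. -/
def opp {d : ℕ} (δ : Dir d) : Dir d := (δ.1, !δ.2)

theorem opp_opp {d : ℕ} (δ : Dir d) : opp (opp δ) = δ := by
  simp [opp]

theorem nbr_opp {d : ℕ} (x : Fin d → ℤ) (δ : Dir d) : nbr (nbr x δ) (opp δ) = x := by
  obtain ⟨i, b⟩ := δ
  unfold nbr opp
  cases b <;> simp

theorem nbr_ne {d : ℕ} (x : Fin d → ℤ) (δ : Dir d) : nbr x δ ≠ x := by
  intro h
  have := congrFun h δ.1
  unfold nbr at this
  rw [update_self] at this
  split_ifs at this <;> omega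

/-- Squared Euclidean length. -/
def sq {d : ℕ} (x : Fin d → ℤ) : ℤ := ∑ i, x i ^ 2

theorem sq_nonneg' {d : ℕ} (x : Fin d → ℤ) : 0 ≤ sq x := Finset.sum_nonneg fun i _ => sq_nonneg _

theorem sq_nbr {d : ℕ} (x : Fin d → ℤ) (δ : Dir d) :
    sq (nbr x δ) = sq x + 1 + (if δ.2 then 2 * x δ.1 else - (2 * x δ.1)) := by
  unfold sq
  have h : ∀ y : Fin d → ℤ, ∑ i, y i ^ 2 = y δ.1 ^ 2 + ∑ i ∈ Finset.univ.erase δ.1, y i ^ 2 :=
    fun y => (Finset.add_sum_erase _ _ (Finset.mem_univ _)).symm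
  rw [h (nbr x δ), h x]
  have h2 : ∑ i ∈ Finset.univ.erase δ.1, nbr x δ i ^ 2 = ∑ i ∈ Finset.univ.erase δ.1, x i ^ 2 := by
    refine Finset.sum_congr rfl fun i hi => ?_
    unfold nbr
    rw [update_of_ne (Finset.ne_of_mem_erase hi)]
  rw [h2]
  unfold nbr
  rw [update_self]
  split_ifs <;> ring

theorem sq_le_of_coord {d : ℕ} (x : Fin d → ℤ) (i : Fin d) : x i ^ 2 ≤ sq x :=
  Finset.single_le_sum (f := fun i => x i ^ 2) (fun i _ => sq_nonneg _) (Finset.mem_univ i)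

/-- The potential. -/
noncomputable def pot {d : ℕ} (x : Fin d → ℤ) : ℝ := (√√((sq x : ℝ) + 99))⁻¹

theorem root4_pow {t : ℝ} (ht : 0 ≤ t) : (√√t) ^ 4 = t := by
  have h1 : (√√t) ^ 2 = √t := Real.sq_sqrt (Real.sqrt_nonneg _)
  have h2 : (√t) ^ 2 = t := Real.sq_sqrt ht
  calc (√√t) ^ 4 = ((√√t) ^ 2) ^ 2 := by ring
    _ = t := by rw [h1, h2]

theorem pot_pos {d : ℕ} (x : Fin d → ℤ) : 0 < pot x := by
  unfold pot
  have h : (0 : ℝ) ≤ sq x := by exact_mod_cast sq_nonneg' x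
  have : 0 < (sq x : ℝ) + 99 := by linarith
  positivity

theorem poly_ineq {u : ℝ} (hu : |u| ≤ 1 / 10) :
    1 ≤ (1 + u) * (1 - u / 4 + 3 * u ^ 2 / 16) ^ 4 := by
  have h1 : -(1 / 10) ≤ u := (abs_le.1 hu).1
  have h2 : u ≤ 1 / 10 := (abs_le.1 hu).2
  nlinarith [sq_nonneg u, sq_nonneg (u ^ 2), mul_nonneg (sq_nonneg u) (sq_nonneg u), sq_nonneg (u * (1 + u)), sq_nonneg (u ^ 3), sq_nonneg (u^4)]

/-- Upper bound of the potential at a neighbour. -/
theorem pot_nbr_le {d : ℕ} (x : Fin d → ℤ) (δ : Dir d) :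
    pot (nbr x δ) ≤ (√√((sq x : ℝ) + 100))⁻¹ *
      (1 - (if δ.2 then 2 * (x δ.1 : ℝ) else - (2 * (x δ.1 : ℝ))) / ((sq x : ℝ) + 100) / 4
        + 3 * ((if δ.2 then 2 * (x δ.1 : ℝ) else - (2 * (x δ.1 : ℝ))) / ((sq x : ℝ) + 100)) ^ 2 / 16) := by
  set s : ℝ := if δ.2 then 2 * (x δ.1 : ℝ) else - (2 * (x δ.1 : ℝ)) with hs
  set B : ℝ := (sq x : ℝ) + 100 with hB
  have hsq0 : (0 : ℝ) ≤ sq x := by exact_mod_cast sq_nonneg' x
  have hBpos : 0 < B := by linarith
  have hcoord : ((x δ.1 : ℝ)) ^ 2 ≤ sq x := by exact_mod_cast sq_le_of_coord x δ.1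
  have hs2 : s ^ 2 = 4 * (x δ.1 : ℝ) ^ 2 := by
    rw [hs]; split_ifs <;> ring
  have hu : |s / B| ≤ 1 / 10 := by
    rw [abs_div, abs_of_pos hBpos, div_le_iff₀ hBpos]
    apply abs_le_of_sq_le_sq _ (by linarith)
    rw [hs2]
    nlinarith [sq_nonneg ((x δ.1 : ℝ) ^ 2 - 100), sq_nonneg ((sq x : ℝ) - 100)]
  have hp := poly_ineq hu
  set u : ℝ := s / B with hudef
  have hsB : s = B * u := by rw [hudef]; field_simp
  have hq : (sq (nbr x δ) : ℝ) + 99 = B * (1 + u) := by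
    rw [sq_nbr]
    push_cast
    rw [← hs, mul_add, mul_one, ← hsB, hB]
    ring
  have hu1 : -(1 / 10) ≤ u := (abs_le.1 hu).1
  have hu2 : u ≤ 1 / 10 := (abs_le.1 hu).2
  have hP : 0 < 1 - u / 4 + 3 * u ^ 2 / 16 := by nlinarith [sq_nonneg u]
  unfold pot
  rw [hq]
  have h1u : 0 < 1 + u := by linarith
  have hb : 0 < √√B := by positivity
  have ha : 0 < √√(B * (1 + u)) := by positivity
  rw [inv_le_iff_one_le_mul₀ ha, mul_assoc, ← div_eq_inv_mul, le_div_iff₀ hb, one_mul]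
  refine le_of_pow_le_pow_left₀ (n := 4) (by norm_num) (by positivity) ?_
  rw [mul_pow, root4_pow hBpos.le, root4_pow (by positivity)]
  calc B = B * 1 := (mul_one B).symm
    _ ≤ B * ((1 + u) * (1 - u / 4 + 3 * u ^ 2 / 16) ^ 4) := mul_le_mul_of_nonneg_left hp hBpos.le
    _ = _ := by ring

theorem card_dir (d : ℕ) : (Fintype.card (Dir d) : ℝ) = 2 * d := by
  simp [Dir, mul_comm]

/-- Strict superharmonicity of the potential. -/
theorem avg_pot_lt {d : ℕ} (hd : 3 ≤ d) (x : Fin d → ℤ) : avg nbr pot x < pot x := by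
  have hsq0 : (0 : ℝ) ≤ sq x := by exact_mod_cast sq_nonneg' x
  set B : ℝ := (sq x : ℝ) + 100 with hB
  have hBpos : 0 < B := by linarith
  have hB100 : 100 ≤ B := by linarith
  have hd' : (3 : ℝ) ≤ d := by exact_mod_cast hd
  have hd0 : (0 : ℝ) < d := by linarith
  have hb : 0 < √√B := by positivity
  -- sum over the directions
  have hsum : ∑ δ : Dir d, pot (nbr x δ)
      ≤ (√√B)⁻¹ * (2 * d + 3 * (sq x : ℝ) / (2 * B ^ 2)) := by
    calc ∑ δ : Dir d, pot (nbr x δ)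
        ≤ ∑ δ : Dir d, (√√B)⁻¹ * (1 - (if δ.2 then 2 * (x δ.1 : ℝ) else - (2 * (x δ.1 : ℝ))) / B / 4
        + 3 * ((if δ.2 then 2 * (x δ.1 : ℝ) else - (2 * (x δ.1 : ℝ))) / B) ^ 2 / 16) :=
          Finset.sum_le_sum fun δ _ => pot_nbr_le x δ
      _ = (√√B)⁻¹ * (2 * d + 3 * (sq x : ℝ) / (2 * B ^ 2)) := by
          rw [← Finset.mul_sum]
          congr 1
          rw [Fintype.sum_prod_type]
          have : ∀ i : Fin d, ∑ b : Bool, (1 - (if (i, b).2 then 2 * (x (i, b).1 : ℝ)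
              else - (2 * (x (i, b).1 : ℝ))) / B / 4
              + 3 * ((if (i, b).2 then 2 * (x (i, b).1 : ℝ) else - (2 * (x (i, b).1 : ℝ))) / B) ^ 2
                / 16) = 2 + 3 / (2 * B ^ 2) * (x i : ℝ) ^ 2 := by
            intro i
            rw [Fintype.sum_bool]
            simp only [if_true, Bool.false_eq_true, if_false]
            field_simp
            ring
          rw [Finset.sum_congr rfl fun i _ => this i, Finset.sum_add_distrib, ← Finset.mul_sum]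
          have e : (∑ i, (x i : ℝ) ^ 2) = sq x := by unfold sq; push_cast; rfl
          rw [e]
          simp
          ring
  have h1 : avg nbr pot x ≤ (√√B)⁻¹ * (1 + 3 * (sq x : ℝ) / (4 * d * B ^ 2)) := by
    unfold avg
    rw [card_dir, div_le_iff₀ (by positivity)]
    refine hsum.trans (le_of_eq ?_)
    field_simp
    ring
  have h2 : 3 * (sq x : ℝ) / (4 * d * B ^ 2) < 1 / (4 * B) := by
    rw [div_lt_div_iff₀ (by positivity) (by positivity)]
    have : 3 * (sq x : ℝ) < d * B := by nlinarith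
    nlinarith [mul_pos hBpos hBpos]
  have h3 : (√√B)⁻¹ * (1 + 1 / (4 * B)) ≤ pot x := by
    unfold pot
    have hA : (sq x : ℝ) + 99 = B - 1 := by rw [hB]; ring
    rw [hA]
    have hApos : 0 < B - 1 := by linarith
    have ha : 0 < √√(B - 1) := by positivity
    rw [← div_eq_inv_mul, div_le_iff₀ hb, ← div_eq_inv_mul, le_div_iff₀ ha]
    refine le_of_pow_le_pow_left₀ (n := 4) (by norm_num) hb.le ?_
    rw [mul_pow, root4_pow hBpos.le, root4_pow hApos.le]
    set t : ℝ := 1 / B with ht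
    have ht0 : 0 < t := by positivity
    have hBt : B = 1 / t := by rw [ht]; field_simp
    have e1 : (1 : ℝ) / (4 * B) = t / 4 := by rw [ht]; field_simp
    rw [e1]
    have : (1 + t / 4) ^ 4 * (1 - t) ≤ 1 := by
      nlinarith [pow_pos ht0 2, pow_pos ht0 3, pow_pos ht0 4, pow_pos ht0 5]
    calc (1 + t / 4) ^ 4 * (B - 1) = (1 + t / 4) ^ 4 * (1 - t) * B := by
          rw [hBt]; field_simp
      _ ≤ 1 * B := mul_le_mul_of_nonneg_right this hBpos.le
      _ = B := one_mul B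
  have h4 : (√√B)⁻¹ * (1 + 3 * (sq x : ℝ) / (4 * d * B ^ 2))
      < (√√B)⁻¹ * (1 + 1 / (4 * B)) := by
    apply mul_lt_mul_of_pos_left _ (by positivity)
    linarith
  linarith

end Pool.Agent.MP_c09afc_pr
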