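import Pool.Agent.MP_c09afc_pr.RetBound

set_option linter.unusedSectionVars false
set_option linter.unusedSimpArgs false
set_option linter.unusedVariables false

namespace Pool.Agent.MP_c09afc_pr

open Function Finset Filter Topology MeasureTheory

/-- Rotor configurations, encoded by directions. -/
abbrev Cfg (d : ℕ) := (Fin d → ℤ) → Dir d

theorem nrm_zero {d : ℕ} : nrm (0 : Fin d → ℤ) = 0 := by
  have := (nrm_le_iff (x := (0 : Fin d → ℤ)) (n := 0)).2 (by simp)
  omega

/-- The origin as a vertex of the box. -/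
noncomputable def base (d n : ℕ) : (box d n : Finset (Fin d → ℤ)) :=
  ⟨0, by rw [mem_box, nrm_zero]; omega⟩

/-- Expectation under the uniform measure on acyclic configurations in the box. -/
noncomputable def En (d n : ℕ) [NeZero d] (f : Cfg d → ℝ) : ℝ :=
  (∑ T ∈ Wn d n, ac nbr (box d n) (base d n) T * f T) / tot nbr (box d n) (Wn d n) (base d n)

/-- The uniform measure on acyclic configurations in the box. -/
noncomputable def nu (d n : ℕ) [NeZero d] : Measure (Cfg d) :=
  ∑ T ∈ Wn d n, ENNReal.ofReal (ac nbr (box d n) (base d n) T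
    / tot nbr (box d n) (Wn d n) (base d n)) • Measure.dirac T

theorem nu_univ (d n : ℕ) [NeZero d] : nu d n Set.univ = 1 := by
  unfold nu
  rw [Measure.finsetSum_apply]
  simp only [Measure.smul_apply, measure_univ, smul_eq_mul, mul_one]
  rw [← ENNReal.ofReal_sum_of_nonneg]
  · rw [← Finset.sum_div]
    have h := tot_pos (d := d) (n := n) (box d n) (base d n)
    have e : ∑ T ∈ Wn d n, ac nbr (box d n) (base d n) T
        = tot nbr (box d n) (Wn d n) (base d n) := rfl
    rw [e, div_self h.ne', ENNReal.ofReal_one]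
  · intro T _
    exact div_nonneg (ac_nonneg _ _ _ _) (tot_nonneg _ _ _ _)

instance nu_prob (d n : ℕ) [NeZero d] : IsProbabilityMeasure (nu d n) := ⟨nu_univ d n⟩

theorem integral_nu (d n : ℕ) [NeZero d] (f : Cfg d → ℝ) (hf : Continuous f) :
    ∫ ρ, f ρ ∂(nu d n) = En d n f := by
  unfold nu
  have hint : ∀ T ∈ Wn d n, Integrable f (ENNReal.ofReal (ac nbr (box d n) (base d n) T
    / tot nbr (box d n) (Wn d n) (base d n)) • Measure.dirac T) := by
    intro T _
    have : Integrable f (Measure.dirac T) := by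
      have := (BoundedContinuousFunction.mkOfCompact ⟨f, hf⟩).integrable (Measure.dirac T)
      exact this
    exact this.smul_measure ENNReal.ofReal_ne_top
  rw [integral_finsetSum_measure hint]
  unfold En
  rw [Finset.sum_div]
  refine Finset.sum_congr rfl fun T _ => ?_
  rw [integral_smul_measure, integral_dirac, smul_eq_mul, ENNReal.toReal_ofReal
    (div_nonneg (ac_nonneg _ _ _ _) (tot_nonneg _ _ _ _))]
  ring

/-- A subsequential (ultrafilter) limit of the uniform measures. -/
theorem exists_limit (d : ℕ) [NeZero d] : ∃ (u : Ultrafilter ℕ) (μ : Measure (Cfg d)),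
    IsProbabilityMeasure μ ∧ (u : Filter ℕ) ≤ atTop ∧
    ∀ f : Cfg d → ℝ, Continuous f →
      Tendsto (fun n => En d n f) u (𝓝 (∫ ρ, f ρ ∂μ)) := by
  let ν : ℕ → ProbabilityMeasure (Cfg d) := fun n => ⟨nu d n, nu_prob d n⟩
  let u : Ultrafilter ℕ := Ultrafilter.of atTop
  let μ : ProbabilityMeasure (Cfg d) := (u.map ν).lim
  have hlim : Tendsto ν u (𝓝 μ) := (u.map ν).le_nhds_lim
  refine ⟨u, (μ : Measure (Cfg d)), inferInstance, Ultrafilter.of_le _, ?_⟩
  intro f hf
  have h := (ProbabilityMeasure.tendsto_iff_forall_integral_tendsto.1 hlim)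
    (BoundedContinuousFunction.mkOfCompact ⟨f, hf⟩)
  refine h.congr fun n => ?_
  exact integral_nu d n f hf

theorem En_mono {d n : ℕ} [NeZero d] {f g : Cfg d → ℝ} (h : ∀ T ∈ Wn d n, f T ≤ g T) :
    En d n f ≤ En d n g := by
  unfold En
  refine div_le_div_of_nonneg_right (Finset.sum_le_sum fun T hT => ?_) (tot_nonneg _ _ _ _)
  exact mul_le_mul_of_nonneg_left (h T hT) (ac_nonneg _ _ _ _)

section walk

variable {d : ℕ} (τ : (Fin d → ℤ) → Equiv.Perm (Dir d))

theorem continuous_stp : Continuous (stp nbr τ) := by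
  rw [continuous_prod_of_discrete_left]
  intro x
  refine Continuous.prodMk ?_ ?_
  · exact (continuous_of_discreteTopology (f := fun δ : Dir d => nbr x (τ x δ))).comp
      (continuous_apply x)
  · exact continuous_id.update x ((continuous_of_discreteTopology
      (f := fun δ : Dir d => τ x δ)).comp (continuous_apply x))

theorem continuous_iter (t : ℕ) (a : Fin d → ℤ) :
    Continuous fun ρ : Cfg d => (stp nbr τ)^[t] (a, ρ) := by
  have h := (continuous_stp τ).iterate t
  exact h.comp (by fun_prop)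

/-- Position at time `t`. -/
def pos (a : Fin d → ℤ) (t : ℕ) (ρ : Cfg d) : Fin d → ℤ := ((stp nbr τ)^[t] (a, ρ)).1

/-- Configuration at time `t`. -/
def cfg (a : Fin d → ℤ) (t : ℕ) (ρ : Cfg d) : Cfg d := ((stp nbr τ)^[t] (a, ρ)).2

theorem continuous_pos (a : Fin d → ℤ) (t : ℕ) : Continuous (pos τ a t) :=
  continuous_fst.comp (continuous_iter τ t a)

theorem continuous_cfg (a : Fin d → ℤ) (t : ℕ) : Continuous (cfg τ a t) :=
  continuous_snd.comp (continuous_iter τ t a)

/-- Any function of the first `N` positions is continuous. -/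
theorem continuous_of_path (a : Fin d → ℤ) (N : ℕ) (f : (Fin (N + 1) → Fin d → ℤ) → ℝ) :
    Continuous fun ρ : Cfg d => f (fun j => pos τ a j ρ) := by
  have h : Continuous fun ρ : Cfg d => (fun j : Fin (N + 1) => pos τ a j ρ) :=
    continuous_pi fun j => continuous_pos τ a j
  exact (continuous_of_discreteTopology (f := f)).comp h

theorem nrm_pos_le (a : Fin d → ℤ) (t : ℕ) (ρ : Cfg d) : nrm (pos τ a t ρ) ≤ nrm a + t := by
  induction t with
  | zero => simp [pos]
  | succ t ih =>
    unfold pos at ih ⊢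
    rw [iterate_succ_apply']
    have := nrm_nbr_le ((stp nbr τ)^[t] (a, ρ)).1
      (τ ((stp nbr τ)^[t] (a, ρ)).1 (((stp nbr τ)^[t] (a, ρ)).2 ((stp nbr τ)^[t] (a, ρ)).1))
    unfold stp
    unfold stp at this ih
    simp only at this ih ⊢
    omega

theorem pos_mem_box (a : Fin d → ℤ) {n N : ℕ} (hn : nrm a + N ≤ n) (ρ : Cfg d) {t : ℕ}
    (ht : t ≤ N) : pos τ a t ρ ∈ box d n := by
  rw [mem_box]
  have := nrm_pos_le τ a t ρ
  omega

end walk

end Pool.Agent.MP_c09afc_pr
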