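import Pool.Agent.MP_c09afc_pr.Limit

set_option linter.unusedSectionVars false
set_option linter.unusedSimpArgs false
set_option linter.unusedVariables false

namespace Pool.Agent.MP_c09afc_pr

open Function Finset Filter Topology MeasureTheory

section finite

variable {V D : Type*} [DecidableEq V]

theorem good_rot' (Λ : Finset V) (τ : V → Equiv.Perm D) :
    Good Λ (∅ : Finset (V → D)) (Krot τ) := by
  refine ⟨fun x g g' h T => h _, fun x T => rfl, fun x _ g => by simp, ?_⟩
  intro x φ g h T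
  show φ _ * g _ = φ T * g _
  rw [h]

theorem U_rot_succ (nb : V → D → V) (τ : V → Equiv.Perm D) (Λ : Finset V) (Φ : (V → D) → ℝ)
    (g : (V → D) → V → ℝ) (n : ℕ) (s : V × (V → D)) (hs : s.1 ∈ Λ) :
    U nb Λ (Krot τ) Φ g (n + 1) s.2 s.1
      = g s.2 s.1 + U nb Λ (Krot τ) Φ g n (stp nb τ s).2 (stp nb τ s).1 := by
  rw [U_succ_of_mem nb Λ _ Φ g n _ hs]
  unfold Krot stp
  simp

theorem U_rot_sum (nb : V → D → V) (τ : V → Equiv.Perm D) (Λ : Finset V)
    (g : (V → D) → V → ℝ) (N : ℕ) : ∀ (s : V × (V → D)),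
    (∀ j < N, ((stp nb τ)^[j] s).1 ∈ Λ) → (∀ T y, 0 ≤ g T y) →
    ∑ t ∈ Finset.range N, g ((stp nb τ)^[t] s).2 ((stp nb τ)^[t] s).1
      ≤ U nb Λ (Krot τ) (fun _ => 0) g N s.2 s.1 := by
  induction N with
  | zero =>
    intro s _ hg
    simp only [Finset.range_zero, Finset.sum_empty]
    exact U_nonneg (good_rot' Λ τ) (fun _ => le_rfl) hg _ _ _
  | succ N ih =>
    intro s h hg
    have h0 := h 0 (by omega)
    simp only [iterate_zero, id_eq] at h0
    rw [U_rot_succ nb τ Λ _ g N s h0, Finset.sum_range_succ']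
    have := ih (stp nb τ s) (fun j hj => by
      have := h (j + 1) (by omega)
      rwa [iterate_succ_apply] at this) hg
    simp only [iterate_succ_apply, iterate_zero, id_eq]
    linarith

/-- Terminal values seen from a later time. -/
theorem U_rot_shift (nb : V → D → V) (τ : V → Equiv.Perm D) (Λ : Finset V) (Φ : (V → D) → ℝ)
    (N m : ℕ) : ∀ (s : V × (V → D)), (∀ j < m, ((stp nb τ)^[j] s).1 ∈ Λ) →
    U nb Λ (Krot τ) Φ (fun _ _ => 0) (N + m) s.2 s.1
      = U nb Λ (Krot τ) Φ (fun _ _ => 0) N ((stp nb τ)^[m] s).2 ((stp nb τ)^[m] s).1 := by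
  induction m with
  | zero => intro s _; rfl
  | succ m ih =>
    intro s h
    have h0 := h 0 (by omega)
    simp only [iterate_zero, id_eq] at h0
    rw [← Nat.add_assoc, U_rot_succ nb τ Λ _ _ (N + m) s h0, zero_add, iterate_succ_apply]
    exact ih (stp nb τ s) (fun j hj => by
      have := h (j + 1) (by omega)
      rwa [iterate_succ_apply] at this)

/-- If the walk does not visit `F` any more, a function local on `F` keeps its value. -/
theorem U_rot_local (nb : V → D → V) (τ : V → Equiv.Perm D) (Λ : Finset V) (F : Finset V)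
    (f : (V → D) → ℝ) (hf : ∀ T T' : V → D, (∀ x ∈ F, T x = T' x) → f T = f T') (N : ℕ) :
    ∀ (s : V × (V → D)),
    (∀ t < N, (∀ j ≤ t, ((stp nb τ)^[j] s).1 ∈ Λ) → ((stp nb τ)^[t] s).1 ∉ F) →
    U nb Λ (Krot τ) f (fun _ _ => 0) N s.2 s.1
      = f s.2 * U nb Λ (Krot τ) (fun _ => 1) (fun _ _ => 0) N s.2 s.1 := by
  induction N with
  | zero =>
    intro s _
    by_cases hs : s.1 ∈ Λ
    · rw [U_zero_of_mem nb Λ _ _ _ _ hs, U_zero_of_mem nb Λ _ _ _ _ hs, mul_zero]
    · rw [U_of_notMem nb Λ _ _ _ _ _ hs, U_of_notMem nb Λ _ _ _ _ _ hs, mul_one]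
  | succ N ih =>
    intro s h
    by_cases hs : s.1 ∈ Λ
    · rw [U_rot_succ nb τ Λ _ _ N s hs, U_rot_succ nb τ Λ _ _ N s hs, zero_add, zero_add]
      have h0 : s.1 ∉ F := h 0 (by omega) (fun j hj => by
        obtain rfl : j = 0 := by omega
        exact hs)
      rw [ih (stp nb τ s)]
      · congr 1
        apply hf
        intro x hx
        unfold stp
        simp only
        rw [update_of_ne]
        rintro rfl
        exact h0 hx
      · intro t ht hj
        have := h (t + 1) (by omega) (fun j hj' => by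
          rcases Nat.eq_zero_or_pos j with rfl | hpos
          · exact hs
          · obtain ⟨j, rfl⟩ : ∃ j', j = j' + 1 := ⟨j - 1, by omega⟩
            rw [iterate_succ_apply]
            exact hj j (by omega))
        rwa [iterate_succ_apply] at this
    · rw [U_of_notMem nb Λ _ _ _ _ _ hs, U_of_notMem nb Λ _ _ _ _ _ hs, mul_one]

end finite

section limit

variable {d : ℕ} [NeZero d] (τ : (Fin d → ℤ) → Equiv.Perm (Dir d))

theorem En_base (n : ℕ) (a : Fin d → ℤ) (ha : a ∈ box d n) (f : Cfg d → ℝ) :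
    En d n f = (∑ T ∈ Wn d n, ac nbr (box d n) ⟨a, ha⟩ T * f T)
      / tot nbr (box d n) (Wn d n) ⟨a, ha⟩ := by
  unfold En
  rw [tot_base nbr (box d n) (Wn d n) (base d n) ⟨a, ha⟩]
  congr 1
  exact Finset.sum_congr rfl fun T _ => by rw [ac_base nbr (box d n) (base d n) ⟨a, ha⟩]

open scoped Classical in
/-- Indicator of a visit to `x` after having left `box r`, within time `N`. -/
noncomputable def retI (a x : Fin d → ℤ) (r N : ℕ) (ρ : Cfg d) : ℝ :=
  if ∃ t s : Fin (N + 1), s < t ∧ pos τ a s ρ ∉ box d r ∧ pos τ a t ρ = x then 1 else 0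

theorem continuous_retI (a x : Fin d → ℤ) (r N : ℕ) : Continuous (retI τ a x r N) := by
  classical
  exact continuous_of_path τ a N (fun p => if ∃ t s : Fin (N + 1), s < t ∧ p s ∉ box d r ∧ p t = x
    then 1 else 0)

/-- Indicator of staying in `box r` up to time `m`. -/
noncomputable def stayI (a : Fin d → ℤ) (r m : ℕ) (ρ : Cfg d) : ℝ :=
  open scoped Classical in
  if ∀ s : Fin (m + 1), pos τ a s ρ ∈ box d r then 1 else 0

theorem continuous_stayI (a : Fin d → ℤ) (r m : ℕ) : Continuous (stayI τ a r m) := by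
  classical
  exact continuous_of_path τ a m (fun p => if ∀ s : Fin (m + 1), p s ∈ box d r then 1 else 0)

/-- Number of visits to `x` up to time `N`. -/
noncomputable def visI (a x : Fin d → ℤ) (N : ℕ) (ρ : Cfg d) : ℝ :=
  ∑ t : Fin (N + 1), if pos τ a t ρ = x then 1 else 0

theorem continuous_visI (a x : Fin d → ℤ) (N : ℕ) : Continuous (visI τ a x N) := by
  exact continuous_of_path τ a N (fun p => ∑ t : Fin (N + 1), if p t = x then 1 else 0)

theorem En_retI (hd : 3 ≤ d) (a x : Fin d → ℤ) (ε : ℝ) (hε : 0 < ε) :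
    ∃ r : ℕ, ∀ᶠ n in atTop, ∀ N, nrm a + N ≤ n → En d n (retI τ a x r N) ≤ ε := by
  classical
  obtain ⟨r, hr⟩ := ret_bound hd τ a x ε hε
  refine ⟨r, ?_⟩
  filter_upwards [hr] with n hn N hN
  have ha : a ∈ box d n := mem_box.2 (by omega)
  rw [En_base n a ha, div_le_iff₀ (tot_pos _ _)]
  refine le_trans (Finset.sum_le_sum fun T _ => ?_) (hn ha N)
  refine mul_le_mul_of_nonneg_left ?_ (ac_nonneg _ _ _ _)
  unfold retI
  split_ifs with h1 h2
  · exact le_rfl
  · exfalso
    apply h2
    obtain ⟨t, s, hst, hs, ht⟩ := h1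
    exact ⟨t, by omega, fun j hj => pos_mem_box τ a hN T (t := j) (by omega), ⟨s, hst, hs⟩, ht⟩
  · exact zero_le_one
  · exact le_rfl

theorem En_visI (hd : 3 ≤ d) (a x : Fin d → ℤ) (n N : ℕ) (hN : nrm a + N ≤ n) :
    En d n (visI τ a x N) ≤ pot (x - a) / kap d := by
  classical
  have ha : a ∈ box d n := mem_box.2 (by omega)
  rw [En_base n a ha, div_le_iff₀ (tot_pos _ _)]
  set g : Cfg d → (Fin d → ℤ) → ℝ := fun _ y => if y = x then 1 else 0 with hg
  have hg0 : ∀ T y, 0 ≤ g T y := by
    intro T y; rw [hg]; simp only; split_ifs <;> norm_num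
  have h1 : ∀ T ∈ Wn d n, ac nbr (box d n) ⟨a, ha⟩ T * visI τ a x N T
      ≤ ac nbr (box d n) ⟨a, ha⟩ T * U nbr (box d n) (Krot τ) (fun _ => 0) g (N + 1) T a := by
    intro T _
    refine mul_le_mul_of_nonneg_left ?_ (ac_nonneg _ _ _ _)
    have h2 := U_rot_sum nbr τ (box d n) g (N + 1) (a, T)
      (fun j hj => pos_mem_box τ a hN T (t := j) (by omega)) hg0
    refine le_trans (le_of_eq ?_) h2
    unfold visI
    rw [Finset.sum_range]
    rfl
  refine (Finset.sum_le_sum h1).trans ?_
  have h3 := sum_U_le (nb := nbr) (v := ⟨a, ha⟩) (Φ := fun _ => 0) (g := g)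
    (good_rot τ (box d n) (Wn d n) (Wn_update (Finset.Subset.refl _)))
    (fun _ => le_rfl) hg0 (N + 1)
  simp only [mul_zero, Finset.sum_const_zero, add_zero] at h3
  refine h3.trans ?_
  have h4 : ∑ T ∈ Wn d n, ∑ y ∈ box d n, wt nbr (box d n) ⟨a, ha⟩ T y * g T y
      ≤ cnt nbr (box d n) (Wn d n) ⟨a, ha⟩ x := by
    unfold cnt
    refine Finset.sum_le_sum fun T _ => ?_
    rw [hg]
    simp only [mul_ite, mul_one, mul_zero]
    rw [Finset.sum_ite_eq' (box d n) x]
    split_ifs
    · exact le_rfl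
    · exact wt_nonneg _ _ _ _ _
  refine h4.trans ((cnt_le hd (box d n) (Wn d n) (Wn_update (Finset.Subset.refl _)) ⟨a, ha⟩ x).trans
    (le_of_eq ?_))
  simp only
  ring

/-- Finite-volume comparison between the initial configuration and the one at time `m`. -/
theorem En_local (hd : 3 ≤ d) (a : Fin d → ℤ) (F : Finset (Fin d → ℤ)) (ε : ℝ) (hε : 0 < ε) :
    ∃ r : ℕ, ∀ f : Cfg d → ℝ, (∀ T T' : Cfg d, (∀ x ∈ F, T x = T' x) → f T = f T') →
      (∀ T, 0 ≤ f T) → (∀ T, f T ≤ 1) → ∀ m, ∀ᶠ n in atTop,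
      |En d n f - En d n (fun ρ => f (cfg τ a m ρ))| ≤ En d n (stayI τ a r m) + ε := by
  classical
  -- choose radii
  set ε' : ℝ := ε / (F.card + 1) with hε'
  have hε'pos : 0 < ε' := by positivity
  choose R hR using fun x => ret_bound hd τ a x ε' hε'pos
  set r : ℕ := (F.sup fun x => nrm x) + F.sup R with hr
  refine ⟨r, ?_⟩
  intro f hf hf0 hf1 m
  have hall : ∀ᶠ n in atTop, ∀ x ∈ F, ∀ (ha : a ∈ box d n) (N : ℕ),
      ∑ T ∈ Wn d n, ac nbr (box d n) ⟨a, ha⟩ T * (if Ret τ a x (R x) n N T then 1 else 0)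
        ≤ ε' * tot nbr (box d n) (Wn d n) ⟨a, ha⟩ := by
    rw [Filter.eventually_all_finset]
    intro x _
    exact hR x
  filter_upwards [hall, eventually_ge_atTop (nrm a + m)] with n hn hnm
  have ha : a ∈ box d n := mem_box.2 (by omega)
  set t := tot nbr (box d n) (Wn d n) ⟨a, ha⟩ with ht
  have htpos : 0 < t := tot_pos _ _
  set S1 : ℝ := ∑ T ∈ Wn d n, ac nbr (box d n) ⟨a, ha⟩ T * stayI τ a r m T with hS1
  have hgood := good_rot τ (box d n) (Wn d n) (Wn_update (Finset.Subset.refl _))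
  -- bound for every N
  have hbound : ∀ N, |∑ T ∈ Wn d n, ac nbr (box d n) ⟨a, ha⟩ T *
        U nbr (box d n) (Krot τ) f (fun _ _ => 0) (N + m) T a
      - ∑ T ∈ Wn d n, ac nbr (box d n) ⟨a, ha⟩ T * (f (cfg τ a m T) *
        U nbr (box d n) (Krot τ) (fun _ => 1) (fun _ _ => 0) (N + m) T a)|
      ≤ S1 + ε * t := by
    intro N
    rw [← Finset.sum_sub_distrib]
    refine (Finset.abs_sum_le_sum_abs _ _).trans ?_
    have hptw : ∀ T ∈ Wn d n, |ac nbr (box d n) ⟨a, ha⟩ T *
        U nbr (box d n) (Krot τ) f (fun _ _ => 0) (N + m) T a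
        - ac nbr (box d n) ⟨a, ha⟩ T * (f (cfg τ a m T) *
        U nbr (box d n) (Krot τ) (fun _ => 1) (fun _ _ => 0) (N + m) T a)|
        ≤ ac nbr (box d n) ⟨a, ha⟩ T * stayI τ a r m T
          + ∑ x ∈ F, ac nbr (box d n) ⟨a, ha⟩ T *
            (if Ret τ a x (R x) n (N + m) T then 1 else 0) := by
      intro T _
      rw [← mul_sub, abs_mul, abs_of_nonneg (ac_nonneg _ _ _ _), ← Finset.mul_sum, ← mul_add]
      refine mul_le_mul_of_nonneg_left ?_ (ac_nonneg _ _ _ _)
      have hin : ∀ j < m, ((stp nbr τ)^[j] (a, T)).1 ∈ box d n :=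
        fun j hj => pos_mem_box τ a hnm T (t := j) (by omega)
      have e1 := U_rot_shift nbr τ (box d n) f N m (a, T) hin
      have e2 := U_rot_shift nbr τ (box d n) (fun _ => 1) N m (a, T) hin
      simp only at e1 e2
      rw [e1, e2]
      have hs0 : 0 ≤ stayI τ a r m T := by unfold stayI; split_ifs <;> norm_num
      have hr0 : 0 ≤ ∑ x ∈ F, (if Ret τ a x (R x) n (N + m) T then (1 : ℝ) else 0) :=
        Finset.sum_nonneg fun x _ => by split_ifs <;> norm_num
      by_cases hvis : ∀ t < N, (∀ j ≤ t, ((stp nbr τ)^[j] ((stp nbr τ)^[m] (a, T))).1 ∈ box d n) →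
          ((stp nbr τ)^[t] ((stp nbr τ)^[m] (a, T))).1 ∉ F
      · have := U_rot_local nbr τ (box d n) F f hf N ((stp nbr τ)^[m] (a, T)) hvis
        rw [this]
        have e3 : cfg τ a m T = ((stp nbr τ)^[m] (a, T)).2 := rfl
        rw [e3, sub_self, abs_zero]
        positivity
      · push Not at hvis
        obtain ⟨t', ht'N, hin', hF⟩ := hvis
        have hge1 : 1 ≤ stayI τ a r m T
            + ∑ x ∈ F, (if Ret τ a x (R x) n (N + m) T then (1 : ℝ) else 0) := by
          by_cases hstay : ∀ s : Fin (m + 1), pos τ a s T ∈ box d r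
          · have : stayI τ a r m T = 1 := by unfold stayI; rw [if_pos hstay]
            rw [this]; linarith
          · push Not at hstay
            obtain ⟨s, hs⟩ := hstay
            set y := ((stp nbr τ)^[t'] ((stp nbr τ)^[m] (a, T))).1 with hy
            have hRet : Ret τ a y (R y) n (N + m) T := by
              have hpos' : ((stp nbr τ)^[t' + m] (a, T)).1 = y := by
                rw [iterate_add_apply]
              have hRy : R y ≤ F.sup R := Finset.le_sup (f := R) hF
              have hny : nrm y ≤ F.sup fun x => nrm x := Finset.le_sup (f := fun x => nrm x) hF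
              have hsR : ((stp nbr τ)^[(s : ℕ)] (a, T)).1 ∉ box d (R y) := by
                intro h
                apply hs
                rw [mem_box] at h ⊢
                unfold pos
                omega
              refine ⟨t' + m, by omega, ?_, ⟨s, ?_, hsR⟩, hpos'⟩
              · intro j hj
                by_cases hjm : j < m
                · exact hin j hjm
                · have := hin' (j - m) (by omega)
                  rw [← iterate_add_apply] at this
                  have e : j - m + m = j := by omega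
                  rwa [e] at this
              · by_contra hcon
                have hsm : (s : ℕ) = t' + m := by omega
                apply hs
                rw [mem_box]
                unfold pos
                rw [hsm, hpos']
                omega
            have : (1 : ℝ) ≤ ∑ x ∈ F, (if Ret τ a x (R x) n (N + m) T then (1 : ℝ) else 0) := by
              refine le_trans ?_ (Finset.single_le_sum
                (f := fun x => if Ret τ a x (R x) n (N + m) T then (1 : ℝ) else 0)
                (fun x _ => by split_ifs <;> norm_num) hF)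
              rw [if_pos hRet]
            linarith
        refine le_trans ?_ hge1
        have b1 := U_le_const (nb := nbr) (Φ := f) hgood (fun x c T => rfl) zero_le_one hf1 N
          ((stp nbr τ)^[m] (a, T)).2 ((stp nbr τ)^[m] (a, T)).1
        have b2 := U_nonneg (nb := nbr) (Φ := f) (g := fun _ _ => 0) hgood hf0
          (fun _ _ => le_rfl) N ((stp nbr τ)^[m] (a, T)).2 ((stp nbr τ)^[m] (a, T)).1
        have b3 := U_le_const (nb := nbr) (Φ := fun _ => 1) hgood (fun x c T => rfl) zero_le_one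
          (fun _ => le_rfl) N ((stp nbr τ)^[m] (a, T)).2 ((stp nbr τ)^[m] (a, T)).1
        have b4 := U_nonneg (nb := nbr) (Φ := fun _ => 1) (g := fun _ _ => 0) hgood
          (fun _ => zero_le_one)
          (fun _ _ => le_rfl) N ((stp nbr τ)^[m] (a, T)).2 ((stp nbr τ)^[m] (a, T)).1
        have b5 := hf0 (cfg τ a m T)
        have b6 := hf1 (cfg τ a m T)
        rw [abs_le]
        constructor
        · nlinarith
        · nlinarith [mul_nonneg b5 b4]
    refine (Finset.sum_le_sum hptw).trans ?_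
    rw [Finset.sum_add_distrib, Finset.sum_comm]
    have h2 : ∑ x ∈ F, ∑ T ∈ Wn d n, ac nbr (box d n) ⟨a, ha⟩ T *
            (if Ret τ a x (R x) n (N + m) T then 1 else 0) ≤ ∑ x ∈ F, ε' * t :=
      Finset.sum_le_sum fun x hx => hn x hx ha (N + m)
    have h3 : ∑ x ∈ F, ε' * t ≤ ε * t := by
      rw [Finset.sum_const, nsmul_eq_mul, hε', ← mul_assoc]
      refine mul_le_mul_of_nonneg_right ?_ htpos.le
      rw [← mul_div_assoc, div_le_iff₀ (by positivity)]
      nlinarith
    linarith
  -- limit N → ∞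
  have hl1 := tendsto_sum_U (nb := nbr) (v := ⟨a, ha⟩) (Φ := f) hgood (fun x c T => rfl) hf0 hf1
    zero_le_one
  have hl2 := tendsto_sum_U (nb := nbr) (v := ⟨a, ha⟩) (Φ := fun _ => 1) hgood
    (fun x c T => rfl) (fun _ => zero_le_one) (fun _ => le_rfl) zero_le_one
  have hl3 : Tendsto (fun N => ∑ T ∈ Wn d n, ac nbr (box d n) ⟨a, ha⟩ T * (f (cfg τ a m T) *
        U nbr (box d n) (Krot τ) (fun _ => 1) (fun _ _ => 0) N T a)) atTop
        (𝓝 (∑ T ∈ Wn d n, ac nbr (box d n) ⟨a, ha⟩ T * f (cfg τ a m T))) := by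
    have hU1 : ∀ N T x, U nbr (box d n) (Krot τ) (fun _ => 1) (fun _ _ => 0) N T x ≤ 1 :=
      fun N T x => U_le_const (nb := nbr) (Φ := fun _ => 1) hgood (fun x c T => rfl) zero_le_one
          (fun _ => le_rfl) N T x
    have hdiff : Tendsto (fun N => ∑ T ∈ Wn d n, ac nbr (box d n) ⟨a, ha⟩ T * (1 : ℝ)
        - ∑ T ∈ Wn d n, ac nbr (box d n) ⟨a, ha⟩ T *
          U nbr (box d n) (Krot τ) (fun _ => 1) (fun _ _ => 0) N T a) atTop (𝓝 0) := by
      have := (tendsto_const_nhds (x := ∑ T ∈ Wn d n, ac nbr (box d n) ⟨a, ha⟩ T * (1 : ℝ))).sub hl2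
      rwa [sub_self] at this
    have hsq : Tendsto (fun N => ∑ T ∈ Wn d n, ac nbr (box d n) ⟨a, ha⟩ T * f (cfg τ a m T)
        - ∑ T ∈ Wn d n, ac nbr (box d n) ⟨a, ha⟩ T * (f (cfg τ a m T) *
        U nbr (box d n) (Krot τ) (fun _ => 1) (fun _ _ => 0) N T a)) atTop (𝓝 0) := by
      refine squeeze_zero (fun N => ?_) (fun N => ?_) hdiff
      · rw [← Finset.sum_sub_distrib]
        refine Finset.sum_nonneg fun T _ => ?_
        rw [← mul_sub]
        refine mul_nonneg (ac_nonneg _ _ _ _) ?_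
        nlinarith [hf0 (cfg τ a m T), hU1 N T a]
      · rw [← Finset.sum_sub_distrib, ← Finset.sum_sub_distrib]
        refine Finset.sum_le_sum fun T _ => ?_
        rw [← mul_sub, ← mul_sub]
        refine mul_le_mul_of_nonneg_left ?_ (ac_nonneg _ _ _ _)
        nlinarith [hf1 (cfg τ a m T), hU1 N T a]
    have := (tendsto_const_nhds (x := ∑ T ∈ Wn d n, ac nbr (box d n) ⟨a, ha⟩ T
      * f (cfg τ a m T))).sub hsq
    simpa using this
  have hl4 := ((hl1.comp (tendsto_add_atTop_nat m)).sub (hl3.comp (tendsto_add_atTop_nat m))).abs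
  have hfin : |∑ T ∈ Wn d n, ac nbr (box d n) ⟨a, ha⟩ T * f T
      - ∑ T ∈ Wn d n, ac nbr (box d n) ⟨a, ha⟩ T * f (cfg τ a m T)| ≤ S1 + ε * t :=
    le_of_tendsto' hl4 fun N => hbound N
  rw [En_base n a ha, En_base n a ha, En_base n a ha, ← sub_div, abs_div, abs_of_pos htpos,
    ← hS1, div_add' _ _ _ htpos.ne']
  exact div_le_div_of_nonneg_right hfin htpos.le

end limit

end Pool.Agent.MP_c09afc_pr
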