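import Pool.Agent.MP_c09afc_pr.AB

set_option linter.unusedSectionVars false
set_option linter.unusedSimpArgs false
set_option linter.unusedVariables false

namespace Pool.Agent.MP_c09afc_pr

open Function Finset Filter Topology

variable {V D : Type*} [DecidableEq V] [Fintype D] [DecidableEq D] [Nonempty D]

theorem mem_of_bdry {nb : V → D → V} {Λ : Finset V} {e : V × D} (he : e ∈ bdry nb Λ) :
    e.1 ∈ Λ := by
  unfold bdry at he
  rw [Finset.mem_filter, Finset.mem_product] at he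
  exact he.1.1

theorem tendsto_sc (nb : V → D → V) (Λ : Finset V) (W : Finset (V → D))
    (hW : ∀ T ∈ W, ∀ x ∈ Λ, ∀ δ, update T x δ ∈ W) (v : Λ) (hpos : 0 < tot nb Λ W v) (x : Λ) :
    Tendsto (fun n => sc nb Λ ∅ n (x : V)) atTop (𝓝 1) := by
  have hK := good_av (D := D) Λ W hW
  have h := tendsto_sum_U (nb := nb) (v := x) (Φ := fun _ => 1) hK
    (fun x c T => Kav_const x c T) (fun _ => zero_le_one) (fun _ => le_rfl) zero_le_one
  have e1 : ∀ n, ∑ T ∈ W, ac nb Λ x T * U nb Λ Kav (fun _ => 1) (fun _ _ => 0) n T x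
      = tot nb Λ W v * sc nb Λ ∅ n (x : V) := by
    intro n
    rw [tot_base nb Λ W v x]
    unfold tot
    rw [Finset.sum_mul]
    refine Finset.sum_congr rfl fun T _ => ?_
    rw [← ab_eq_U, ab_const, one_mul]
  have e2 : ∑ T ∈ W, ac nb Λ x T * (1 : ℝ) = tot nb Λ W v := by
    rw [tot_base nb Λ W v x]
    unfold tot
    simp
  simp_rw [e1] at h
  rw [e2] at h
  have h2 := h.const_mul (tot nb Λ W v)⁻¹
  have e3 : ∀ n, (tot nb Λ W v)⁻¹ * (tot nb Λ W v * sc nb Λ ∅ n (x : V))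
      = sc nb Λ ∅ n (x : V) := by
    intro n
    field_simp
  simp_rw [e3] at h2
  rwa [inv_mul_cancel₀ hpos.ne'] at h2

theorem tendsto_ex (nb : V → D → V) (Λ : Finset V) (W : Finset (V → D))
    (hW : ∀ T ∈ W, ∀ x ∈ Λ, ∀ δ, update T x δ ∈ W) (v : Λ) (hpos : 0 < tot nb Λ W v)
    (hb : (bdry nb Λ).Nonempty) :
    Tendsto (fun n => ex nb Λ ∅ n) atTop (𝓝 1) := by
  unfold ex
  have h1 : Tendsto (fun n => ∑ e ∈ bdry nb Λ, sc nb Λ ∅ n e.1) atTop
      (𝓝 (∑ e ∈ bdry nb Λ, (1 : ℝ))) := by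
    refine tendsto_finset_sum _ fun e he => ?_
    exact tendsto_sc nb Λ W hW v hpos ⟨e.1, mem_of_bdry he⟩
  have h2 := h1.div_const ((bdry nb Λ).card : ℝ)
  have h3 : (∑ e ∈ bdry nb Λ, (1 : ℝ)) / (bdry nb Λ).card = 1 := by
    have : ((bdry nb Λ).card : ℝ) ≠ 0 := by
      exact_mod_cast (Finset.card_pos.2 hb).ne'
    simp [this]
  rwa [h3] at h2

open scoped Classical in
/-- Indicator that some vertex of `S` leads to `o`. -/
noncomputable def far (nb : V → D → V) (Λ : Finset V) (o : V) (S : Finset V) (T : V → D) : ℝ :=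
  if ∃ u ∈ S, ∃ K, PathSet nb Λ T o u K then 1 else 0

theorem one_ended (nb : V → D → V) (Λ : Finset V) (W : Finset (V → D))
    (hW : ∀ T ∈ W, ∀ x ∈ Λ, ∀ δ, update T x δ ∈ W) (v : Λ) (hpos : 0 < tot nb Λ W v)
    (hb : (bdry nb Λ).Nonempty) (o : V) (ho : o ∈ Λ) (S : Finset V) (M : ℕ) (q θ : ℝ)
    (hq0 : 0 ≤ q) (hθ0 : 0 ≤ θ)
    (hq : ∀ n, (∑ e ∈ bdry nb Λ, hit nb Λ o n e.1) / (bdry nb Λ).card ≤ q)
    (hθ : ∀ n, ∀ u ∈ S, ∀ K, ∀ T, PathSet nb Λ T o u K → ex nb Λ K n ≤ θ) :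
    ∑ T ∈ W, ac nb Λ v T * far nb Λ o S T ≤ tot nb Λ W v * (M * q + S.card * θ ^ M) := by
  classical
  have hfar0 : ∀ T : V → D, 0 ≤ far nb Λ o S T := by
    intro T; unfold far; split_ifs <;> norm_num
  have hfar1 : ∀ T : V → D, far nb Λ o S T ≤ 1 := by
    intro T; unfold far; split_ifs <;> norm_num
  -- pointwise bound
  have hpt : ∀ n, ∀ T, (Rop nb Λ ∅ n)^[M] (far nb Λ o S) T ≤ M * q + S.card * θ ^ M := by
    intro n T
    have h1 := Rop_iter_hit (nb := nb) (Λ := Λ) (o := o) n q hq0 (hq n) (far nb Λ o S) hfar1 M T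
    have h2 : ∀ T, far nb Λ o S T ≤ ∑ u ∈ S, ∑ K ∈ Λ.powerset, chi nb Λ o u K T := by
      intro T
      unfold far
      split_ifs with h
      · obtain ⟨u, hu, K, hK⟩ := h
        have hKΛ : K ∈ Λ.powerset := Finset.mem_powerset.2 (hK.subset ho)
        calc (1 : ℝ) = chi nb Λ o u K T := by unfold chi; rw [if_pos hK]
          _ ≤ ∑ K ∈ Λ.powerset, chi nb Λ o u K T :=
              Finset.single_le_sum (f := fun K => chi nb Λ o u K T)
                (fun K _ => chi_nonneg) hKΛ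
          _ ≤ ∑ u ∈ S, ∑ K ∈ Λ.powerset, chi nb Λ o u K T :=
              Finset.single_le_sum (f := fun u => ∑ K ∈ Λ.powerset, chi nb Λ o u K T)
                (fun u _ => Finset.sum_nonneg fun K _ => chi_nonneg) hu
      · exact Finset.sum_nonneg fun u _ => Finset.sum_nonneg fun K _ => chi_nonneg
    have h3 := Rop_iter_mono (nb := nb) (Λ := Λ) {o} n M h2 T
    have h4 : (Rop nb Λ {o} n)^[M] (fun T => ∑ u ∈ S, ∑ K ∈ Λ.powerset, chi nb Λ o u K T) T
        = ∑ u ∈ S, ∑ K ∈ Λ.powerset, (Rop nb Λ {o} n)^[M] (chi nb Λ o u K) T := by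
      rw [Rop_iter_sum]
      refine Finset.sum_congr rfl fun u _ => ?_
      have := congrFun (Rop_iter_sum (nb := nb) (Λ := Λ) {o} n M Λ.powerset
        (fun K => chi nb Λ o u K)) T
      exact this
    rw [h4] at h3
    have h5 : ∑ u ∈ S, ∑ K ∈ Λ.powerset, (Rop nb Λ {o} n)^[M] (chi nb Λ o u K) T
        ≤ ∑ u ∈ S, θ ^ M := by
      refine Finset.sum_le_sum fun u hu => ?_
      calc ∑ K ∈ Λ.powerset, (Rop nb Λ {o} n)^[M] (chi nb Λ o u K) T
          ≤ ∑ K ∈ Λ.powerset, θ ^ M * chi nb Λ o u K T :=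
            Finset.sum_le_sum fun K _ => Rop_iter_chi ho n u K θ hθ0 (hθ n u hu K) M T
        _ = θ ^ M * ∑ K ∈ Λ.powerset, chi nb Λ o u K T := by rw [Finset.mul_sum]
        _ ≤ θ ^ M * 1 := by
            refine mul_le_mul_of_nonneg_left ?_ (pow_nonneg hθ0 M)
            by_cases hex : ∃ K ∈ Λ.powerset, PathSet nb Λ T o u K
            · obtain ⟨K, hK, hp⟩ := hex
              rw [Finset.sum_eq_single K]
              · unfold chi; split_ifs <;> norm_num
              · intro K' _ hne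
                unfold chi
                rw [if_neg]
                intro h'
                exact hne (h'.unique hp)
              · intro h; exact absurd hK h
            · rw [Finset.sum_eq_zero]
              · exact zero_le_one
              · intro K hK
                unfold chi
                rw [if_neg]
                intro h'
                exact hex ⟨K, hK, h'⟩
        _ = θ ^ M := mul_one _
    rw [Finset.sum_const, nsmul_eq_mul] at h5
    linarith
  have hmain : ∀ n, ∑ T ∈ W, ac nb Λ v T * far nb Λ o S T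
      ≤ tot nb Λ W v * (M * q + S.card * θ ^ M) + tot nb Λ W v * (1 - ex nb Λ ∅ n ^ M) := by
    intro n
    have h1 : ∀ T, (Rop nb Λ ∅ n)^[M] (far nb Λ o S) T
        + (Rop nb Λ ∅ n)^[M] (fun T => 1 - far nb Λ o S T) T = ex nb Λ ∅ n ^ M := by
      intro T
      rw [← Rop_iter_add]
      have : (fun T => far nb Λ o S T + (1 - far nb Λ o S T)) = fun _ : V → D => (1 : ℝ) := by
        funext T; ring
      rw [this, Rop_iter_const, one_mul]
    have h2 := sum_Rop_iter_le (nb := nb) W hW v n M (fun T => 1 - far nb Λ o S T)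
      (fun T => by linarith [hfar1 T])
    have h3 : ∑ T ∈ W, ac nb Λ v T * (1 - far nb Λ o S T)
        = tot nb Λ W v - ∑ T ∈ W, ac nb Λ v T * far nb Λ o S T := by
      unfold tot
      rw [← Finset.sum_sub_distrib]
      exact Finset.sum_congr rfl fun T _ => by ring
    have h4 : ∑ T ∈ W, ac nb Λ v T * (Rop nb Λ ∅ n)^[M] (fun T => 1 - far nb Λ o S T) T
        = tot nb Λ W v * ex nb Λ ∅ n ^ M
          - ∑ T ∈ W, ac nb Λ v T * (Rop nb Λ ∅ n)^[M] (far nb Λ o S) T := by
      unfold tot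
      rw [Finset.sum_mul, ← Finset.sum_sub_distrib]
      refine Finset.sum_congr rfl fun T _ => ?_
      rw [← h1 T]; ring
    have h5 : ∑ T ∈ W, ac nb Λ v T * (Rop nb Λ ∅ n)^[M] (far nb Λ o S) T
        ≤ tot nb Λ W v * (M * q + S.card * θ ^ M) := by
      unfold tot
      rw [Finset.sum_mul]
      exact Finset.sum_le_sum fun T _ => mul_le_mul_of_nonneg_left (hpt n T) (ac_nonneg _ _ _ _)
    rw [h3, h4] at h2
    nlinarith
  have hlim : Tendsto (fun n => tot nb Λ W v * (M * q + S.card * θ ^ M)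
      + tot nb Λ W v * (1 - ex nb Λ ∅ n ^ M)) atTop
      (𝓝 (tot nb Λ W v * (M * q + S.card * θ ^ M) + tot nb Λ W v * (1 - 1 ^ M))) := by
    refine Tendsto.const_add _ (Tendsto.const_mul _ (Tendsto.const_sub _ ?_))
    exact (tendsto_ex nb Λ W hW v hpos hb).pow M
  rw [one_pow, sub_self, mul_zero, add_zero] at hlim
  exact ge_of_tendsto' hlim hmain

end Pool.Agent.MP_c09afc_pr
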