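import Pool.Agent.MP_c09afc_pr.Core

set_option linter.unusedSectionVars false

namespace Pool.Agent.MP_c09afc_pr

open Function Finset

variable {V D : Type*} [DecidableEq V]

/-- Value recursion: reward `g` at each visited state, terminal reward `Φ` on leaving `Λ`,
one-step operator `K`. -/
noncomputable def U (nb : V → D → V) (Λ : Finset V) (K : V → ((V → D) → ℝ) → (V → D) → ℝ)
    (Φ : (V → D) → ℝ) (g : (V → D) → V → ℝ) : ℕ → (V → D) → V → ℝ
  | 0, T, x => if x ∈ Λ then 0 else Φ T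
  | n + 1, T, x => if x ∈ Λ then g T x + K x (fun T' => U nb Λ K Φ g n T' (nb x (T' x))) T
      else Φ T

/-- Axioms on the one-step operator. -/
structure Good (Λ : Finset V) (W : Finset (V → D)) (K : V → ((V → D) → ℝ) → (V → D) → ℝ) :
    Prop where
  mono : ∀ x, ∀ g g' : (V → D) → ℝ, (∀ T, g T ≤ g' T) → ∀ T, K x g T ≤ K x g' T
  zero : ∀ x, ∀ T, K x (fun _ => 0) T = 0
  sum : ∀ x ∈ Λ, ∀ g : (V → D) → ℝ, ∑ T ∈ W, K x g T = ∑ T ∈ W, g T
  pull : ∀ x, ∀ φ g : (V → D) → ℝ, (∀ T δ, φ (update T x δ) = φ T) → ∀ T,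
    K x (fun T' => φ T' * g T') T = φ T * K x g T

section

variable (nb : V → D → V) (Λ : Finset V) (v : Λ) (W : Finset (V → D))
  (K : V → ((V → D) → ℝ) → (V → D) → ℝ) (Φ : (V → D) → ℝ) (g : (V → D) → V → ℝ)

theorem U_of_notMem (n : ℕ) (T : V → D) {x : V} (hx : x ∉ Λ) : U nb Λ K Φ g n T x = Φ T := by
  cases n <;> simp [U, hx]

theorem U_zero_of_mem (T : V → D) {x : V} (hx : x ∈ Λ) : U nb Λ K Φ g 0 T x = 0 := by
  simp [U, hx]

theorem U_succ_of_mem (n : ℕ) (T : V → D) {x : V} (hx : x ∈ Λ) :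
    U nb Λ K Φ g (n + 1) T x
      = g T x + K x (fun T' => U nb Λ K Φ g n T' (nb x (T' x))) T := by
  simp [U, hx]

/-- Weighted total value. -/
noncomputable def J (n : ℕ) : ℝ :=
  ∑ T ∈ W, ∑ x ∈ Λ, wt nb Λ v T x * U nb Λ K Φ g n T x

variable {nb Λ v W K Φ g}

theorem J_succ (hK : Good Λ W K) (n : ℕ) :
    J nb Λ v W K Φ g (n + 1) = ∑ T ∈ W, ∑ x ∈ Λ, wt nb Λ v T x * g T x
      + J nb Λ v W K Φ g n + ∑ T ∈ W, ac nb Λ v T * Φ T
      - ∑ T ∈ W, ac nb Λ v T * U nb Λ K Φ g n T v := by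
  have h1 : J nb Λ v W K Φ g (n + 1) = ∑ T ∈ W, ∑ x ∈ Λ, wt nb Λ v T x * g T x
      + ∑ T ∈ W, ∑ x ∈ Λ, wt nb Λ v T x * U nb Λ K Φ g n T (nb x (T x)) := by
    unfold J
    have : ∀ T ∈ W, ∑ x ∈ Λ, wt nb Λ v T x * U nb Λ K Φ g (n + 1) T x
        = ∑ x ∈ Λ, wt nb Λ v T x * g T x
          + ∑ x ∈ Λ, K x (fun T' => wt nb Λ v T' x * U nb Λ K Φ g n T' (nb x (T' x))) T := by
      intro T _
      rw [← Finset.sum_add_distrib]
      refine Finset.sum_congr rfl fun x hx => ?_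
      rw [U_succ_of_mem nb Λ K Φ g n T hx, mul_add]
      congr 1
      rw [hK.pull x (fun T' => wt nb Λ v T' x) (fun T' => U nb Λ K Φ g n T' (nb x (T' x)))
        (fun T' δ => wt_update nb Λ v T' x δ)]
    rw [Finset.sum_congr rfl this, Finset.sum_add_distrib]
    congr 1
    rw [Finset.sum_comm, Finset.sum_comm (s := W)]
    refine Finset.sum_congr rfl fun x hx => ?_
    rw [hK.sum x hx]
  rw [h1]
  have h2 : ∀ T ∈ W, ∑ x ∈ Λ, wt nb Λ v T x * U nb Λ K Φ g n T (nb x (T x))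
      = ∑ x ∈ Λ, wt nb Λ v T x * U nb Λ K Φ g n T x + ac nb Λ v T * Φ T
        - ac nb Λ v T * U nb Λ K Φ g n T v := by
    intro T _
    have := flow nb Λ v T (fun y => U nb Λ K Φ g n T y) (Φ T)
      (fun y hy => U_of_notMem nb Λ K Φ g n T hy)
    linarith
  rw [Finset.sum_congr rfl h2, Finset.sum_sub_distrib, Finset.sum_add_distrib]
  unfold J
  ring

theorem U_nonneg (hK : Good Λ W K) (hΦ : ∀ T, 0 ≤ Φ T) (hg : ∀ T x, 0 ≤ g T x) (n : ℕ) :
    ∀ T x, 0 ≤ U nb Λ K Φ g n T x := by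
  induction n with
  | zero =>
    intro T x
    by_cases hx : x ∈ Λ
    · rw [U_zero_of_mem nb Λ K Φ g T hx]
    · rw [U_of_notMem nb Λ K Φ g 0 T hx]; exact hΦ T
  | succ n ih =>
    intro T x
    by_cases hx : x ∈ Λ
    · rw [U_succ_of_mem nb Λ K Φ g n T hx]
      have := hK.mono x (fun _ => 0) (fun T' => U nb Λ K Φ g n T' (nb x (T' x)))
        (fun T' => ih T' _) T
      rw [hK.zero] at this
      have := hg T x
      linarith
    · rw [U_of_notMem nb Λ K Φ g _ T hx]; exact hΦ T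

theorem U_mono (hK : Good Λ W K) (hΦ : ∀ T, 0 ≤ Φ T) (hg : ∀ T x, 0 ≤ g T x) (n : ℕ) :
    ∀ T x, U nb Λ K Φ g n T x ≤ U nb Λ K Φ g (n + 1) T x := by
  induction n with
  | zero =>
    intro T x
    by_cases hx : x ∈ Λ
    · rw [U_zero_of_mem nb Λ K Φ g T hx]
      exact U_nonneg hK hΦ hg 1 T x
    · rw [U_of_notMem nb Λ K Φ g 0 T hx, U_of_notMem nb Λ K Φ g _ T hx]
  | succ n ih =>
    intro T x
    by_cases hx : x ∈ Λ
    · rw [U_succ_of_mem nb Λ K Φ g n T hx, U_succ_of_mem nb Λ K Φ g (n + 1) T hx]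
      have := hK.mono x _ _ (fun T' => ih T' (nb x (T' x))) T
      linarith
    · rw [U_of_notMem nb Λ K Φ g _ T hx, U_of_notMem nb Λ K Φ g _ T hx]

theorem J_mono (hK : Good Λ W K) (hΦ : ∀ T, 0 ≤ Φ T) (hg : ∀ T x, 0 ≤ g T x) (n : ℕ) :
    J nb Λ v W K Φ g n ≤ J nb Λ v W K Φ g (n + 1) := by
  unfold J
  refine Finset.sum_le_sum fun T _ => Finset.sum_le_sum fun x _ => ?_
  exact mul_le_mul_of_nonneg_left (U_mono hK hΦ hg n T x) (wt_nonneg _ _ _ _ _)

theorem sum_U_le (hK : Good Λ W K) (hΦ : ∀ T, 0 ≤ Φ T) (hg : ∀ T x, 0 ≤ g T x) (n : ℕ) :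
    ∑ T ∈ W, ac nb Λ v T * U nb Λ K Φ g n T v
      ≤ ∑ T ∈ W, ∑ x ∈ Λ, wt nb Λ v T x * g T x + ∑ T ∈ W, ac nb Λ v T * Φ T := by
  have h1 := J_succ (nb := nb) (v := v) (Φ := Φ) (g := g) hK n
  have h2 := J_mono (nb := nb) (v := v) (Φ := Φ) (g := g) hK hΦ hg n
  linarith

theorem U_le_const (hK : Good Λ W K) (hK1 : ∀ x c T, K x (fun _ => c) T = c) {C : ℝ}
    (hC : 0 ≤ C) (hΦ : ∀ T, Φ T ≤ C) (n : ℕ) :
    ∀ T x, U nb Λ K Φ (fun _ _ => 0) n T x ≤ C := by
  induction n with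
  | zero =>
    intro T x
    by_cases hx : x ∈ Λ
    · rw [U_zero_of_mem nb Λ K Φ _ T hx]; exact hC
    · rw [U_of_notMem nb Λ K Φ _ 0 T hx]; exact hΦ T
  | succ n ih =>
    intro T x
    by_cases hx : x ∈ Λ
    · rw [U_succ_of_mem nb Λ K Φ _ n T hx, zero_add]
      have := hK.mono x _ (fun _ => C) (fun T' => ih T' (nb x (T' x))) T
      rwa [hK1] at this
    · rw [U_of_notMem nb Λ K Φ _ _ T hx]; exact hΦ T

open Filter Topology in
/-- In the limit of infinitely many steps the uniform measure on acyclic configurations is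
preserved. -/
theorem tendsto_sum_U (hK : Good Λ W K) (hK1 : ∀ x c T, K x (fun _ => c) T = c)
    (hΦ : ∀ T, 0 ≤ Φ T) {C : ℝ} (hC : ∀ T, Φ T ≤ C) (hC0 : 0 ≤ C) :
    Tendsto (fun n => ∑ T ∈ W, ac nb Λ v T * U nb Λ K Φ (fun _ _ => 0) n T v) atTop
      (𝓝 (∑ T ∈ W, ac nb Λ v T * Φ T)) := by
  have hmono : Monotone (fun n => J nb Λ v W K Φ (fun _ _ => 0) n) :=
    monotone_nat_of_le_succ fun n => J_mono hK hΦ (fun _ _ => le_rfl) n
  have hbdd : BddAbove (Set.range fun n => J nb Λ v W K Φ (fun _ _ => 0) n) := by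
    refine ⟨∑ T ∈ W, ∑ x ∈ Λ, C, ?_⟩
    rintro _ ⟨n, rfl⟩
    unfold J
    refine Finset.sum_le_sum fun T _ => Finset.sum_le_sum fun x _ => ?_
    have h1 := U_le_const (nb := nb) (Φ := Φ) hK hK1 hC0 hC n T x
    have h2 := U_nonneg (nb := nb) (Φ := Φ) (g := fun _ _ => 0) hK hΦ (fun _ _ => le_rfl) n T x
    calc wt nb Λ v T x * U nb Λ K Φ (fun _ _ => 0) n T x
        ≤ 1 * C := mul_le_mul (wt_le_one _ _ _ _ _) h1 h2 zero_le_one
      _ = C := one_mul C
  have hlim := tendsto_atTop_ciSup hmono hbdd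
  have hdiff : Tendsto (fun n => J nb Λ v W K Φ (fun _ _ => 0) (n + 1)
      - J nb Λ v W K Φ (fun _ _ => 0) n) atTop (𝓝 0) := by
    have := (hlim.comp (tendsto_add_atTop_nat 1)).sub hlim
    simpa using this
  have heq : ∀ n, ∑ T ∈ W, ac nb Λ v T * U nb Λ K Φ (fun _ _ => 0) n T v
      = ∑ T ∈ W, ac nb Λ v T * Φ T - (J nb Λ v W K Φ (fun _ _ => 0) (n + 1)
      - J nb Λ v W K Φ (fun _ _ => 0) n) := by
    intro n
    have h1 := J_succ (nb := nb) (v := v) (Φ := Φ) (g := fun _ _ => 0) hK n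
    simp only [mul_zero, Finset.sum_const_zero, zero_add] at h1
    linarith
  simp_rw [heq]
  simpa using (tendsto_const_nhds (x := ∑ T ∈ W, ac nb Λ v T * Φ T)).sub hdiff

end

section Ops

variable [Fintype D]

/-- Rotor step operator. -/
def Krot (τ : V → Equiv.Perm D) (x : V) (g : (V → D) → ℝ) (T : V → D) : ℝ :=
  g (update T x (τ x (T x)))

/-- Resampling operator. -/
noncomputable def Kav (x : V) (g : (V → D) → ℝ) (T : V → D) : ℝ :=
  (∑ δ, g (update T x δ)) / Fintype.card D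

theorem good_rot (τ : V → Equiv.Perm D) (Λ : Finset V) (W : Finset (V → D))
    (hW : ∀ T ∈ W, ∀ x ∈ Λ, ∀ δ, update T x δ ∈ W) : Good Λ W (Krot τ) where
  mono x g g' h T := h _
  zero x T := rfl
  sum x hx g := by
    refine Finset.sum_bij' (fun T _ => update T x (τ x (T x)))
      (fun T _ => update T x ((τ x).symm (T x))) ?_ ?_ ?_ ?_ ?_
    · intro T hT; exact hW T hT x hx _
    · intro T hT; exact hW T hT x hx _
    · intro T _; simp
    · intro T _; simp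
    · intro T _; rfl
  pull x φ g h T := by
    show φ _ * g _ = φ T * g _
    rw [h]

theorem Kav_const [Nonempty D] (x : V) (c : ℝ) (T : V → D) : Kav x (fun _ => c) T = c := by
  unfold Kav
  rw [Finset.sum_const, Finset.card_univ, nsmul_eq_mul]
  have : (Fintype.card D : ℝ) ≠ 0 := by exact_mod_cast Fintype.card_ne_zero
  field_simp

theorem sum_resample (W : Finset (V → D)) (x : V)
    (hW : ∀ T ∈ W, ∀ δ, update T x δ ∈ W) (g : (V → D) → ℝ) :
    ∑ T ∈ W, ∑ δ, g (update T x δ) = ∑ T ∈ W, ∑ _δ : D, g T := by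
  rw [← Finset.sum_product', ← Finset.sum_product']
  refine Finset.sum_bij' (fun p _ => (update p.1 x p.2, p.1 x))
    (fun p _ => (update p.1 x p.2, p.1 x)) ?_ ?_ ?_ ?_ ?_
  · intro p hp
    simp only [Finset.mem_product, Finset.mem_univ, and_true] at hp ⊢
    exact hW _ hp _
  · intro p hp
    simp only [Finset.mem_product, Finset.mem_univ, and_true] at hp ⊢
    exact hW _ hp _
  · intro p _; simp
  · intro p _; simp
  · intro p _; rfl

theorem good_av [Nonempty D] (Λ : Finset V) (W : Finset (V → D))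
    (hW : ∀ T ∈ W, ∀ x ∈ Λ, ∀ δ, update T x δ ∈ W) :
    Good Λ W (Kav : V → ((V → D) → ℝ) → (V → D) → ℝ) where
  mono x g g' h T := by
    unfold Kav
    refine div_le_div_of_nonneg_right (Finset.sum_le_sum fun δ _ => h _) (Nat.cast_nonneg _)
  zero x T := Kav_const x 0 T
  sum x hx g := by
    unfold Kav
    rw [← Finset.sum_div, sum_resample W x (fun T hT δ => hW T hT x hx δ) g]
    have : (Fintype.card D : ℝ) ≠ 0 := by exact_mod_cast Fintype.card_ne_zero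
    rw [div_eq_iff this, Finset.sum_mul]
    refine Finset.sum_congr rfl fun T _ => ?_
    rw [Finset.sum_const, Finset.card_univ, nsmul_eq_mul, mul_comm]
  pull x φ g h T := by
    unfold Kav
    simp_rw [h]
    rw [← Finset.mul_sum, mul_div_assoc]

end Ops

end Pool.Agent.MP_c09afc_pr
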