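import Pool.Agent.MP_c09afc_pr.Box

set_option linter.unusedSectionVars false
set_option linter.unusedSimpArgs false
set_option linter.unusedVariables false

namespace Pool.Agent.MP_c09afc_pr

open Function Finset Filter Topology

/-- The box of radius `n`. -/
noncomputable def box (d n : ℕ) : Finset (Fin d → ℤ) := Fintype.piFinset fun _ => Finset.Icc (-(n : ℤ)) n

theorem mem_box {d n : ℕ} {x : Fin d → ℤ} : x ∈ box d n ↔ nrm x ≤ n := by
  unfold box
  rw [Fintype.mem_piFinset, nrm_le_iff]
  refine forall_congr' fun i => ?_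
  rw [Finset.mem_Icc]
  omega

theorem card_box (d n : ℕ) : (box d n).card = (2 * n + 1) ^ d := by
  unfold box
  rw [Fintype.card_piFinset]
  simp
  congr 1
  omega

/-- Rotor configurations that point in direction `+e_0` off the box. -/
noncomputable def Wn (d n : ℕ) [NeZero d] : Finset ((Fin d → ℤ) → Dir d) :=
  Om (box d n) ((0, true) : Dir d)

theorem mem_Wn {d n : ℕ} [NeZero d] {T : (Fin d → ℤ) → Dir d} :
    T ∈ Wn d n ↔ ∀ x, x ∉ box d n → T x = (0, true) := by
  unfold Wn
  exact mem_Om

theorem Wn_update {d n : ℕ} [NeZero d] {Λ' : Finset (Fin d → ℤ)} (hΛ : Λ' ⊆ box d n) :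
    ∀ T ∈ Wn d n, ∀ x ∈ Λ', ∀ δ, update T x δ ∈ Wn d n := by
  unfold Wn
  exact Om_update hΛ

/-- The constant configuration is acyclic in any finite set. -/
theorem ac_const {d : ℕ} [NeZero d] (Λ : Finset (Fin d → ℤ)) (v : Λ) :
    ac nbr Λ v (fun _ => ((0, true) : Dir d)) = 1 := by
  classical
  unfold ac
  rw [if_pos]
  have hB : ∃ B : ℤ, ∀ x ∈ Λ, x 0 ≤ B := by
    obtain ⟨z, _, hz⟩ := Finset.exists_max_image Λ (fun x => x 0) ⟨v, v.2⟩
    exact ⟨z 0, hz⟩
  obtain ⟨B, hB⟩ := hB
  have key : ∀ n : ℕ, ∀ u : Λ, B - (u : Fin d → ℤ) 0 ≤ n →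
      ∃ m, (Fm nbr Λ v (fun _ => ((0, true) : Dir d)))^[m] (some u) = none := by
    intro n
    induction n with
    | zero =>
      intro u hu
      refine ⟨1, ?_⟩
      rw [iterate_one]
      simp only [Fm]
      rw [dif_neg]
      intro h
      have := hB _ h
      simp only [nbr, update_self, if_true] at this
      push_cast at hu
      omega
    | succ n ih =>
      intro u hu
      by_cases h : nbr (u : Fin d → ℤ) ((0, true) : Dir d) ∈ Λ
      · obtain ⟨m, hm⟩ := ih ⟨_, h⟩ (by
          simp only [nbr, update_self, if_true]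
          push_cast at hu
          omega)
        refine ⟨m + 1, ?_⟩
        rw [iterate_succ_apply]
        have : Fm nbr Λ v (fun _ => ((0, true) : Dir d)) (some u) = some ⟨_, h⟩ := by
          simp only [Fm, dif_pos h]
        rw [this]
        exact hm
      · refine ⟨1, ?_⟩
        rw [iterate_one]
        simp only [Fm, dif_neg h]
  intro u
  cases u with
  | none => exact ⟨0, rfl⟩
  | some u =>
    exact key (B - (u : Fin d → ℤ) 0).toNat u (by
      have := hB u u.2
      omega)

theorem tot_pos {d n : ℕ} [NeZero d] (Λ : Finset (Fin d → ℤ)) (v : Λ) :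
    0 < tot nbr Λ (Wn d n) v := by
  unfold tot
  refine Finset.sum_pos' (fun T _ => ac_nonneg _ _ _ _) ⟨fun _ => (0, true), ?_, ?_⟩
  · rw [mem_Wn]; intro _ _; rfl
  · rw [ac_const]; exact zero_lt_one

theorem card_bdry_ge {d : ℕ} [NeZero d] (hd : 3 ≤ d) (n : ℕ) (x : Fin d → ℤ) (hx : nrm x < n) :
    n ≤ (bdry nbr ((box d n).erase x)).card := by
  classical
  let i1 : Fin d := ⟨1, by omega⟩
  have h01 : (0 : Fin d) ≠ i1 := by
    intro h
    have := congrArg Fin.val h
    simp [i1] at this
  let y : ℕ → Fin d → ℤ := fun t => update (update 0 i1 (t : ℤ)) 0 (n : ℤ)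
  have hy0 : ∀ t, y t 0 = n := fun t => by simp [y]
  have hy1 : ∀ t, y t i1 = t := fun t => by
    simp only [y]
    rw [update_of_ne h01.symm, update_self]
  have hcard : ((Finset.range n).image fun t => (y t, ((0, true) : Dir d))).card = n := by
    rw [Finset.card_image_of_injOn, Finset.card_range]
    intro t _ t' _ h
    simp only [Prod.mk.injEq, and_true] at h
    have := congrFun h i1
    rw [hy1, hy1] at this
    exact_mod_cast this
  rw [← hcard]
  refine Finset.card_le_card ?_
  intro e he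
  rw [Finset.mem_image] at he
  obtain ⟨t, ht, rfl⟩ := he
  rw [Finset.mem_range] at ht
  unfold bdry
  rw [hcard, Finset.mem_filter, Finset.mem_product]
  refine ⟨⟨?_, Finset.mem_univ _⟩, ?_⟩
  · rw [Finset.mem_erase]
    constructor
    · rintro h
      have h1 := natAbs_le_nrm x 0
      rw [← h] at h1
      simp only at h1
      rw [hy0] at h1
      rw [← h] at hx
      simp only at hx
      omega
    · rw [mem_box, nrm_le_iff]
      intro i
      simp only
      by_cases h0 : i = 0
      · rw [h0, hy0]; omega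
      · by_cases h1 : i = i1
        · rw [h1, hy1]; omega
        · simp only [y]
          rw [update_of_ne h0, update_of_ne h1]
          simp
  · intro h
    rw [Finset.mem_erase, mem_box] at h
    have h1 := natAbs_le_nrm (nbr (y t) ((0, true) : Dir d)) 0
    have h2 : nbr (y t) ((0, true) : Dir d) 0 = n + 1 := by
      unfold nbr
      rw [update_self, hy0]
      simp
    rw [h2] at h1
    have h3 := h.2
    simp only at h3
    omega

/-- The walk started from `(a, T)` visits `x` after a visit off `box r`, within `N` steps and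
without leaving `box n`. -/
def Ret {d : ℕ} (τ : (Fin d → ℤ) → Equiv.Perm (Dir d)) (a x : Fin d → ℤ) (r n N : ℕ)
    (T : (Fin d → ℤ) → Dir d) : Prop :=
  ∃ t ≤ N, (∀ j ≤ t, ((stp nbr τ)^[j] (a, T)).1 ∈ box d n) ∧
    (∃ s < t, ((stp nbr τ)^[s] (a, T)).1 ∉ box d r) ∧ ((stp nbr τ)^[t] (a, T)).1 = x

open scoped Classical in
/-- First reduction: static count. -/
theorem ret_le_static {d : ℕ} [NeZero d] (τ : (Fin d → ℤ) → Equiv.Perm (Dir d))
    (a x : Fin d → ℤ) (r n N : ℕ) (ha : a ∈ box d n) :
    ∑ T ∈ Wn d n, ac nbr (box d n) ⟨a, ha⟩ T * (if Ret τ a x r n N T then 1 else 0)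
      ≤ ∑ T ∈ Wn d n, wt nbr (box d n) ⟨a, ha⟩ T x *
        (if ∃ u, u ∉ box d r ∧ ∃ K, PathSet nbr (box d n) T x u K then 1 else 0) := by
  set g : ((Fin d → ℤ) → Dir d) → (Fin d → ℤ) → ℝ := fun T y =>
    if y = x ∧ ∃ u, u ∉ box d r ∧ ∃ K, PathSet nbr (box d n) T x u K then 1 else 0 with hg
  have hg0 : ∀ T y, 0 ≤ g T y := by
    intro T y; rw [hg]; simp only; split_ifs <;> norm_num
  have hK := good_rot τ (box d n) (Wn d n) (Wn_update (Finset.Subset.refl _))
  have h1 := sum_U_le (nb := nbr) (v := ⟨a, ha⟩) (Φ := fun _ => 0) (g := g) hK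
    (fun _ => le_rfl) hg0 (N + 1)
  simp only [mul_zero, Finset.sum_const_zero, add_zero] at h1
  refine le_trans (Finset.sum_le_sum fun T _ => ?_) (h1.trans ?_)
  · refine mul_le_mul_of_nonneg_left ?_ (ac_nonneg _ _ _ _)
    by_cases hR : Ret τ a x r n N T
    · rw [if_pos hR]
      obtain ⟨t, htN, hin, ⟨s, hst, hs⟩, htx⟩ := hR
      have h2 := U_rot_ge nbr τ (box d n) (fun _ => 0) (fun _ => le_rfl) g hg0 t N (a, T) htN hin
      refine le_trans ?_ h2
      obtain ⟨K, hK⟩ := visited_lead nbr nbr_ne τ (box d n) (a, T) t s hst.le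
        (fun j hj => hin j hj.le)
      rw [hg]
      simp only
      rw [if_pos]
      refine ⟨htx, _, hs, K, ?_⟩
      rw [htx] at hK
      exact hK
    · rw [if_neg hR]
      exact U_nonneg hK (fun _ => le_rfl) hg0 _ _ _
  · refine Finset.sum_le_sum fun T _ => ?_
    by_cases hx : x ∈ box d n
    · rw [Finset.sum_eq_single x]
      · rw [hg]
        simp
      · intro y _ hy
        rw [hg]
        simp only
        rw [if_neg (fun h => hy h.1), mul_zero]
      · intro h; exact absurd hx h
    · rw [wt_of_notMem _ _ _ _ hx, zero_mul]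
      refine (Finset.sum_eq_zero fun y hy => ?_).le
      rw [hg]
      simp only
      rw [if_neg, mul_zero]
      rintro ⟨rfl, _⟩
      exact hx hy

open scoped Classical in
/-- Second reduction: one-endedness at the neighbours of `x`. -/
theorem static_le_far {d : ℕ} [NeZero d] (a x : Fin d → ℤ) (r n : ℕ) (ha : a ∈ box d n)
    (hx : nrm x + 1 ≤ n) :
    ∑ T ∈ Wn d n, wt nbr (box d n) ⟨a, ha⟩ T x *
        (if ∃ u, u ∉ box d (r + nrm x + 1) ∧ ∃ K, PathSet nbr (box d n) T x u K then 1 else 0)
      ≤ ∑ δ : Dir d, ∑ T ∈ Wn d n, ac nbr ((box d n).erase x) ⟨nbr x δ, by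
          rw [Finset.mem_erase, mem_box]
          exact ⟨nbr_ne x δ, (nrm_nbr_le x δ).trans hx⟩⟩ T
        * far nbr ((box d n).erase x) (nbr x δ)
          ((box d n).filter fun u => nrm (u - nbr x δ) = r) T := by
  rw [Finset.sum_comm]
  refine Finset.sum_le_sum fun T _ => ?_
  have hmem : ∀ δ, nbr x δ ∈ (box d n).erase x := fun δ => by
    rw [Finset.mem_erase, mem_box]
    exact ⟨nbr_ne x δ, (nrm_nbr_le x δ).trans hx⟩
  have hnn : ∀ δ : Dir d, 0 ≤ ac nbr ((box d n).erase x) ⟨nbr x δ, hmem δ⟩ T
        * far nbr ((box d n).erase x) (nbr x δ)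
          ((box d n).filter fun u => nrm (u - nbr x δ) = r) T := by
    intro δ
    refine mul_nonneg (ac_nonneg _ _ _ _) ?_
    unfold far; split_ifs <;> norm_num
  by_cases h : ∃ u, u ∉ box d (r + nrm x + 1) ∧ ∃ K, PathSet nbr (box d n) T x u K
  · rw [if_pos h, mul_one]
    obtain ⟨u, hu, K, hK⟩ := h
    have hux : u ≠ x := by
      rintro rfl
      apply hu
      rw [mem_box]; omega
    obtain ⟨z, hz, hzx, K', hK'⟩ := path_last hK hux
    have hzδ : z = nbr x (opp (T z)) := by
      rw [← hzx, nbr_opp]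
    set δ := opp (T z) with hδ
    refine le_trans ?_ (Finset.single_le_sum (f := fun δ =>
      ac nbr ((box d n).erase x) ⟨nbr x δ, hmem δ⟩ T
        * far nbr ((box d n).erase x) (nbr x δ)
          ((box d n).filter fun u => nrm (u - nbr x δ) = r) T) (fun δ _ => hnn δ)
        (Finset.mem_univ δ))
    have hfar : far nbr ((box d n).erase x) (nbr x δ)
          ((box d n).filter fun u => nrm (u - nbr x δ) = r) T = 1 := by
      unfold far
      rw [if_pos]
      rw [← hzδ]
      have hr : r ≤ nrm (u - z) := by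
        rw [mem_box] at hu
        have h1 : nrm u ≤ nrm (u - z) + nrm z := by
          have := nrm_add_le (u - z) z
          rwa [sub_add_cancel] at this
        have h2 : nrm z ≤ nrm x + 1 := by rw [hzδ]; exact nrm_nbr_le x δ
        omega
      obtain ⟨y, hyK, hyr, K'', _, hp⟩ := hK'.inter r hr
      refine ⟨y, ?_, K'', hp⟩
      rw [Finset.mem_filter]
      refine ⟨?_, hyr⟩
      exact Finset.mem_of_mem_erase (hK'.subset hz hyK)
    rw [hfar, mul_one]
    exact ac_erase_of_wt nbr (box d n) ⟨a, ha⟩ T x _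
  · rw [if_neg h, mul_zero]
    exact Finset.sum_nonneg fun δ _ => hnn δ

theorem card_sphere_le {d : ℕ} (n r : ℕ) (z : Fin d → ℤ) :
    (((box d n).filter fun u => nrm (u - z) = r).card : ℝ) ≤ (2 * r + 1) ^ d := by
  have h : ((box d n).filter fun u => nrm (u - z) = r).card ≤ (box d r).card := by
    refine Finset.card_le_card_of_injOn (fun u => u - z) ?_ ?_
    · intro u hu
      have := (Finset.mem_filter.1 hu).2
      simp only [Finset.mem_coe]
      rw [mem_box, this]
    · intro u _ u' _ h
      exact sub_left_injective h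
  rw [card_box] at h
  exact_mod_cast h

end Pool.Agent.MP_c09afc_pr
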