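import Pool.Agent.MP_c09afc_pr.Ret

set_option linter.unusedSectionVars false
set_option linter.unusedSimpArgs false
set_option linter.unusedVariables false

namespace Pool.Agent.MP_c09afc_pr

open Function Finset Filter Topology

theorem exists_radius (d : ℕ) (A ε : ℝ) (hA : 0 < A) (hε : 0 < ε) :
    ∃ r : ℕ, (2 * (r : ℝ) + 1) ^ d * Real.exp (-(A * √((r : ℝ) + 1))) ≤ ε := by
  have h1 : Tendsto (fun x : ℝ => x ^ (2 * d) * Real.exp (-x)) atTop (𝓝 0) :=
    Real.tendsto_pow_mul_exp_neg_atTop_nhds_zero (2 * d)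
  have h2 : Tendsto (fun r : ℕ => A * √((r : ℝ) + 1)) atTop atTop := by
    apply Tendsto.const_mul_atTop hA
    apply Real.tendsto_sqrt_atTop.comp
    exact tendsto_atTop_add_const_right _ _ tendsto_natCast_atTop_atTop
  have h3 := (h1.comp h2).const_mul (2 ^ d / A ^ (2 * d))
  rw [mul_zero] at h3
  obtain ⟨r, hr⟩ := (h3.eventually (gt_mem_nhds hε)).exists
  refine ⟨r, ?_⟩
  refine le_trans ?_ hr.le
  simp only [Function.comp]
  rw [← mul_assoc]
  refine mul_le_mul_of_nonneg_right ?_ (Real.exp_pos _).le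
  have e1 : (2 : ℝ) ^ d / A ^ (2 * d) * (A * √((r : ℝ) + 1)) ^ (2 * d)
      = (2 * ((r : ℝ) + 1)) ^ d := by
    rw [mul_pow, pow_mul (√((r : ℝ) + 1)), Real.sq_sqrt (by positivity), mul_pow]
    have : A ^ (2 * d) ≠ 0 := by positivity
    field_simp
  rw [e1]
  apply pow_le_pow_left₀ (by positivity)
  linarith

theorem tot_erase_le {d : ℕ} [NeZero d] (hd : 3 ≤ d) (n : ℕ) (a x : Fin d → ℤ) (ha : a ∈ box d n)
    (hx : x ∈ box d n) (v : ((box d n).erase x : Finset (Fin d → ℤ))) :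
    tot nbr ((box d n).erase x) (Wn d n) v
      ≤ tot nbr (box d n) (Wn d n) ⟨a, ha⟩ * (pot (0 : Fin d → ℤ) / kap d) := by
  have h1 : tot nbr ((box d n).erase x) (Wn d n) v ≤ cnt nbr (box d n) (Wn d n) ⟨x, hx⟩ x := by
    unfold tot cnt
    exact Finset.sum_le_sum fun T _ => wt_of_ac_erase nbr (box d n) ⟨x, hx⟩ T v
  refine h1.trans ?_
  have h2 := cnt_le hd (box d n) (Wn d n) (Wn_update (Finset.Subset.refl _)) ⟨x, hx⟩ x
  rw [sub_self, tot_base nbr (box d n) (Wn d n) _ ⟨a, ha⟩] at h2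
  refine h2.trans (le_of_eq ?_)
  ring

open scoped Classical in
/-- Returns after a long excursion are uniformly unlikely. -/
theorem ret_bound {d : ℕ} [NeZero d] (hd : 3 ≤ d) (τ : (Fin d → ℤ) → Equiv.Perm (Dir d))
    (a x : Fin d → ℤ) (ε : ℝ) (hε : 0 < ε) :
    ∃ r : ℕ, ∀ᶠ n in atTop, ∀ (ha : a ∈ box d n) (N : ℕ),
      ∑ T ∈ Wn d n, ac nbr (box d n) ⟨a, ha⟩ T * (if Ret τ a x r n N T then 1 else 0)
        ≤ ε * tot nbr (box d n) (Wn d n) ⟨a, ha⟩ := by
  have hκ := kap_pos hd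
  have hd0 : (0 : ℝ) < d := by exact_mod_cast (show 0 < d by omega)
  have hp0 := pot_pos (0 : Fin d → ℤ)
  set c : ℝ := 2 * d * (kap d / 8) with hc
  have hcpos : 0 < c := by positivity
  set C : ℝ := 2 * d * (pot (0 : Fin d → ℤ) / kap d) * (4 * d + 1) with hC
  have hCpos : 0 < C := by positivity
  set ε₁ : ℝ := ε / C with hε₁
  have hε₁pos : 0 < ε₁ := by positivity
  obtain ⟨r, hr⟩ := exists_radius d (ε₁ * c) ε₁ (by positivity) hε₁pos
  refine ⟨r + nrm x + 1, ?_⟩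
  filter_upwards [eventually_ge_atTop (nrm x + 2), eventually_ge_atTop (⌈1 / ε₁⌉₊ + 1)]
    with n hn1 hn2 ha N
  have hx : x ∈ box d n := mem_box.2 (by omega)
  refine (ret_le_static τ a x (r + nrm x + 1) n N ha).trans ?_
  refine (static_le_far a x r n ha (by omega)).trans ?_
  have hE := card_bdry_ge hd n x (by omega)
  have hEn : (n : ℝ) ≤ (bdry nbr ((box d n).erase x)).card := by exact_mod_cast hE
  have hn0 : (0 : ℝ) < n := by exact_mod_cast (show 0 < n by omega)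
  have hEpos : (0 : ℝ) < (bdry nbr ((box d n).erase x)).card := lt_of_lt_of_le hn0 hEn
  have hEinv : 1 / ((bdry nbr ((box d n).erase x)).card : ℝ) ≤ ε₁ := by
    have h1 : 1 / ε₁ ≤ n := by
      have h2 := Nat.le_ceil (1 / ε₁)
      have h3 : ((⌈1 / ε₁⌉₊ : ℕ) : ℝ) ≤ n := by exact_mod_cast (show ⌈1 / ε₁⌉₊ ≤ n by omega)
      linarith
    rw [div_le_iff₀ hEpos]
    rw [div_le_iff₀ hε₁pos] at h1
    nlinarith
  set E : ℝ := ((bdry nbr ((box d n).erase x)).card : ℝ) with hEdef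
  set M : ℕ := ⌈ε₁ * E⌉₊ with hM
  have hM1 : ε₁ * E ≤ M := Nat.le_ceil _
  have hM2 : (M : ℝ) ≤ ε₁ * E + 1 := (Nat.ceil_lt_add_one (by positivity)).le
  have hbound : ∀ δ : Dir d, ∑ T ∈ Wn d n, ac nbr ((box d n).erase x) ⟨nbr x δ, by
          rw [Finset.mem_erase, mem_box]
          exact ⟨nbr_ne x δ, (nrm_nbr_le x δ).trans (by omega)⟩⟩ T
        * far nbr ((box d n).erase x) (nbr x δ)
          ((box d n).filter fun u => nrm (u - nbr x δ) = r) T
      ≤ tot nbr (box d n) (Wn d n) ⟨a, ha⟩ * (pot (0 : Fin d → ℤ) / kap d) * ((4 * d + 1) * ε₁) := by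
    intro δ
    have hz : nbr x δ ∈ (box d n).erase x := by
      rw [Finset.mem_erase, mem_box]
      exact ⟨nbr_ne x δ, (nrm_nbr_le x δ).trans (by omega)⟩
    have h1 := one_ended_lattice hd (Wn d n) (Wn_update (Finset.erase_subset x (box d n)))
      ⟨nbr x δ, hz⟩ (tot_pos _ _) (Finset.card_pos.1 (by
        have : 0 < n := by omega
        omega)) (o := nbr x δ) hz
      ((box d n).filter fun u => nrm (u - nbr x δ) = r) r M
      (fun u hu => (Finset.mem_filter.1 hu).2.ge)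
    refine h1.trans ?_
    refine mul_le_mul (tot_erase_le hd n a x ha hx _) ?_ (by positivity) (mul_nonneg (tot_nonneg _ _ _ _) (by positivity))
    rw [← hEdef, ← hc]
    have h2 : (M : ℝ) * (2 * d / E) ≤ 4 * d * ε₁ := by
      calc (M : ℝ) * (2 * d / E) ≤ (ε₁ * E + 1) * (2 * d / E) :=
            mul_le_mul_of_nonneg_right hM2 (by positivity)
        _ = 2 * d * ε₁ + 2 * d * (1 / E) := by field_simp
        _ ≤ 2 * d * ε₁ + 2 * d * ε₁ := by
            have := mul_le_mul_of_nonneg_left hEinv (show (0 : ℝ) ≤ 2 * d by positivity)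
            linarith
        _ = 4 * d * ε₁ := by ring
    have h3 : (((box d n).filter fun u => nrm (u - nbr x δ) = r).card : ℝ)
        * Real.exp (-(M * ((c * √((r : ℝ) + 1)) / E))) ≤ ε₁ := by
      refine le_trans (mul_le_mul (card_sphere_le n r (nbr x δ)) ?_ (Real.exp_pos _).le
        (by positivity)) hr
      rw [Real.exp_le_exp, neg_le_neg_iff]
      calc ε₁ * c * √((r : ℝ) + 1) = ε₁ * E * ((c * √((r : ℝ) + 1)) / E) := by field_simp
        _ ≤ M * ((c * √((r : ℝ) + 1)) / E) := mul_le_mul_of_nonneg_right hM1 (by positivity)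
    linarith
  calc _ ≤ ∑ δ : Dir d, tot nbr (box d n) (Wn d n) ⟨a, ha⟩ * (pot (0 : Fin d → ℤ) / kap d)
        * ((4 * d + 1) * ε₁) := Finset.sum_le_sum fun δ _ => hbound δ
    _ = 2 * d * (tot nbr (box d n) (Wn d n) ⟨a, ha⟩ * (pot (0 : Fin d → ℤ) / kap d)
        * ((4 * d + 1) * ε₁)) := by
        rw [Finset.sum_const, Finset.card_univ, nsmul_eq_mul, card_dir]
    _ = ε * tot nbr (box d n) (Wn d n) ⟨a, ha⟩ := by
        rw [hε₁, hC]
        field_simp

end Pool.Agent.MP_c09afc_pr
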