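import Pool.Agent.MP_c09afc_pr.Inv

set_option linter.unusedSectionVars false
set_option linter.unusedSimpArgs false
set_option linter.unusedVariables false

namespace Pool.Agent.MP_c09afc_pr

open Finset Function Filter Topology MeasureTheory ProbabilityTheory

variable {d : ℕ}

theorem fract_eq_of_circle {x y : ℝ} (h : (x : AddCircle (1 : ℝ)) = (y : AddCircle (1 : ℝ))) :
    ∃ k : ℤ, x = y + k := by
  rw [← sub_eq_zero, ← AddCircle.coe_sub, AddCircle.coe_eq_zero_iff] at h
  obtain ⟨n, hn⟩ := h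
  refine ⟨n, ?_⟩
  rw [zsmul_eq_mul, mul_one] at hn
  linarith

/-- Conditioning on an invariant event preserves stationarity. -/
theorem iss_cond {τ : (Fin d → ℤ) → Equiv.Perm (Dir d)} {a : Fin d → ℤ} {μ : Measure (Cfg d)}
    (hμ : ISS τ a μ) (B : Set (Cfg d)) (hB : MeasurableSet B) (hpos : μ B ≠ 0)
    (hinv : ∀ᵐ ρ ∂μ, ρ ∈ B ↔ finalCfg τ a ρ ∈ B) : ISS τ a (μ[|B]) := by
  have hp := hμ.prob
  have hm := measurable_finalCfg τ a
  refine ⟨cond_isProbabilityMeasure hpos, ?_, ?_⟩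
  · exact cond_absolutelyContinuous.ae_le hμ.transient
  · ext A hA
    rw [Measure.map_apply hm hA, cond_apply hB, cond_apply hB]
    congr 1
    have h1 : μ (B ∩ finalCfg τ a ⁻¹' A) = μ (finalCfg τ a ⁻¹' (B ∩ A)) := by
      refine measure_congr ?_
      filter_upwards [hinv] with ρ hρ
      exact propext (and_congr_left' hρ)
    rw [h1, ← Measure.map_apply hm (hB.inter hA), hμ.stationary]

theorem mutuallySingular_cond {μ : Measure (Cfg d)} [IsFiniteMeasure μ] {B C : Set (Cfg d)}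
    (hB : MeasurableSet B) (hC : MeasurableSet C) (hdis : Disjoint B C) :
    (μ[|B]) ⟂ₘ (μ[|C]) := by
  refine ⟨Bᶜ, hB.compl, ?_, ?_⟩
  · rw [cond_apply hB, Set.inter_compl_self, measure_empty, mul_zero]
  · rw [compl_compl, cond_apply hC, Set.inter_comm, hdis.inter_eq, measure_empty, mul_zero]

/-- The events used for conditioning. -/
def ev (F : Cfg d → ℝ) (s t : ℝ) (c : ℝ) : Set (Cfg d) := {ρ | Int.fract (F ρ + c) ∈ Set.Ico s t}

theorem measurableSet_ev {F : Cfg d → ℝ} (hF : Continuous F) (s t c : ℝ) :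
    MeasurableSet (ev F s t c) := by
  have h : Measurable fun ρ : Cfg d => Int.fract (F ρ + c) :=
    measurable_fract.comp (hF.measurable.add_const c)
  exact h measurableSet_Ico

theorem ev_pos {τ : (Fin d → ℤ) → Equiv.Perm (Dir d)} {μ : Measure (Cfg d)} {v : Fin d → ℤ}
    (hμ : ISS τ v μ) {F : Cfg d → ℝ} (hF : Continuous F) {c : ℝ} (hc : c ≠ 0)
    (hinv : ∀ᵐ ρ ∂μ, ∃ k : ℤ, F (finalCfg τ v ρ) = c + F ρ + k)
    {s t : ℝ} (hs : 0 ≤ s) (ht : t ≤ 1) (hst : |c| < t - s) : μ (ev F s t 0) ≠ 0 := by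
  have hp := hμ.prob
  have hm := measurable_finalCfg τ v
  have hstep : ∀ j : ℤ, μ (ev F s t ((j + 1 : ℤ) * c)) = μ (ev F s t (j * c)) := by
    intro j
    have h1 : μ (ev F s t ((j + 1 : ℤ) * c)) = μ (finalCfg τ v ⁻¹' (ev F s t (j * c))) := by
      refine measure_congr ?_
      filter_upwards [hinv] with ρ hρ
      obtain ⟨k, hk⟩ := hρ
      refine propext ?_
      change Int.fract (F ρ + ((j + 1 : ℤ) : ℝ) * c) ∈ Set.Ico s t ↔
        Int.fract (F (finalCfg τ v ρ) + (j : ℝ) * c) ∈ Set.Ico s t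
      have e : Int.fract (F (finalCfg τ v ρ) + (j : ℝ) * c)
          = Int.fract (F ρ + ((j + 1 : ℤ) : ℝ) * c) := by
        rw [Int.fract_eq_fract]
        refine ⟨k, ?_⟩
        rw [hk]
        push_cast
        ring
      rw [e]
    rw [h1, ← Measure.map_apply hm (measurableSet_ev hF _ _ _), hμ.stationary]
  have hall : ∀ j : ℤ, μ (ev F s t (j * c)) = μ (ev F s t 0) := by
    intro j
    induction j using Int.induction_on with
    | zero => simp
    | succ i ih => rw [hstep, ih]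
    | pred i ih =>
      have h2 := hstep (-(i : ℤ) - 1)
      rw [sub_add_cancel] at h2
      rw [← h2, ih]
  intro h0
  have hcov : (Set.univ : Set (Cfg d)) ⊆ ⋃ j : ℤ, ev F s t (j * c) := by
    intro ρ _
    rw [Set.mem_iUnion]
    obtain ⟨m, hm1, -⟩ := existsUnique_add_zsmul_mem_Ico (abs_pos.2 hc) (F ρ) s
    simp only [zsmul_eq_mul] at hm1
    have key : ∀ j : ℤ, (j : ℝ) * c = (m : ℝ) * |c| → ρ ∈ ev F s t (j * c) := by
      intro j hj
      change Int.fract (F ρ + (j : ℝ) * c) ∈ Set.Ico s t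
      rw [hj]
      have h3 : Int.fract (F ρ + (m : ℝ) * |c|) = F ρ + (m : ℝ) * |c| := by
        rw [Int.fract_eq_self]
        exact ⟨hs.trans hm1.1, by have := hm1.2; linarith⟩
      rw [h3]
      exact ⟨hm1.1, by have := hm1.2; linarith⟩
    rcases abs_choice c with h | h
    · exact ⟨m, key m (by rw [h])⟩
    · exact ⟨-m, key (-m) (by rw [h]; push_cast; ring)⟩
  have h1 : μ (Set.univ : Set (Cfg d)) ≤ 0 := by
    refine (measure_mono hcov).trans ((measure_iUnion_le _).trans ?_)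
    simp only [hall, h0, tsum_zero, le_refl]
  rw [measure_univ] at h1
  simp at h1

/-- There are infinitely many pairwise mutually singular infinite-step stationary measures. -/
theorem exists_many (hd : 3 ≤ d) (τ : (Fin d → ℤ) → Equiv.Perm (Dir d))
    (hτ : ∀ x δ δ', (τ x).SameCycle δ δ') (a : Fin d → ℤ) :
    ∃ ν : ℕ → Measure (Cfg d), (∀ n, ISS τ a (ν n)) ∧ Pairwise fun m n => ν m ⟂ₘ ν n := by
  obtain ⟨μ, hμ⟩ := exists_iss (d := d) hd
  obtain ⟨h, hsum, hlap, ha, hsmall⟩ := exists_h (by omega) a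
  obtain ⟨F, hFc, hF⟩ := exists_F τ hτ h hsum hlap
  have hp := (hμ τ a).prob
  have hinv : ∀ v, ∀ᵐ ρ ∂μ, ∃ k : ℤ, F (finalCfg τ v ρ) = h v + F ρ + k := by
    intro v
    filter_upwards [(hμ τ v).transient] with ρ hρ
    exact fract_eq_of_circle (inv_limit τ h F hsum hFc hF v ρ hρ)
  set s : ℕ → ℝ := fun n => 1 / ((n : ℝ) + 1) with hs
  have hs0 : ∀ n, 0 < s n := fun n => by rw [hs]; positivity
  have hs1 : ∀ n, s n ≤ 1 := fun n => by
    rw [hs]
    simp only
    rw [div_le_one (by positivity)]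
    have : (0 : ℝ) ≤ n := Nat.cast_nonneg n
    linarith
  have hanti : ∀ m n, m < n → s n < s m := by
    intro m n hmn
    rw [hs]
    simp only
    apply one_div_lt_one_div_of_lt (by positivity)
    have : (m : ℝ) < n := by exact_mod_cast hmn
    linarith
  have hanti' : ∀ m n, m ≤ n → s n ≤ s m := fun m n hmn => by
    rcases hmn.lt_or_eq with h | h
    · exact (hanti m n h).le
    · rw [h]
  have hpos : ∀ n, μ (ev F (s (n + 1)) (s n) 0) ≠ 0 := by
    intro n
    obtain ⟨v, hv1, hv2⟩ := hsmall (s n - s (n + 1)) (by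
      have := hanti n (n + 1) (by omega)
      linarith)
    exact ev_pos (hμ τ v) hFc (abs_pos.1 hv1) (hinv v) (hs0 _).le (hs1 _) hv2
  have hdis : ∀ m n, m < n → Disjoint (ev F (s (m + 1)) (s m) 0) (ev F (s (n + 1)) (s n) 0) := by
    intro m n hmn
    rw [Set.disjoint_left]
    intro ρ h1 h2
    have h3 : s (m + 1) ≤ Int.fract (F ρ + 0) := h1.1
    have h4 : Int.fract (F ρ + 0) < s n := h2.2
    have h5 := hanti' (m + 1) n (by omega)
    linarith
  refine ⟨fun n => μ[|ev F (s (n + 1)) (s n) 0], fun n => ?_, ?_⟩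
  · refine iss_cond (hμ τ a) _ (measurableSet_ev hFc _ _ _) (hpos n) ?_
    filter_upwards [hinv a] with ρ hρ
    obtain ⟨k, hk⟩ := hρ
    rw [ha, zero_add] at hk
    change Int.fract (F ρ + 0) ∈ Set.Ico _ _ ↔ Int.fract (F (finalCfg τ a ρ) + 0) ∈ Set.Ico _ _
    rw [hk, add_zero, add_zero, Int.fract_add_intCast]
  · intro m n hmn
    rcases lt_or_gt_of_ne hmn with h | h
    · exact mutuallySingular_cond (measurableSet_ev hFc _ _ _) (measurableSet_ev hFc _ _ _)
        (hdis m n h)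
    · exact mutuallySingular_cond (measurableSet_ev hFc _ _ _) (measurableSet_ev hFc _ _ _)
        (hdis n m h).symm

end Pool.Agent.MP_c09afc_pr
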